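import Mathlib

/-! Frobenius systems with coefficients in a number field: definitions. -/

set_option autoImplicit false

namespace Pool.Agent.H7.OR

open Polynomial NumberField IsDedekindDomain

/-- `Nv`, the number of elements of the residue field of the finite place `v` of `K`. -/
noncomputable def plNorm {K : Type} [Field K] [NumberField K] (v : HeightOneSpectrum (𝓞 K)) : ℕ :=
  Ideal.absNorm v.asIdeal

/-- The set `S` of finite places of `K` has positive lower density: there is `c > 0` such that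
for all large `x` at least the proportion `c` of the places of norm at most `x` lies in `S`. -/
def PosDensity {K : Type} [Field K] [NumberField K] (S : Set (HeightOneSpectrum (𝓞 K))) : Prop :=
  ∃ c : ℝ, 0 < c ∧ ∀ᶠ x : ℝ in Filter.atTop,
    c * (Set.ncard {v : HeightOneSpectrum (𝓞 K) | (plNorm v : ℝ) ≤ x} : ℝ) ≤
      (Set.ncard {v : HeightOneSpectrum (𝓞 K) | v ∈ S ∧ (plNorm v : ℝ) ≤ x} : ℝ)

/-- `φ ∈ Gal(L/K)` is a Frobenius element over the place `v` of `K`, at the prime `Q` of `L`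
above `v`: `φ x ≡ x ^ Nv` modulo `Q` for all integers `x` of `L`. -/
def IsFrob {K L : Type} [Field K] [NumberField K] [Field L] [NumberField L] [Algebra K L]
    (v : HeightOneSpectrum (𝓞 K)) (Q : Ideal (𝓞 L)) (φ : L ≃ₐ[K] L) : Prop :=
  Q.IsPrime ∧ (∀ a : 𝓞 K, a ∈ v.asIdeal ↔ ∃ b ∈ Q, (b : L) = algebraMap K L a) ∧
    ∀ x y : 𝓞 L, (y : L) = φ x → y - x ^ plNorm v ∈ Q

/-- The orbit of the embedding `j` of `F` in `L` under the cyclic group generated by `σ`. -/
def embOrbit {K F L : Type} [Field K] [Field F] [Field L] [Algebra K L]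
    (σ : L ≃ₐ[K] L) (j : F →+* L) : Set (F →+* L) :=
  {i | ∃ g ∈ Subgroup.zpowers σ, ∀ x : F, i x = g (j x)}

/-- Outside the finite set `S` of places the polynomial `P v` with coefficients in the integers
of `F` is monic of degree `m` and pure of weight `w`: under every embedding of `F` in `ℂ` all
its complex roots have absolute value `Nv ^ (w / 2)`. -/
structure IsSystem {K F : Type} [Field K] [NumberField K] [Field F] [NumberField F]
    (m w : ℕ) (S : Set (HeightOneSpectrum (𝓞 K))) (P : HeightOneSpectrum (𝓞 K) → (𝓞 F)[X]) :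
    Prop where
  finite : S.Finite
  monic : ∀ v, v ∉ S → (P v).Monic
  deg : ∀ v, v ∉ S → (P v).natDegree = m
  pure : ∀ v, v ∉ S → ∀ τ : F →+* ℂ, ∀ z : ℂ,
    ((P v).map (τ.comp (algebraMap (𝓞 F) F))).IsRoot z → ‖z‖ ^ 2 = (plNorm v : ℝ) ^ w

/-- Modulo the ideal `𝔫` of `F` the system comes from the representation `ρ` of `Gal(L/K)`, and
`Nv` comes from `χ`: at every place `v ∉ S`, for every Frobenius element `φ` over `v`, the
polynomial `P v` is congruent to the characteristic polynomial of `ρ φ`, and `Nv` to `χ φ`. -/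
structure IsModel {K F L : Type} [Field K] [NumberField K] [Field F] [NumberField F]
    [Field L] [NumberField L] [Algebra K L] {m : ℕ}
    (S : Set (HeightOneSpectrum (𝓞 K))) (P : HeightOneSpectrum (𝓞 K) → (𝓞 F)[X])
    (𝔫 : Ideal (𝓞 F)) (ρ : (L ≃ₐ[K] L) →* Matrix (Fin m) (Fin m) (𝓞 F ⧸ 𝔫))
    (χ : (L ≃ₐ[K] L) →* (𝓞 F ⧸ 𝔫)) : Prop where
  poly : ∀ v, v ∉ S → ∀ (Q : Ideal (𝓞 L)) (φ : L ≃ₐ[K] L), IsFrob v Q φ →
    (P v).map (Ideal.Quotient.mk 𝔫) = (ρ φ).charpoly
  cyc : ∀ v, v ∉ S → ∀ (Q : Ideal (𝓞 L)) (φ : L ≃ₐ[K] L), IsFrob v Q φ →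
    χ φ = (plNorm v : 𝓞 F ⧸ 𝔫)

end Pool.Agent.H7.OR
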