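import Mathlib
set_option autoImplicit false

namespace Pool.Agent.H7.OR

theorem galois_closure (L : Type) [Field L] [NumberField L] :
    ∃ (M : Type) (_ : Field M) (_ : NumberField M) (_ : Algebra L M), IsGalois ℚ M := by
  let A := AlgebraicClosure L
  have h0 : Algebra.IsAlgebraic ℚ A := Algebra.IsAlgebraic.trans ℚ L A
  have h3 : IsAlgClosure ℚ A := ⟨inferInstance, h0⟩
  have h4 : Normal ℚ A := IsAlgClosure.normal ℚ A
  let M := IntermediateField.normalClosure ℚ L A
  have h1 : FiniteDimensional ℚ M := inferInstance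
  have h2 : NumberField M := ⟨⟩
  refine ⟨M, inferInstance, h2, inferInstance, ?_⟩
  have : Normal ℚ M := @normalClosure.normal ℚ L A _ _ _ _ _ h4
  exact ⟨⟩

end Pool.Agent.H7.OR
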