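import Pool.Agent.H7.OR.Defs
import Pool.Agent.H7.LG.Pib

/-! Upper bound for the number of places of norm at most `x`.

Proof.  A finite place `v` has norm `p^f`, `f ≥ 1`, `p` the prime in `v` (`Ideal.exists_prime_and_absNorm_eq_pow`
or so).  For each prime `p` there are at most `[K:ℚ]` places containing `p` (e.g.
`Ideal.sum_ramification_inertia`, or: the product of the distinct primes containing `p` divides `(p)`,
take `absNorm`: `p ^ (number) ≤ p ^ [K:ℚ]`).  So the number of places with norm `≤ x` is at most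
`[K:ℚ] · π(x)`, and `π(x) ≤ C x / log x` (Chebyshev, in Mathlib: `Chebyshev.primeCounting_le...`,
`Chebyshev.pi_le_log4_mul_div` or similar; see also Pool.Agent.H7.LG.Pib). -/

set_option autoImplicit false

namespace Pool.Agent.H7.OR

open NumberField IsDedekindDomain

theorem pl_finite (K : Type) [Field K] [NumberField K] (x : ℝ) :
    {v : HeightOneSpectrum (𝓞 K) | (plNorm v : ℝ) ≤ x}.Finite := by
  have h1 : {I : Ideal (𝓞 K) | Ideal.absNorm I ≤ ⌊x⌋₊}.Finite := Ideal.finite_setOfPred_absNorm_le _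
  have hinj : Function.Injective (fun v : HeightOneSpectrum (𝓞 K) => v.asIdeal) := by
    intro v w h
    exact HeightOneSpectrum.ext h
  refine Set.Finite.subset (h1.preimage hinj.injOn) ?_
  intro v hv
  exact Nat.le_floor hv

theorem pl_prime {K : Type} [Field K] [NumberField K] (v : HeightOneSpectrum (𝓞 K)) :
    ∃ p : ℕ, p.Prime ∧ ((p : ℕ) : 𝓞 K) ∈ v.asIdeal ∧ ∃ n, 0 < n ∧ plNorm v = p ^ n := by
  have hm : v.asIdeal.IsMaximal := v.isMaximal
  obtain ⟨p, n, hn, hp, hpp, h⟩ := Ideal.exists_prime_and_absNorm_eq_pow v.asIdeal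
  exact ⟨p, hpp, hp, n, hn, h⟩

theorem pl_fib {K : Type} [Field K] [NumberField K] (p : ℕ) (hp : p.Prime)
    (T : Finset (HeightOneSpectrum (𝓞 K)))
    (hT : ∀ v ∈ T, ((p : ℕ) : 𝓞 K) ∈ v.asIdeal ∧ p ≤ plNorm v) : T.card ≤ Module.finrank ℚ K := by
  classical
  have hinj : Function.Injective (fun v : HeightOneSpectrum (𝓞 K) => v.asIdeal) := by
    intro v w h
    exact HeightOneSpectrum.ext h
  have hdvd : ∏ I ∈ T.image (fun v => v.asIdeal), I ∣ Ideal.span {((p : ℕ) : 𝓞 K)} := by
    refine Finset.prod_primes_dvd _ ?_ ?_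
    · intro I hI
      obtain ⟨v, _, rfl⟩ := Finset.mem_image.1 hI
      exact v.prime
    · intro I hI
      obtain ⟨v, hv, rfl⟩ := Finset.mem_image.1 hI
      rw [Ideal.dvd_span_singleton]
      exact (hT v hv).1
  rw [Finset.prod_image (fun a _ b _ h => hinj h)] at hdvd
  have h1 := map_dvd Ideal.absNorm hdvd
  rw [map_prod, Ideal.absNorm_span_natCast, NumberField.RingOfIntegers.rank] at h1
  have h6 : ∏ v ∈ T, plNorm v ≤ p ^ Module.finrank ℚ K :=
    Nat.le_of_dvd (pow_pos hp.pos _) h1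
  have h7 : p ^ T.card ≤ ∏ v ∈ T, plNorm v := by
    rw [← Finset.prod_const]
    exact Finset.prod_le_prod' fun v hv => (hT v hv).2
  exact (Nat.pow_le_pow_iff_right hp.one_lt).1 (h7.trans h6)

theorem pl_count (K : Type) [Field K] [NumberField K] :
    ∃ C : ℝ, 0 < C ∧ ∀ x : ℝ, 2 ≤ x →
      (Set.ncard {v : HeightOneSpectrum (𝓞 K) | (plNorm v : ℝ) ≤ x} : ℝ) ≤ C * (x / Real.log x) := by
  classical
  have hd : 0 < Module.finrank ℚ K := Module.finrank_pos
  refine ⟨8 * Module.finrank ℚ K, by positivity, ?_⟩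
  intro x hx
  set n := ⌊x⌋₊ with hn
  have hn2 : 2 ≤ n := Nat.le_floor (by simpa using hx)
  choose P hP using fun v : HeightOneSpectrum (𝓞 K) => pl_prime v
  have hf := pl_finite K x
  rw [Set.ncard_eq_toFinset_card _ hf]
  set A := hf.toFinset with hA
  have hle : ∀ v : HeightOneSpectrum (𝓞 K), P v ≤ plNorm v := by
    intro v
    obtain ⟨h1, _, k, hk, h2⟩ := hP v
    rw [h2]
    exact Nat.le_self_pow hk.ne' _
  have hmaps : ∀ v ∈ A, P v ∈ Nat.primesLE n := by
    intro v hv
    have h1 : (plNorm v : ℝ) ≤ x := by simpa [hA] using hv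
    rw [Nat.mem_primesLE]
    exact ⟨(hle v).trans (Nat.le_floor h1), (hP v).1⟩
  have hcard : A.card ≤ Module.finrank ℚ K * (Nat.primesLE n).card := by
    refine Finset.card_le_mul_card_image_of_maps_to hmaps _ ?_
    intro p hp
    refine pl_fib p ((Nat.mem_primesLE.1 hp).2) _ ?_
    intro v hv
    obtain ⟨_, h1⟩ := Finset.mem_filter.1 hv
    refine ⟨?_, ?_⟩
    · rw [← h1]; exact (hP v).2.1
    · rw [← h1]; exact hle v
  rw [Nat.primesLE_card_eq_primeCounting] at hcard
  have hpi := Pool.Agent.H7.LG.pib n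
  have hx0 : (0 : ℝ) < x := by linarith
  have hlogn : 0 < Real.log n := Real.log_pos (by exact_mod_cast (show 1 < n by omega))
  have hlogx : 0 < Real.log x := Real.log_pos (by linarith)
  have hlog : Real.log x ≤ 2 * Real.log n := by
    have h1 : x ≤ (n : ℝ) ^ 2 := by
      have h2 : x < n + 1 := Nat.lt_floor_add_one x
      have h3 : (2 : ℝ) ≤ n := by exact_mod_cast hn2
      nlinarith
    have h2 := Real.log_le_log hx0 h1
    rw [Real.log_pow] at h2
    simpa using h2
  have hnx : (n : ℝ) ≤ x := Nat.floor_le hx0.le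
  have hpi2 : (Nat.primeCounting n : ℝ) * Real.log x ≤ 8 * x := by
    have h1 : (Nat.primeCounting n : ℝ) * Real.log x ≤ (Nat.primeCounting n : ℝ) * (2 * Real.log n) :=
      mul_le_mul_of_nonneg_left hlog (by positivity)
    linarith
  have h3 : (A.card : ℝ) ≤ Module.finrank ℚ K * Nat.primeCounting n := by exact_mod_cast hcard
  rw [← mul_div_assoc, le_div_iff₀ hlogx]
  calc (A.card : ℝ) * Real.log x ≤ (Module.finrank ℚ K * Nat.primeCounting n) * Real.log x :=
        mul_le_mul_of_nonneg_right h3 hlogx.le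
    _ = Module.finrank ℚ K * (Nat.primeCounting n * Real.log x) := by ring
    _ ≤ Module.finrank ℚ K * (8 * x) := mul_le_mul_of_nonneg_left hpi2 (by positivity)
    _ = 8 * Module.finrank ℚ K * x := by ring

end Pool.Agent.H7.OR
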