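import Pool.Agent.H7.OR.Sm
import Pool.Agent.H7.OR.Gc
import Pool.Agent.H7.OR.Pl
import Pool.Agent.H7.OR.Defs

/-! Frobenius elements generating a given cyclic group of `Gal(L/K)`: positive lower density.

Proof.  `M ⊇ L` from `galois_closure`, `Algebra K M := ` composite (`IsScalarTower K L M`).  `M/K` is normal
(normal over `ℚ`), so `σ` lifts to `σ' ∈ Gal(M/K)` (`AlgEquiv.restrictNormalHom_surjective`), view it
as `τ ∈ Gal(M/ℚ)` (`AlgEquiv.restrictScalars ℚ`).  Let `p` be a prime with `FrobP M τ p`, with `P, φ`: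
`φ = τ^a` fixes `K`, hence comes from `φ' ∈ Gal(M/K)` with `⟨φ'⟩ = ⟨σ'⟩`; `φ_L := φ'` restricted to `L`
has `⟨φ_L⟩ = ⟨σ⟩` (image under the restriction homomorphism).  `Q := P ∩ 𝓞 L`, `v := P ∩ 𝓞 K` (nonzero:
contains `p`).  For `y ∈ 𝓞 K`: `y = φ y ≡ y^p` modulo `P`, so all elements of the field `𝓞 K / v`
satisfy `y^p = y`, so it has at most `p` elements, and as `p ∈ v`, `Nv = p` (a power of `p`, `> 1`).
So `IsFrob v Q φ_L` (the condition on `a` in `IsFrob` : `v = Q ∩ 𝓞 K`).  The map `p ↦ v` is injective on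
these primes (`Nv = p`).  Hence for all `x`
`#{v : Nv prime, ∃ Q φ, IsFrob v Q φ ∧ ⟨φ⟩ = ⟨σ⟩, Nv ≤ x} ≥ #{p ≤ x : FrobP M τ p} ≥ c x / log x`
for large `x` (`sm_count`); removing the finite set `B` costs a constant `≤ (c/2) x / log x`; and the
number of all places is `≤ C x / log x` (`pl_count`).  All sets are finite (`pl_finite`). -/

set_option autoImplicit false

namespace Pool.Agent.H7.OR

open Polynomial NumberField IsDedekindDomain

namespace UpAux

section Lift

variable {K L M : Type} [Field K] [NumberField K] [Field L] [NumberField L] [Field M]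
  [NumberField M] [Algebra K L] [Algebra L M] [Algebra K M] [IsScalarTower K L M]

/-- restriction of scalars as a homomorphism -/
noncomputable def rs (K M : Type) [Field K] [NumberField K] [Field M] [NumberField M]
    [Algebra K M] : (M ≃ₐ[K] M) →* (M ≃ₐ[ℚ] M) where
  toFun φ := { φ.toRingEquiv with commutes' := fun r => by simp }
  map_one' := rfl
  map_mul' _ _ := rfl

omit [NumberField L] [Field L] [Algebra K L] [Algebra L M] [IsScalarTower K L M] in
theorem rs_apply (φ : M ≃ₐ[K] M) (x : M) : rs K M φ x = φ x := rfl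

theorem rs_inj : Function.Injective (rs K M) := by
  intro φ ψ h
  ext x
  exact congrArg (fun f : M ≃ₐ[ℚ] M => f x) h

/-- the place below a prime of `M` -/
noncomputable def plc (P : Ideal (𝓞 M)) (hP : P.IsPrime) (p : ℕ) (hp : p.Prime)
    (hpP : (p : 𝓞 M) ∈ P) : HeightOneSpectrum (𝓞 K) where
  asIdeal := P.comap (algebraMap (𝓞 K) (𝓞 M))
  isPrime := Ideal.comap_isPrime _ _
  ne_bot := by
    intro h
    have h1 : (p : 𝓞 K) ∈ P.comap (algebraMap (𝓞 K) (𝓞 M)) := by
      rw [Ideal.mem_comap, map_natCast]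
      exact hpP
    rw [h, Ideal.mem_bot] at h1
    exact hp.ne_zero (by exact_mod_cast h1)

theorem card_le {F : Type*} [Field F] [Finite F] {p : ℕ} (hp : 1 < p) (h : ∀ y : F, y - y ^ p = 0) :
    Nat.card F ≤ p := by
  classical
  have := Fintype.ofFinite F
  rw [Nat.card_eq_fintype_card]
  set q : F[X] := X ^ p - X with hq
  have hd : q.natDegree = p := FiniteField.X_pow_card_sub_X_natDegree_eq F hp
  have hq0 : q ≠ 0 := by
    intro h0
    rw [h0, natDegree_zero] at hd
    omega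
  calc Fintype.card F = (Finset.univ : Finset F).card := rfl
    _ ≤ q.roots.toFinset.card := Finset.card_le_card fun y _ => by
        rw [Multiset.mem_toFinset, mem_roots hq0, IsRoot.def, hq, eval_sub, eval_pow, eval_X,
          ← neg_eq_zero, neg_sub]
        exact h y
    _ ≤ q.roots.card := Multiset.toFinset_card_le _
    _ ≤ q.natDegree := card_roots' q
    _ = p := hd

theorem plc_norm (P : Ideal (𝓞 M)) (hP : P.IsPrime) (p : ℕ) (hp : p.Prime)
    (hpP : (p : 𝓞 M) ∈ P) (h : ∀ y : 𝓞 K, y - y ^ p ∈ P.comap (algebraMap (𝓞 K) (𝓞 M))) :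
    plNorm (plc (K := K) P hP p hp hpP) = p := by
  set v := plc (K := K) P hP p hp hpP with hv
  have hle : plNorm v ≤ p := by
    unfold plNorm
    rw [Ideal.absNorm_apply, Submodule.cardQuot_apply]
    have hmax : v.asIdeal.IsMaximal := v.isMaximal
    let _ := Ideal.Quotient.field v.asIdeal
    have : Finite (𝓞 K ⧸ v.asIdeal) := Ideal.finiteQuotientOfFreeOfNeBot _ v.ne_bot
    refine card_le (F := 𝓞 K ⧸ v.asIdeal) hp.one_lt ?_
    intro y
    obtain ⟨y, rfl⟩ := Ideal.Quotient.mk_surjective y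
    rw [← map_pow, ← map_sub, Ideal.Quotient.eq_zero_iff_mem]
    exact h y
  have hdvd : plNorm v ∣ p ^ Module.finrank ℚ K := by
    have h1 : Ideal.span {(p : 𝓞 K)} ≤ v.asIdeal := by
      rw [Ideal.span_singleton_le_iff_mem]
      change (p : 𝓞 K) ∈ P.comap (algebraMap (𝓞 K) (𝓞 M))
      rw [Ideal.mem_comap, map_natCast]
      exact hpP
    have h2 := Ideal.absNorm_dvd_absNorm_of_le h1
    rw [Ideal.absNorm_span_singleton] at h2
    have h3 : (Algebra.norm ℤ (p : 𝓞 K)).natAbs = p ^ Module.finrank ℚ K := by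
      have h4 : (p : 𝓞 K) = algebraMap ℤ (𝓞 K) p := by simp
      rw [h4, Algebra.norm_algebraMap, RingOfIntegers.rank, Int.natAbs_pow, Int.natAbs_natCast]
    rw [h3] at h2
    exact h2
  obtain ⟨k, _, hk⟩ := (Nat.dvd_prime_pow hp).1 hdvd
  have h1 : plNorm v ≠ 1 := by
    intro h1
    unfold plNorm at h1
    rw [Ideal.absNorm_eq_one_iff] at h1
    exact v.isPrime.ne_top h1
  have hk1 : k = 1 := by
    rcases Nat.lt_or_ge 1 k with h2 | h2
    · exfalso
      have := Nat.pow_lt_pow_right hp.one_lt h2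
      rw [pow_one, ← hk] at this
      omega
    · interval_cases k
      · exact absurd (by rw [hk, pow_zero]) h1
      · rfl
  rw [hk, hk1, pow_one]

end Lift

end UpAux

open UpAux

theorem frob_density {K L : Type} [Field K] [NumberField K] [Field L] [NumberField L] [Algebra K L]
    [IsGalois K L] (σ : L ≃ₐ[K] L) (B : Set (HeightOneSpectrum (𝓞 K))) (hB : B.Finite) :
    PosDensity {v : HeightOneSpectrum (𝓞 K) | v ∉ B ∧ (plNorm v).Prime ∧
      ∃ (Q : Ideal (𝓞 L)) (φ : L ≃ₐ[K] L), IsFrob v Q φ ∧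
        Subgroup.zpowers φ = Subgroup.zpowers σ} := by
  classical
  obtain ⟨M, iF, iN, iA, hG⟩ := galois_closure L
  let _ : Algebra K M := ((algebraMap L M).comp (algebraMap K L)).toAlgebra
  have : IsScalarTower K L M := IsScalarTower.of_algebraMap_eq fun _ => rfl
  have : IsScalarTower ℚ K M := IsScalarTower.of_algebraMap_eq fun _ => by simp
  have : Normal K M := Normal.tower_top_of_normal ℚ K M
  obtain ⟨σ', hσ'⟩ := AlgEquiv.restrictNormalHom_surjective (F := K) (K₁ := L) M σ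
  obtain ⟨c, hc, hcount⟩ := sm_count M (rs K M σ')
  obtain ⟨C, hC, hpl⟩ := pl_count K
  have key : ∀ p : ℕ, FrobP M (rs K M σ') p → ∃ v : HeightOneSpectrum (𝓞 K), plNorm v = p ∧
      ∃ (Q : Ideal (𝓞 L)) (φ : L ≃ₐ[K] L), IsFrob v Q φ ∧
        Subgroup.zpowers φ = Subgroup.zpowers σ := by
    rintro p ⟨hp, P, φ, hP, hpP, hφ, hz⟩
    obtain ⟨a, ha⟩ : φ ∈ Subgroup.zpowers (rs K M σ') := by
      rw [← hz]; exact Subgroup.mem_zpowers φ
    have hφ' : rs K M (σ' ^ a) = φ := by rw [map_zpow]; exact ha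
    have hzz : Subgroup.zpowers (σ' ^ a) = Subgroup.zpowers σ' := by
      apply Subgroup.map_injective (rs_inj (K := K) (M := M))
      rw [MonoidHom.map_zpowers, MonoidHom.map_zpowers, hφ', hz]
    have hfix : ∀ y : 𝓞 K, φ • (algebraMap (𝓞 K) (𝓞 M) y) = algebraMap (𝓞 K) (𝓞 M) y := by
      intro y
      apply RingOfIntegers.ext
      rw [← hφ']
      change (σ' ^ a) (algebraMap K M (y : K)) = algebraMap K M (y : K)
      exact (σ' ^ a).commutes _
    have hv := plc_norm (K := K) P hP p hp hpP (fun y => by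
      rw [Ideal.mem_comap, map_sub, map_pow]
      have := hφ (algebraMap (𝓞 K) (𝓞 M) y)
      rwa [hfix] at this)
    refine ⟨plc (K := K) P hP p hp hpP, hv, P.comap (algebraMap (𝓞 L) (𝓞 M)),
      AlgEquiv.restrictNormalHom L (σ' ^ a), ⟨Ideal.comap_isPrime _ _, ?_, ?_⟩, ?_⟩
    · intro y
      constructor
      · intro hy
        refine ⟨algebraMap (𝓞 K) (𝓞 L) y, ?_, rfl⟩
        rw [Ideal.mem_comap]
        exact hy
      · rintro ⟨b, hb, hby⟩
        have hb' : b = algebraMap (𝓞 K) (𝓞 L) y := RingOfIntegers.ext hby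
        subst hb'
        exact hb
    · intro x y hxy
      rw [hv, Ideal.mem_comap, map_sub, map_pow]
      have h1 : algebraMap (𝓞 L) (𝓞 M) y = φ • algebraMap (𝓞 L) (𝓞 M) x := by
        apply RingOfIntegers.ext
        rw [← hφ']
        change algebraMap L M (y : L) = (σ' ^ a) (algebraMap L M (x : L))
        rw [hxy]
        exact AlgEquiv.restrictNormal_commutes (σ' ^ a) L (x : L)
      rw [h1]
      exact hφ _
    · rw [← MonoidHom.map_zpowers, hzz, MonoidHom.map_zpowers, hσ']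
  have hlim : Filter.Tendsto (fun x : ℝ => x / Real.log x) Filter.atTop Filter.atTop := by
    have h1 : Filter.Tendsto (fun x : ℝ => Real.log x / x) Filter.atTop (nhds 0) :=
      Real.isLittleO_log_id_atTop.tendsto_div_nhds_zero
    have h2 : Filter.Tendsto (fun x : ℝ => Real.log x / x) Filter.atTop
        (nhdsWithin 0 (Set.Ioi 0)) := by
      rw [tendsto_nhdsWithin_iff]
      refine ⟨h1, ?_⟩
      filter_upwards [Filter.eventually_gt_atTop (1 : ℝ)] with x hx
      exact div_pos (Real.log_pos hx) (by linarith)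
    have h3 := h2.inv_tendsto_nhdsGT_zero
    refine h3.congr fun x => ?_
    rw [Pi.inv_apply, inv_div]
  refine ⟨c / (2 * C), by positivity, ?_⟩
  filter_upwards [hcount, Filter.eventually_ge_atTop (2 : ℝ),
    hlim.eventually_ge_atTop (2 * (B.ncard : ℝ) / c)] with x h1 h2 h3
  set S := {v : HeightOneSpectrum (𝓞 K) | v ∉ B ∧ (plNorm v).Prime ∧
      ∃ (Q : Ideal (𝓞 L)) (φ : L ≃ₐ[K] L), IsFrob v Q φ ∧
        Subgroup.zpowers φ = Subgroup.zpowers σ} with hS
  set T := {v : HeightOneSpectrum (𝓞 K) | (plNorm v).Prime ∧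
      ∃ (Q : Ideal (𝓞 L)) (φ : L ≃ₐ[K] L), IsFrob v Q φ ∧
        Subgroup.zpowers φ = Subgroup.zpowers σ} with hT
  have hfin := pl_finite K x
  have hfT : {v | v ∈ T ∧ (plNorm v : ℝ) ≤ x}.Finite := hfin.subset fun v hv => hv.2
  have hfS : {v | v ∈ S ∧ (plNorm v : ℝ) ≤ x}.Finite := hfin.subset fun v hv => hv.2
  have e1 : ((EK75.prLe x).filter (fun p => FrobP M (rs K M σ') p)).card ≤
      {v | v ∈ T ∧ (plNorm v : ℝ) ≤ x}.ncard := by
    rw [← Set.ncard_coe_finset]
    refine (Set.ncard_le_ncard ?_ (hfT.image plNorm)).trans (Set.ncard_image_le hfT)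
    intro p hp
    rw [Finset.mem_coe, Finset.mem_filter] at hp
    obtain ⟨hp1, hp2⟩ := hp
    obtain ⟨v, hv, hv2⟩ := key p hp2
    refine ⟨v, ⟨⟨by rw [hv]; exact hp2.1, hv2⟩, ?_⟩, hv⟩
    rw [hv]
    unfold EK75.prLe at hp1
    rw [Finset.mem_filter, Finset.mem_range] at hp1
    exact (Nat.le_floor_iff (by linarith)).1 (by omega)
  have e2 : {v | v ∈ T ∧ (plNorm v : ℝ) ≤ x}.ncard ≤
      {v | v ∈ S ∧ (plNorm v : ℝ) ≤ x}.ncard + B.ncard := by
    refine (Set.ncard_le_ncard ?_ (hfS.union hB)).trans (Set.ncard_union_le _ _)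
    rintro v ⟨hv1, hv2⟩
    by_cases hvB : v ∈ B
    · exact Or.inr hvB
    · exact Or.inl ⟨⟨hvB, hv1⟩, hv2⟩
  have e3 : (((EK75.prLe x).filter (fun p => FrobP M (rs K M σ') p)).card : ℝ) ≤
      ({v | v ∈ S ∧ (plNorm v : ℝ) ≤ x}.ncard : ℝ) + B.ncard := by
    exact_mod_cast e1.trans e2
  have e4 := hpl x h2
  have hx0 : 0 < x / Real.log x := div_pos (by linarith) (Real.log_pos (by linarith))
  have e5 : (B.ncard : ℝ) ≤ c / 2 * (x / Real.log x) := by
    rw [div_le_iff₀ hc] at h3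
    linarith
  have e6 : c * (x / Real.log x) ≤
      (((EK75.prLe x).filter (fun p => FrobP M (rs K M σ') p)).card : ℝ) := by
    convert h1
  calc c / (2 * C) * ({v : HeightOneSpectrum (𝓞 K) | (plNorm v : ℝ) ≤ x}.ncard : ℝ)
      ≤ c / (2 * C) * (C * (x / Real.log x)) := mul_le_mul_of_nonneg_left e4 (by positivity)
    _ = c / 2 * (x / Real.log x) := by field_simp
    _ ≤ ({v | v ∈ S ∧ (plNorm v : ℝ) ≤ x}.ncard : ℝ) := by linarith

end Pool.Agent.H7.OR
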