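import Mathlib

/-! Complex monic polynomials all of whose roots have the same absolute value.

Write `P = ∏_{i < m} (X - α_i)` (`IsAlgClosed`, `Polynomial.roots`, `Multiset` to `Fin m → ℂ` or list;
`P.coeff (m-1) = -∑ α_i`, `P.coeff (m-2) = ∑_{i<j} α_i α_j`, `P.coeff 0 = (-1)^m ∏ α_i`).
cx_pair: `∑_{i<j} |α_i α_j - r|² = ∑_{i<j} (2 r² - 2 r Re (α_i α_j)) = 0`, so `α_i α_j = r` for all
  `i ≠ j`; as `m ≥ 3` all `α_i` are equal (`α_i α_k = α_j α_k`), `α_i² = r`, and
  `(∑ α_i)² = m² α_0² = m² r`.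
cx_lin: `∑ |α_i - r|² = ∑ (2 r² - 2 r Re α_i) = 2 m r² - 2 r · m r = 0`, so all `α_i = r`.
cx_all: `∑_{i<j} |α_i - α_j|² = m ∑ |α_i|² - |∑ α_i|² = 0`, all `α_i = α`, `P = (X - α)^m`,
  `P.coeff (m-1) = - m α`, `P.coeff 0 = (-α)^m`.
cx_dual: `conj α_i = r / α_i`, so `conj (∑_{i<j} α_i α_j) = r² ∑_{i<j} 1/(α_i α_j) = r² e_2 / e_4` (`m = 4`:
  the complement of a pair is a pair). -/

set_option autoImplicit false

namespace Pool.Agent.H7.OR

open Polynomial

namespace CxAux

/-- A monic complex polynomial of degree `m` is a product of `m` linear factors. -/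
theorem exists_roots (P : ℂ[X]) (hP : P.Monic) (m : ℕ) (hd : P.natDegree = m) :
    ∃ α : Fin m → ℂ, P = ∏ i, (X - C (α i)) ∧ ∀ i, P.IsRoot (α i) := by
  have hs : P.Splits := IsAlgClosed.splits P
  have hcard : P.roots.card = m := by
    rw [← hd]; exact (splits_iff_card_roots.1 hs)
  obtain ⟨l, hl⟩ := Quot.exists_rep P.roots
  have hl' : (l : Multiset ℂ) = P.roots := hl
  have hlen : l.length = m := by
    rw [← hcard, ← hl']; rfl
  subst hlen
  refine ⟨fun i => l.get i, ?_, ?_⟩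
  · have h1 : P = (P.roots.map fun a => X - C a).prod := by
      have := hs.eq_prod_roots
      rwa [hP.leadingCoeff, C_1, one_mul] at this
    rw [h1, ← hl']
    simp only [Multiset.map_coe, Multiset.prod_coe]
    rw [← List.prod_ofFn]
    congr 1
    apply List.ext_get
    · simp
    · intro n h1 h2
      simp
  · intro i
    have : l.get i ∈ P.roots := by
      rw [← hl']
      exact List.get_mem l i
    exact isRoot_of_mem_roots this

theorem coeffs {ι : Type*} [DecidableEq ι] (f : ι → ℂ) (s : Finset ι) :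
    (∏ i ∈ s, (X - C (f i))).coeff s.card = 1 ∧
    (∀ k, k + 1 = s.card → (∏ i ∈ s, (X - C (f i))).coeff k = -∑ i ∈ s, f i) ∧
    (∀ k, k + 2 = s.card → 2 * (∏ i ∈ s, (X - C (f i))).coeff k
      = (∑ i ∈ s, f i) ^ 2 - ∑ i ∈ s, f i ^ 2) := by
  induction s using Finset.induction_on with
  | empty => simp
  | insert a s ha ih =>
    obtain ⟨h0, h1, h2⟩ := ih
    have hdeg : (∏ i ∈ s, (X - C (f i))).natDegree = s.card := by
      rw [natDegree_prod_of_monic _ _ (fun i _ => monic_X_sub_C _)]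
      simp
    have hbig : (∏ i ∈ s, (X - C (f i))).coeff (s.card + 1) = 0 :=
      coeff_eq_zero_of_natDegree_lt (by omega)
    set Q := ∏ i ∈ s, (X - C (f i)) with hQ
    have hc : ∀ k, ((X - C (f a)) * Q).coeff (k + 1) = Q.coeff k - f a * Q.coeff (k + 1) := by
      intro k
      rw [sub_mul, coeff_sub, coeff_X_mul, coeff_C_mul]
    have hc0 : ((X - C (f a)) * Q).coeff 0 = - f a * Q.coeff 0 := by
      rw [sub_mul, coeff_sub, coeff_X_mul_zero, coeff_C_mul]
      ring
    rw [Finset.prod_insert ha, Finset.sum_insert ha, Finset.sum_insert ha, Finset.card_insert_of_notMem ha]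
    rw [← hQ]
    refine ⟨?_, ?_, ?_⟩
    · rw [hc, h0, hbig]; ring
    · intro k hk
      have hk' : k = s.card := by omega
      subst hk'
      rcases Nat.eq_zero_or_pos s.card with hz | hp
      · have hs0 : s = ∅ := Finset.card_eq_zero.1 hz
        rw [hz] at h0 ⊢
        rw [hc0, h0, hs0]; simp
      · obtain ⟨j, hj⟩ : ∃ j, s.card = j + 1 := ⟨s.card - 1, by omega⟩
        rw [hj] at h0 ⊢
        rw [hc, h0, h1 j (by omega)]; ring
    · intro k hk
      have hk' : k + 1 = s.card := by omega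
      rcases Nat.eq_zero_or_pos k with hz | hp
      · subst hz
        obtain ⟨b, hb⟩ := Finset.card_eq_one.1 hk'.symm
        rw [hc0, h1 0 (by omega), hb]
        simp only [Finset.sum_singleton]
        ring
      · obtain ⟨j, rfl⟩ : ∃ j, k = j + 1 := ⟨k - 1, by omega⟩
        have e1 := h1 (j + 1) hk'
        have e2 := h2 j (by omega)
        rw [hc, e1]
        linear_combination e2

theorem coeff_zero {ι : Type*} (f : ι → ℂ) (s : Finset ι) :
    (∏ i ∈ s, (X - C (f i))).coeff 0 = ∏ i ∈ s, (- f i) := by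
  rw [coeff_zero_eq_eval_zero, eval_prod]
  simp

end CxAux

open CxAux

theorem cx_pair (P : ℂ[X]) (hP : P.Monic) (m : ℕ) (hd : P.natDegree = m) (hm : 3 ≤ m) (r : ℝ)
    (hr : 0 < r) (h : ∀ z : ℂ, P.IsRoot z → ‖z‖ ^ 2 = r)
    (h2 : P.coeff (m - 2) = ((m.choose 2 : ℕ) : ℂ) * r) :
    P.coeff (m - 1) ^ 2 = (m : ℂ) ^ 2 * r := by
  obtain ⟨α, hα, hroot⟩ := exists_roots P hP m hd
  have hn : ∀ i, ‖α i‖ ^ 2 = r := fun i => h _ (hroot i)
  obtain ⟨-, c1, c2⟩ := coeffs α (Finset.univ : Finset (Fin m))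
  rw [Finset.card_univ, Fintype.card_fin, ← hα] at c1 c2
  have e1 := c1 (m - 1) (by omega)
  have e2 := c2 (m - 2) (by omega)
  rw [h2] at e2
  have hch : 2 * ((m.choose 2 : ℕ) : ℂ) = (m : ℂ) * ((m : ℂ) - 1) := by
    rw [Nat.cast_choose_two]; ring
  -- the off-diagonal sum
  have hoff : ∑ p ∈ (Finset.univ : Finset (Fin m)).offDiag, α p.1 * α p.2
      = (m : ℂ) * ((m : ℂ) - 1) * r := by
    have : ∑ p ∈ (Finset.univ : Finset (Fin m)) ×ˢ Finset.univ, α p.1 * α p.2
        = ∑ p ∈ (Finset.univ : Finset (Fin m)).diag, α p.1 * α p.2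
          + ∑ p ∈ (Finset.univ : Finset (Fin m)).offDiag, α p.1 * α p.2 := by
      rw [← Finset.sum_union (Finset.disjoint_diag_offDiag _), Finset.diag_union_offDiag]
    have hd1 : ∑ p ∈ (Finset.univ : Finset (Fin m)).diag, α p.1 * α p.2 = ∑ i, α i ^ 2 := by
      rw [Finset.sum_diag]
      exact Finset.sum_congr rfl (fun i _ => by ring)
    have hp1 : ∑ p ∈ (Finset.univ : Finset (Fin m)) ×ˢ Finset.univ, α p.1 * α p.2
        = (∑ i, α i) ^ 2 := by
      rw [sq, Finset.sum_mul_sum, Finset.sum_product]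
    rw [hd1, hp1] at this
    have : ∑ p ∈ (Finset.univ : Finset (Fin m)).offDiag, α p.1 * α p.2
        = (∑ i, α i) ^ 2 - ∑ i, α i ^ 2 := by rw [this]; ring
    rw [this, ← e2, ← hch]; ring
  have hcard : ((Finset.univ : Finset (Fin m)).offDiag.card : ℝ) = (m : ℝ) * ((m : ℝ) - 1) := by
    rw [Finset.offDiag_card, Finset.card_univ, Fintype.card_fin]
    rw [Nat.cast_sub (Nat.le_mul_self m)]
    push_cast; ring
  have hzero : ∑ p ∈ (Finset.univ : Finset (Fin m)).offDiag, Complex.normSq (α p.1 * α p.2 - r)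
      = 0 := by
    have hterm : ∀ p ∈ (Finset.univ : Finset (Fin m)).offDiag,
        Complex.normSq (α p.1 * α p.2 - r) = 2 * r ^ 2 - 2 * r * (α p.1 * α p.2).re := by
      intro p _
      have hns : Complex.normSq (α p.1 * α p.2) = r ^ 2 := by
        rw [Complex.normSq_mul, Complex.normSq_eq_norm_sq, Complex.normSq_eq_norm_sq, hn, hn]; ring
      rw [Complex.normSq_sub, hns, Complex.normSq_ofReal, Complex.conj_ofReal,
        Complex.re_mul_ofReal]
      ring
    rw [Finset.sum_congr rfl hterm, Finset.sum_sub_distrib, Finset.sum_const, nsmul_eq_mul, hcard,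
      ← Finset.mul_sum, ← Complex.re_sum, hoff]
    have : (((m : ℂ) * ((m : ℂ) - 1) * r)).re = (m : ℝ) * ((m : ℝ) - 1) * r := by
      have : ((m : ℂ) * ((m : ℂ) - 1) * r) = (((m : ℝ) * ((m : ℝ) - 1) * r : ℝ) : ℂ) := by
        push_cast; ring
      rw [this, Complex.ofReal_re]
    rw [this]; ring
  have hall : ∀ i j, i ≠ j → α i * α j = r := by
    intro i j hij
    have := (Finset.sum_eq_zero_iff_of_nonneg (fun p _ => Complex.normSq_nonneg _)).1 hzero (i, j)
      (by simp [Finset.mem_offDiag, hij])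
    have := Complex.normSq_eq_zero.1 this
    exact sub_eq_zero.1 this
  have hne : ∀ i, α i ≠ 0 := by
    intro i h0
    have := hn i
    rw [h0] at this
    simp at this
    linarith
  have heq : ∀ i j, α i = α j := by
    intro i j
    by_cases hij : i = j
    · rw [hij]
    · obtain ⟨k, hk⟩ : ∃ k : Fin m, k ∉ ({i, j} : Finset (Fin m)) := by
        by_contra hcon
        push Not at hcon
        have : (Finset.univ : Finset (Fin m)).card ≤ ({i, j} : Finset (Fin m)).card :=
          Finset.card_le_card (fun x _ => hcon x)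
        rw [Finset.card_univ, Fintype.card_fin] at this
        have := this.trans (Finset.card_le_two)
        omega
      simp only [Finset.mem_insert, Finset.mem_singleton, not_or] at hk
      have h1 := hall i k (Ne.symm hk.1)
      have h2 := hall j k (Ne.symm hk.2)
      exact mul_right_cancel₀ (hne k) (h1.trans h2.symm)
  let i0 : Fin m := ⟨0, by omega⟩
  let i1 : Fin m := ⟨1, by omega⟩
  have hsq : α i0 ^ 2 = r := by
    have := hall i0 i1 (by simp [i0, i1])
    rw [heq i1 i0] at this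
    rw [sq]; exact this
  have hsum : ∑ i, α i = (m : ℂ) * α i0 := by
    rw [Finset.sum_congr rfl (fun i _ => heq i i0), Finset.sum_const, Finset.card_univ,
      Fintype.card_fin, nsmul_eq_mul]
  rw [e1, hsum, ← hsq]; ring

theorem cx_lin (P : ℂ[X]) (hP : P.Monic) (m : ℕ) (hd : P.natDegree = m) (hm : 1 ≤ m) (r : ℝ)
    (hr : 0 ≤ r) (h : ∀ z : ℂ, P.IsRoot z → ‖z‖ = r) (h1 : P.coeff (m - 1) = -(m : ℂ) * r) :
    P = (X - C (r : ℂ)) ^ m := by
  obtain ⟨α, hα, hroot⟩ := exists_roots P hP m hd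
  have hn : ∀ i, ‖α i‖ = r := fun i => h _ (hroot i)
  obtain ⟨-, c1, -⟩ := coeffs α (Finset.univ : Finset (Fin m))
  rw [Finset.card_univ, Fintype.card_fin, ← hα] at c1
  have e1 := c1 (m - 1) (by omega)
  have hsum : ∑ i, α i = (m : ℂ) * r := by
    rw [h1] at e1; linear_combination e1
  have hzero : ∑ i, Complex.normSq (α i - r) = 0 := by
    have hterm : ∀ i ∈ (Finset.univ : Finset (Fin m)),
        Complex.normSq (α i - r) = 2 * r ^ 2 - 2 * r * (α i).re := by
      intro i _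
      have hns : Complex.normSq (α i) = r ^ 2 := by
        rw [Complex.normSq_eq_norm_sq, hn]
      rw [Complex.normSq_sub, hns, Complex.normSq_ofReal, Complex.conj_ofReal,
        Complex.re_mul_ofReal]
      ring
    rw [Finset.sum_congr rfl hterm, Finset.sum_sub_distrib, Finset.sum_const, nsmul_eq_mul,
      Finset.card_univ, Fintype.card_fin, ← Finset.mul_sum, ← Complex.re_sum, hsum]
    have : ((m : ℂ) * r).re = (m : ℝ) * r := by
      have : ((m : ℂ) * r) = (((m : ℝ) * r : ℝ) : ℂ) := by push_cast; ring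
      rw [this, Complex.ofReal_re]
    rw [this]; ring
  have hall : ∀ i, α i = r := by
    intro i
    have := (Finset.sum_eq_zero_iff_of_nonneg (fun p _ => Complex.normSq_nonneg _)).1 hzero i
      (Finset.mem_univ _)
    exact sub_eq_zero.1 (Complex.normSq_eq_zero.1 this)
  rw [hα, Finset.prod_congr rfl (fun i _ => by rw [hall i]), Finset.prod_const, Finset.card_univ,
    Fintype.card_fin]

theorem cx_all (P : ℂ[X]) (hP : P.Monic) (m : ℕ) (hd : P.natDegree = m) (hm : 1 ≤ m) (r : ℝ)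
    (hr : 0 ≤ r) (h : ∀ z : ℂ, P.IsRoot z → ‖z‖ ^ 2 = r)
    (h1 : ‖P.coeff (m - 1)‖ ^ 2 = (m : ℝ) ^ 2 * r) :
    (m : ℂ) ^ m * P.coeff 0 = P.coeff (m - 1) ^ m := by
  obtain ⟨α, hα, hroot⟩ := exists_roots P hP m hd
  have hn : ∀ i, ‖α i‖ ^ 2 = r := fun i => h _ (hroot i)
  obtain ⟨-, c1, -⟩ := coeffs α (Finset.univ : Finset (Fin m))
  rw [Finset.card_univ, Fintype.card_fin, ← hα] at c1
  have e1 := c1 (m - 1) (by omega)
  have hS : Complex.normSq (∑ i, α i) = (m : ℝ) ^ 2 * r := by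
    rw [e1, norm_neg] at h1
    rw [Complex.normSq_eq_norm_sq, h1]
  have hzero : ∑ i, ∑ j, Complex.normSq (α i - α j) = 0 := by
    have hterm : ∀ i j, Complex.normSq (α i - α j)
        = 2 * r - 2 * (α i * (starRingEnd ℂ) (α j)).re := by
      intro i j
      rw [Complex.normSq_sub, Complex.normSq_eq_norm_sq, Complex.normSq_eq_norm_sq, hn, hn]
      ring
    simp only [hterm, Finset.sum_sub_distrib, Finset.sum_const, nsmul_eq_mul,
      Finset.card_univ, Fintype.card_fin, ← Finset.mul_sum, ← Complex.re_sum]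
    have : (∑ i, α i * ∑ j, (starRingEnd ℂ) (α j)) = ((Complex.normSq (∑ i, α i) : ℝ) : ℂ) := by
      rw [← Finset.sum_mul, ← map_sum, Complex.mul_conj]
    rw [this, Complex.ofReal_re, hS]
    ring
  let i0 : Fin m := ⟨0, by omega⟩
  have hall : ∀ i, α i = α i0 := by
    intro i
    have h3 := (Finset.sum_eq_zero_iff_of_nonneg
      (fun p _ => Finset.sum_nonneg (fun q _ => Complex.normSq_nonneg _))).1 hzero i
      (Finset.mem_univ _)
    have h4 := (Finset.sum_eq_zero_iff_of_nonneg (fun p _ => Complex.normSq_nonneg _)).1 h3 i0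
      (Finset.mem_univ _)
    exact sub_eq_zero.1 (Complex.normSq_eq_zero.1 h4)
  have hsum : ∑ i, α i = (m : ℂ) * α i0 := by
    rw [Finset.sum_congr rfl (fun i _ => hall i), Finset.sum_const, Finset.card_univ,
      Fintype.card_fin, nsmul_eq_mul]
  have hc0 : P.coeff 0 = (- α i0) ^ m := by
    rw [hα, coeff_zero, Finset.prod_congr rfl (fun i _ => by rw [hall i]), Finset.prod_const,
      Finset.card_univ, Fintype.card_fin]
  rw [hc0, e1, hsum, ← mul_pow]
  congr 1
  ring

theorem cx_dual (P : ℂ[X]) (hP : P.Monic) (hd : P.natDegree = 4) (r : ℝ)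
    (hr : 0 < r) (h : ∀ z : ℂ, P.IsRoot z → ‖z‖ ^ 2 = r) :
    (starRingEnd ℂ) (P.coeff 2) * P.coeff 0 = (r : ℂ) ^ 2 * P.coeff 2 := by
  obtain ⟨α, hα, hroot⟩ := exists_roots P hP 4 hd
  have hn : ∀ i, α i * (starRingEnd ℂ) (α i) = r := by
    intro i
    rw [Complex.mul_conj, Complex.normSq_eq_norm_sq, h _ (hroot i)]
  have c0 : P.coeff 0 = α 0 * α 1 * α 2 * α 3 := by
    rw [hα, coeff_zero]
    simp [Fin.prod_univ_succ]
    ring
  have c2 : P.coeff 2 = α 0 * α 1 + α 0 * α 2 + α 0 * α 3 + α 1 * α 2 + α 1 * α 3 + α 2 * α 3 := by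
    obtain ⟨-, -, c2⟩ := coeffs α (Finset.univ : Finset (Fin 4))
    rw [Finset.card_univ, Fintype.card_fin, ← hα] at c2
    have := c2 2 rfl
    simp only [Fin.sum_univ_four] at this
    linear_combination this / 2
  have h0 := hn 0
  have h1 := hn 1
  have h2 := hn 2
  have h3 := hn 3
  rw [c0, c2]
  simp only [map_add, map_mul]
  generalize (starRingEnd ℂ) (α 0) = a at *
  generalize (starRingEnd ℂ) (α 1) = b at *
  generalize (starRingEnd ℂ) (α 2) = c at *
  generalize (starRingEnd ℂ) (α 3) = d at *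
  linear_combination (α 1 * b * (α 2 * α 3) + α 2 * c * (α 1 * α 3) + α 3 * d * (α 1 * α 2)) * h0
    + (r * (α 2 * α 3)) * h1 + (r * (α 1 * α 3)) * h2 + (r * (α 1 * α 2)) * h3
    + (α 2 * c * (α 0 * α 3) + α 3 * d * (α 0 * α 2)) * h1
    + (r * (α 0 * α 3)) * h2 + (r * (α 0 * α 2)) * h3
    + (α 3 * d * (α 0 * α 1)) * h2 + (r * (α 0 * α 1)) * h3

end Pool.Agent.H7.OR
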