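import Pool.Agent.H7.OR.Defs
set_option autoImplicit false

namespace Pool.Agent.H7.OR

open NumberField

/-- integers in a proper ideal containing the prime `p` are divisible by `p` -/
theorem in_int {R : Type} [CommRing R] (Q : Ideal R) (hQ : Q ≠ ⊤) (p : ℕ) (hp : p.Prime)
    (hpQ : (p : R) ∈ Q) (n : ℤ) (hn : (n : R) ∈ Q) : (p : ℤ) ∣ n := by
  by_contra h
  have hc : IsCoprime (p : ℤ) n := (Nat.prime_iff_prime_int.1 hp).coprime_iff_not_dvd.2 h
  obtain ⟨a, b, hab⟩ := hc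
  apply hQ
  rw [Ideal.eq_top_iff_one]
  have h1 : ((a : ℤ) : R) * (p : R) + (b : R) * (n : R) = 1 := by
    have := congrArg (Int.cast : ℤ → R) hab
    push_cast at this
    exact this
  rw [← h1]
  exact Q.add_mem (Q.mul_mem_left _ hpQ) (Q.mul_mem_left _ hn)

theorem in_norm {L : Type} [Field L] [NumberField L] (Q : Ideal (𝓞 L)) (hQ : Q ≠ ⊤) (p : ℕ)
    (hp : p.Prime) (hpQ : (p : 𝓞 L) ∈ Q) (d : 𝓞 L) (hd : d ∈ Q) : (p : ℤ) ∣ Algebra.norm ℤ d := by
  refine dvd_trans ?_ (Ideal.absNorm_dvd_norm_of_mem hd)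
  apply in_int Q hQ p hp hpQ
  have := Ideal.absNorm_mem Q
  exact_mod_cast this

/-- the norm is the product over the embeddings into `L` -/
theorem in_prod {L : Type} [Field L] [NumberField L] (F : Type) [Field F] [NumberField F]
    (hF : Nat.card (F →+* L) = Module.finrank ℚ F) [Fintype (F →+* L)] (x : 𝓞 F) :
    ((Algebra.norm ℤ x : ℤ) : 𝓞 L) = ∏ i : F →+* L, RingOfIntegers.mapRingHom i x := by
  set A := AlgebraicClosure L with hA
  set c : (F →+* L) → (F →ₐ[ℚ] A) := fun i => ((algebraMap L A).comp i).toRatAlgHom with hc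
  have hcinj : Function.Injective c := by
    intro i j hij
    ext y
    have h1 : c i y = c j y := by rw [hij]
    exact (algebraMap L A).injective h1
  have hbij : Function.Bijective c := by
    rw [Fintype.bijective_iff_injective_and_card]
    refine ⟨hcinj, ?_⟩
    rw [AlgHom.card ℚ F A, ← hF, Nat.card_eq_fintype_card]
  have h1 := Algebra.norm_eq_prod_embeddings ℚ A (x : F)
  have h2 : ∏ σ : F →ₐ[ℚ] A, σ (x : F) = ∏ i : F →+* L, algebraMap L A (i (x : F)) :=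
    (Fintype.prod_bijective c hbij _ _ (fun i => rfl)).symm
  rw [h2, ← map_prod] at h1
  have h3 : (algebraMap ℚ A) (Algebra.norm ℚ (x : F)) = algebraMap L A ((Algebra.norm ℤ x : ℤ) : L) := by
    rw [← Algebra.coe_norm_int]
    simp
  rw [h3] at h1
  have h4 := (algebraMap L A).injective h1
  apply RingOfIntegers.coe_injective
  rw [map_prod]
  rw [map_intCast]
  rw [h4]
  rfl

/-- every prime above `p` is the preimage of `Q` under some embedding -/
theorem in_emb {L : Type} [Field L] [NumberField L] (F : Type) [Field F] [NumberField F]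
    (hF : Nat.card (F →+* L) = Module.finrank ℚ F) (p : ℕ) (hp : p.Prime) (Q : Ideal (𝓞 L))
    (hQ : Q.IsPrime) (hpQ : (p : 𝓞 L) ∈ Q) (𝔭 : Ideal (𝓞 F)) (h𝔭 : 𝔭.IsPrime)
    (hp𝔭 : (p : 𝓞 F) ∈ 𝔭) : ∃ i : F →+* L, 𝔭 ≤ Q.comap (RingOfIntegers.mapRingHom i) := by
  classical
  have hfin : Finite (F →+* L) := by
    have h0 : Module.finrank ℚ F ≠ 0 := Module.finrank_pos.ne'
    rw [← hF] at h0
    exact (Nat.card_ne_zero.1 h0).2
  let _ := Fintype.ofFinite (F →+* L)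
  by_contra hcon
  push Not at hcon
  have hav : ¬ ((𝔭 : Set (𝓞 F)) ⊆ ⋃ i ∈ (↑(Finset.univ : Finset (F →+* L)) : Set (F →+* L)),
      (Q.comap (RingOfIntegers.mapRingHom i) : Set (𝓞 F))) := by
    intro hsub
    have hne : Nonempty (F →+* L) := by
      have h0 : Module.finrank ℚ F ≠ 0 := Module.finrank_pos.ne'
      rw [← hF] at h0
      exact (Nat.card_ne_zero.1 h0).1
    obtain ⟨i0⟩ := hne
    obtain ⟨i, -, hi⟩ := (Ideal.subset_union_prime i0 i0 (fun i _ _ _ => hQ.comap _)).1 hsub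
    exact hcon i hi
  rw [Set.not_subset] at hav
  obtain ⟨x, hx, hxn⟩ := hav
  have hxi : ∀ i : F →+* L, RingOfIntegers.mapRingHom i x ∉ Q := by
    intro i hi
    apply hxn
    simp only [Finset.coe_univ, Set.mem_univ, Set.iUnion_true, Set.mem_iUnion]
    exact ⟨i, hi⟩
  have h1 : (p : ℤ) ∣ Algebra.norm ℤ x := in_norm 𝔭 h𝔭.ne_top p hp hp𝔭 x hx
  have h2 : ((Algebra.norm ℤ x : ℤ) : 𝓞 L) ∈ Q := by
    obtain ⟨c, hc⟩ := h1
    rw [hc]
    push_cast
    exact Q.mul_mem_right _ hpQ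
  rw [in_prod F hF x] at h2
  obtain ⟨i, -, hi⟩ := (hQ.prod_mem_iff).1 h2
  exact hxi i hi

theorem in_frob {L : Type} [Field L] [NumberField L] (Q : Ideal (𝓞 L)) (p : ℕ)
    (Φ : 𝓞 L →+* 𝓞 L) (hΦ : ∀ x, Φ x - x ^ p ∈ Q) (k : ℕ) (x : 𝓞 L) :
    Φ^[k] x - x ^ (p ^ k) ∈ Q := by
  induction k with
  | zero => simp
  | succ k ih =>
    rw [Function.iterate_succ_apply']
    have h1 := hΦ (Φ^[k] x)
    have h2 : (Φ^[k] x) ^ p - (x ^ (p ^ k)) ^ p ∈ Q := by
      obtain ⟨c, hc⟩ := sub_dvd_pow_sub_pow (Φ^[k] x) (x ^ (p ^ k)) p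
      rw [hc]
      exact Q.mul_mem_right _ ih
    have h3 : Φ (Φ^[k] x) - x ^ (p ^ (k + 1)) =
        (Φ (Φ^[k] x) - (Φ^[k] x) ^ p) + ((Φ^[k] x) ^ p - (x ^ (p ^ k)) ^ p) := by
      rw [← pow_mul, ← pow_succ]; ring
    rw [h3]
    exact Q.add_mem h1 h2

theorem in_orb {K F L : Type} [Field K] [Field F] [Field L] [Algebra K L]
    (φ : L ≃ₐ[K] L) (i : F →+* L) (n : ℕ) (hn : 1 ≤ n) (h : ∀ x, (φ ^ n) (i x) = i x) :
    (embOrbit φ i).ncard ≤ n := by
  classical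
  have hz : ∀ (z : ℤ) (x : F), ((φ ^ n) ^ z) (i x) = i x := by
    intro z x
    have hmem : φ ^ n ∈ MulAction.stabilizer (L ≃ₐ[K] L) (i x) := by
      rw [MulAction.mem_stabilizer_iff]; exact h x
    have := (MulAction.stabilizer (L ≃ₐ[K] L) (i x)).zpow_mem hmem z
    rw [MulAction.mem_stabilizer_iff] at this
    exact this
  have hsub : embOrbit φ i ⊆ (((Finset.range n).image
      (fun k : ℕ => ((φ ^ k : L ≃ₐ[K] L) : L →+* L).comp i) : Finset (F →+* L)) : Set (F →+* L)) := by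
    rintro j ⟨g, hg, hj⟩
    obtain ⟨z, rfl⟩ := Subgroup.mem_zpowers_iff.1 hg
    rw [Finset.coe_image]
    refine ⟨(z % n).toNat, ?_, ?_⟩
    · simp only [Finset.coe_range, Set.mem_Iio]
      have h1 := Int.emod_lt_of_pos z (by exact_mod_cast hn : (0 : ℤ) < n)
      have h2 := Int.emod_nonneg z (by positivity : (n : ℤ) ≠ 0)
      omega
    · ext x
      rw [hj x]
      have h2 := Int.emod_nonneg z (by positivity : (n : ℤ) ≠ 0)
      have h3 : φ ^ z = φ ^ (z % n).toNat * (φ ^ n) ^ (z / n) := by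
        rw [← zpow_natCast φ (z % n).toNat, ← zpow_natCast φ n, ← zpow_mul, ← zpow_add,
          Int.toNat_of_nonneg h2, Int.emod_add_mul_ediv]
      rw [h3, AlgEquiv.mul_apply, hz]
      rfl
  calc (embOrbit φ i).ncard ≤ _ := Set.ncard_le_ncard hsub (Finset.finite_toSet _)
    _ = _ := Set.ncard_coe_finset _
    _ ≤ (Finset.range n).card := Finset.card_image_le
    _ = n := Finset.card_range n

theorem in_bound {K L : Type} [Field K] [NumberField K] [Field L] [NumberField L] [Algebra K L]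
    (F : Type) [Field F] [NumberField F] (hF : Nat.card (F →+* L) = Module.finrank ℚ F) :
    ∃ Δ : ℕ, 1 ≤ Δ ∧ ∀ p : ℕ, p.Prime → ¬ p ∣ Δ → ∀ Q : Ideal (𝓞 L), Q.IsPrime → (p : 𝓞 L) ∈ Q →
      ∀ φ : L ≃ₐ[K] L, (∀ x y : 𝓞 L, (y : L) = φ x → y - x ^ p ∈ Q) →
      ∀ f : ℕ, (∀ j : F →+* L, f ≤ (embOrbit φ j).ncard) →
      ∀ 𝔭 : Ideal (𝓞 F), 𝔭.IsPrime → (p : 𝓞 F) ∈ 𝔭 → p ^ f ≤ Ideal.absNorm 𝔭 := by
  classical
  have hfin : Finite (F →+* L) := by
    have h0 : Module.finrank ℚ F ≠ 0 := Module.finrank_pos.ne'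
    rw [← hF] at h0
    exact (Nat.card_ne_zero.1 h0).2
  let _ := Fintype.ofFinite (F →+* L)
  -- separating elements
  have hsep : ∀ i j : F →+* L, ∃ x : 𝓞 F, i ≠ j →
      RingOfIntegers.mapRingHom i x ≠ RingOfIntegers.mapRingHom j x := by
    intro i j
    by_contra hcon
    push Not at hcon
    have hne := (hcon 0).1
    apply hne
    have h1 : i.comp (algebraMap (𝓞 F) F) = j.comp (algebraMap (𝓞 F) F) := by
      ext x
      have := (hcon x).2
      exact congrArg (algebraMap (𝓞 L) L) this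
    exact IsLocalization.ringHom_ext (nonZeroDivisors (𝓞 F)) h1
  choose s hs using hsep
  set pr : Finset ((F →+* L) × (F →+* L)) := Finset.univ.filter (fun x => x.1 ≠ x.2) with hpr
  set D : 𝓞 L := ∏ x ∈ pr, (RingOfIntegers.mapRingHom x.1 (s x.1 x.2) -
    RingOfIntegers.mapRingHom x.2 (s x.1 x.2)) with hD
  have hD0 : D ≠ 0 := by
    rw [hD, Finset.prod_ne_zero_iff]
    intro x hx
    rw [hpr, Finset.mem_filter] at hx
    rw [sub_ne_zero]
    exact hs x.1 x.2 hx.2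
  refine ⟨(Algebra.norm ℤ D).natAbs, ?_, ?_⟩
  · have : Algebra.norm ℤ D ≠ 0 := by
      rw [Algebra.norm_ne_zero_iff]
      exact hD0
    exact Int.natAbs_pos.2 this
  intro p hp hpΔ Q hQ hpQ φ hφ f hf 𝔭 h𝔭 hp𝔭
  obtain ⟨i, hi⟩ := in_emb F hF p hp Q hQ hpQ 𝔭 h𝔭 hp𝔭
  -- residue field
  have h𝔭0 : 𝔭 ≠ ⊥ := by
    intro h
    rw [h, Ideal.mem_bot] at hp𝔭
    exact (Nat.cast_ne_zero.2 hp.ne_zero) hp𝔭
  have hmax : 𝔭.IsMaximal := h𝔭.isMaximal h𝔭0
  let _ : Field (𝓞 F ⧸ 𝔭) := Ideal.Quotient.field 𝔭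
  have hfinq : Finite (𝓞 F ⧸ 𝔭) := Ideal.finiteQuotientOfFreeOfNeBot 𝔭 h𝔭0
  let _ := Fintype.ofFinite (𝓞 F ⧸ 𝔭)
  have hchar : CharP (𝓞 F ⧸ 𝔭) p := by
    have h1 : ((p : ℕ) : 𝓞 F ⧸ 𝔭) = 0 := by
      rw [← map_natCast (Ideal.Quotient.mk 𝔭), Ideal.Quotient.eq_zero_iff_mem]
      exact hp𝔭
    exact (CharP.charP_iff_prime_eq_zero hp).2 h1
  obtain ⟨n, -, hn⟩ := FiniteField.card (𝓞 F ⧸ 𝔭) p
  have habs : Ideal.absNorm 𝔭 = p ^ (n : ℕ) := by
    rw [← hn, Ideal.absNorm_apply, Submodule.cardQuot_apply, Nat.card_eq_fintype_card]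
  have hpow : ∀ x : 𝓞 F, x ^ (p ^ (n : ℕ)) - x ∈ 𝔭 := by
    intro x
    rw [← Ideal.Quotient.eq_zero_iff_mem, map_sub, map_pow, ← hn, FiniteField.pow_card, sub_self]
  -- Frobenius
  set Φ : 𝓞 L →+* 𝓞 L := RingOfIntegers.mapRingHom (φ : L →+* L) with hΦ
  have hΦ1 : ∀ x, Φ x - x ^ p ∈ Q := fun x => hφ x (Φ x) rfl
  have hΦk : ∀ (k : ℕ) (x : 𝓞 L), ((Φ^[k] x : 𝓞 L) : L) = (φ ^ k) (x : L) := by
    intro k
    induction k with
    | zero => intro x; simp
    | succ k ih =>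
      intro x
      rw [Function.iterate_succ_apply, ih, pow_succ, AlgEquiv.mul_apply]
      rfl
  have key : ∀ x : 𝓞 F, Φ^[(n : ℕ)] (RingOfIntegers.mapRingHom i x) - RingOfIntegers.mapRingHom i x ∈ Q := by
    intro x
    have h1 := in_frob Q p Φ hΦ1 n (RingOfIntegers.mapRingHom i x)
    have h2 : RingOfIntegers.mapRingHom i (x ^ (p ^ (n : ℕ)) - x) ∈ Q := hi (hpow x)
    rw [map_sub, map_pow] at h2
    have h3 := Q.add_mem h1 h2
    rwa [sub_add_sub_cancel] at h3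
  set i' : F →+* L := ((φ ^ (n : ℕ) : L ≃ₐ[K] L) : L →+* L).comp i with hi'
  have hi'x : ∀ x : 𝓞 F, RingOfIntegers.mapRingHom i' x = Φ^[(n : ℕ)] (RingOfIntegers.mapRingHom i x) := by
    intro x
    apply RingOfIntegers.coe_injective
    have := hΦk n (RingOfIntegers.mapRingHom i x)
    exact Eq.trans rfl this.symm
  have hii : i' = i := by
    by_contra hne
    apply hpΔ
    have h1 : D ∈ Q := by
      have hmem : ((i', i) : (F →+* L) × (F →+* L)) ∈ pr := by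
        rw [hpr, Finset.mem_filter]
        exact ⟨Finset.mem_univ _, hne⟩
      obtain ⟨c, hc⟩ := Finset.dvd_prod_of_mem (fun x : (F →+* L) × (F →+* L) =>
        (RingOfIntegers.mapRingHom x.1 (s x.1 x.2) - RingOfIntegers.mapRingHom x.2 (s x.1 x.2))) hmem
      rw [hD, hc]
      apply Q.mul_mem_right
      change RingOfIntegers.mapRingHom i' (s i' i) - RingOfIntegers.mapRingHom i (s i' i) ∈ Q
      rw [hi'x]
      exact key _
    have h2 := in_norm Q hQ.ne_top p hp hpQ D h1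
    exact Int.natCast_dvd.1 h2
  have hfix : ∀ x, (φ ^ (n : ℕ)) (i x) = i x := by
    intro x
    have := congrArg (fun g : F →+* L => g x) hii
    exact this
  have horb := in_orb φ i n n.pos hfix
  rw [habs]
  exact Nat.pow_le_pow_right hp.pos ((hf i).trans horb)

end Pool.Agent.H7.OR
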