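import Mathlib

/-! Unramified primes: `(p)` is the intersection of the primes above `p`.

Proof of `un_exists`: `Δ := |NumberField.discr F|`.  For `p ∤ Δ` all primes `𝔭 ∋ p` are unramified
(`NumberField.not_dvd_discr_iff_forall_mem`), so have ramification index one
(Mathlib/RingTheory/RamificationInertia/Ramification.lean), i.e. `p ∉ 𝔭^2`.  If `x` lies in all `𝔭 ∋ p`,
then in the factorisation of ideals every prime factor `𝔭` of `(p)` occurs once and divides `(x)`, so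
`(p) ∣ (x)` (e.g. `(p)` is squarefree, hence radical: `Ideal.isRadical...`, and the radical is the
intersection of the primes containing it, `Ideal.radical_eq_sInf`).
Alternative for the first part: trace form and an integral basis.
Proof of `un_sq`: take a prime `𝔭 ∋ p` (`p` is not a unit); `y^2 ∈ 𝔭`, so `y ∈ 𝔭`, `y^2 ∈ 𝔭^2`,
`m^2 p ∈ 𝔭^2`; `a m^2 + b p = 1` in `ℤ`, so `p = a m^2 p + b p^2 ∈ 𝔭^2`, contradiction. -/

set_option autoImplicit false

namespace Pool.Agent.H7.OR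

open NumberField

theorem Un_sqf (F : Type) [Field F] [NumberField F] (p : ℕ) (hp : p.Prime)
    (hd : ¬ p ∣ (discr F).natAbs) : Squarefree (Ideal.span {(p : 𝓞 F)}) := by
  classical
  have hpZ : Prime (p : ℤ) := Nat.prime_iff_prime_int.1 hp
  have hd' : ¬ (p : ℤ) ∣ discr F := by
    intro h
    exact hd (Int.natCast_dvd.1 h)
  have hp0 : (Ideal.span {(p : 𝓞 F)}) ≠ ⊥ := by
    rw [Ne, Ideal.span_singleton_eq_bot]
    exact_mod_cast hp.ne_zero
  have hun := (NumberField.not_dvd_discr_iff_forall_mem F (𝓞 F) hpZ).1 hd'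
  rw [UniqueFactorizationMonoid.squarefree_iff_nodup_normalizedFactors hp0,
    Multiset.nodup_iff_count_le_one]
  intro P
  by_cases hP : P ∈ UniqueFactorizationMonoid.normalizedFactors (Ideal.span {(p : 𝓞 F)})
  · have hPp : Prime P := UniqueFactorizationMonoid.prime_of_normalized_factor P hP
    have hPi : P.IsPrime := Ideal.isPrime_of_prime hPp
    have hdvd := UniqueFactorizationMonoid.dvd_of_mem_normalizedFactors hP
    have hmem : (p : 𝓞 F) ∈ P := by
      rw [Ideal.dvd_span_singleton] at hdvd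
      exact hdvd
    have hmem' : ((p : ℤ) : 𝓞 F) ∈ P := by exact_mod_cast hmem
    have hu := hun P hPi hmem'
    have h1 : P.ramificationIdx ℤ = 1 := Ideal.ramificationIdx_eq_one P ℤ
    have hlo : P.LiesOver (Ideal.span {(p : ℤ)}) :=
      (Ideal.liesOver_span_iff hPi.ne_top hpZ).mpr hmem'
    have hmap : (Ideal.span {(p : ℤ)}).map (algebraMap ℤ (𝓞 F)) = Ideal.span {(p : 𝓞 F)} := by
      rw [Ideal.map_span, Set.image_singleton]
      simp
    have h2 := Ideal.IsDedekindDomain.ramificationIdx_eq_normalizedFactors_count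
      (Ideal.span {(p : ℤ)}) P (by rw [hmap]; exact hp0)
    rw [hmap, h1] at h2
    exact h2.symm.le
  · rw [Multiset.count_eq_zero.2 hP]
    exact zero_le_one

theorem un_exists (F : Type) [Field F] [NumberField F] :
    ∃ Δ : ℕ, 1 ≤ Δ ∧ ∀ p : ℕ, p.Prime → ¬ p ∣ Δ →
      (∀ x : 𝓞 F, (∀ 𝔭 : Ideal (𝓞 F), 𝔭.IsPrime → (p : 𝓞 F) ∈ 𝔭 → x ∈ 𝔭) → (p : 𝓞 F) ∣ x) ∧
      (∀ 𝔭 : Ideal (𝓞 F), 𝔭.IsPrime → (p : 𝓞 F) ∈ 𝔭 → (p : 𝓞 F) ∉ 𝔭 ^ 2) := by
  refine ⟨(discr F).natAbs, ?_, ?_⟩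
  · exact Nat.one_le_iff_ne_zero.2 (Int.natAbs_ne_zero.2 (discr_ne_zero F))
  intro p hp hd
  have hsq := Un_sqf F p hp hd
  refine ⟨?_, ?_⟩
  · intro x hx
    have h1 : x ∈ (Ideal.span {(p : 𝓞 F)}).radical := by
      rw [Ideal.radical_eq_sInf, Ideal.mem_sInf]
      rintro J ⟨hJ1, hJ2⟩
      exact hx J hJ2 (hJ1 (Ideal.mem_span_singleton_self _))
    obtain ⟨n, hn⟩ := h1
    have h2 : Ideal.span {(p : 𝓞 F)} ∣ Ideal.span {x} ^ n := by
      rw [Ideal.span_singleton_pow, Ideal.dvd_iff_le, Ideal.span_singleton_le_iff_mem]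
      exact hn
    have h3 := hsq.isRadical n _ h2
    rw [Ideal.dvd_iff_le, Ideal.span_singleton_le_iff_mem, Ideal.mem_span_singleton] at h3
    exact h3
  · intro P hP hmem hmem2
    have h1 : P * P ∣ Ideal.span {(p : 𝓞 F)} := by
      rw [Ideal.dvd_iff_le, Ideal.span_singleton_le_iff_mem, ← pow_two]
      exact hmem2
    have h2 := hsq P h1
    exact hP.ne_top (Ideal.isUnit_iff.1 h2)

theorem un_sq (F : Type) [Field F] [NumberField F] (p m : ℕ) (hp : p.Prime) (hm : ¬ p ∣ m)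
    (hram : ∀ 𝔭 : Ideal (𝓞 F), 𝔭.IsPrime → (p : 𝓞 F) ∈ 𝔭 → (p : 𝓞 F) ∉ 𝔭 ^ 2)
    (y : 𝓞 F) (h : y ^ 2 = (m : 𝓞 F) ^ 2 * p) : False := by
  have hpZ : Prime (p : ℤ) := Nat.prime_iff_prime_int.1 hp
  have hmax : (Ideal.span {(p : ℤ)}).IsMaximal := by
    have : (Ideal.span {(p : ℤ)}).IsPrime :=
      (Ideal.span_singleton_prime hpZ.ne_zero).2 hpZ
    exact this.isMaximal (by rw [Ne, Ideal.span_singleton_eq_bot]; exact hpZ.ne_zero)
  obtain ⟨P, hP, hlo⟩ := Ideal.exists_maximal_ideal_liesOver_of_isIntegral (S := 𝓞 F)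
    (Ideal.span {(p : ℤ)})
  have hPi : P.IsPrime := hP.isPrime
  have hmem : (p : 𝓞 F) ∈ P := by
    have h1 : ((p : ℤ)) ∈ P.under ℤ := by
      rw [← hlo.over]
      exact Ideal.mem_span_singleton_self _
    have h2 := (Ideal.mem_comap.1 h1)
    simpa using h2
  apply hram P hPi hmem
  have hy : y ∈ P := by
    apply hPi.mem_of_pow_mem 2
    rw [h]
    exact Ideal.mul_mem_left _ _ hmem
  have hy2 : (m : 𝓞 F) ^ 2 * p ∈ P ^ 2 := by
    rw [← h]
    exact Ideal.pow_mem_pow hy 2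
  have hcop : IsCoprime ((m : ℤ) ^ 2) (p : ℤ) := by
    have : Nat.Coprime m p := ((Nat.Prime.coprime_iff_not_dvd hp).2 hm).symm
    have h3 : IsCoprime (m : ℤ) (p : ℤ) := Nat.isCoprime_iff_coprime.2 this
    exact h3.pow_left
  obtain ⟨a, b, hab⟩ := hcop
  have hab' : (a : 𝓞 F) * (m : 𝓞 F) ^ 2 + (b : 𝓞 F) * p = 1 := by
    exact_mod_cast congrArg (fun z : ℤ => (z : 𝓞 F)) hab
  have he : (p : 𝓞 F) = a * ((m : 𝓞 F) ^ 2 * p) + b * ((p : 𝓞 F) ^ 2) := by
    calc (p : 𝓞 F) = ((a : 𝓞 F) * (m : 𝓞 F) ^ 2 + (b : 𝓞 F) * p) * p := by rw [hab', one_mul]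
      _ = _ := by ring
  rw [he]
  exact Ideal.add_mem _ (Ideal.mul_mem_left _ _ hy2)
    (Ideal.mul_mem_left _ _ (Ideal.pow_mem_pow hmem 2))

/-- a primes-avoiding statement used for the level structure: an algebraic integer divisible by `N`
all of whose conjugates are smaller than `N` is zero (`x = N y`, the norm of `y` is an integer which
is the product of the conjugates, all of absolute value `< 1`). -/
theorem un_small (F : Type) [Field F] [NumberField F] (N : ℕ) (x : 𝓞 F) (hx : (N : 𝓞 F) ∣ x)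
    (h : ∀ τ : F →+* ℂ, ‖τ (x : F)‖ < N) : x = 0 := by
  classical
  obtain ⟨y, rfl⟩ := hx
  rcases Nat.eq_zero_or_pos N with hN | hN
  · subst hN; simp
  have hNr : (0 : ℝ) < N := by exact_mod_cast hN
  have hy : ∀ τ : F →+* ℂ, ‖τ (y : F)‖ < 1 := by
    intro τ
    have h1 := h τ
    have h2 : (((N : 𝓞 F) * y : 𝓞 F) : F) = (N : F) * (y : F) := by push_cast; rfl
    rw [h2, map_mul, map_natCast, norm_mul, Complex.norm_natCast] at h1
    by_contra hcon
    push Not at hcon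
    nlinarith
  have hnorm := Algebra.norm_eq_prod_embeddings ℚ ℂ (y : F)
  have hlt : ‖(algebraMap ℚ ℂ) ((Algebra.norm ℚ) (y : F))‖ < 1 := by
    rw [hnorm, norm_prod]
    have hcard : 0 < Fintype.card (F →ₐ[ℚ] ℂ) := by
      rw [AlgHom.card]
      exact Module.finrank_pos
    obtain ⟨τ0⟩ := Fintype.card_pos_iff.1 hcard
    rw [← Finset.mul_prod_erase Finset.univ _ (Finset.mem_univ τ0)]
    have h1 : ‖τ0 (y : F)‖ < 1 := hy τ0.toRingHom
    have h2 : ∏ τ ∈ Finset.univ.erase τ0, ‖τ (y : F)‖ ≤ 1 :=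
      Finset.prod_le_one (fun τ _ => norm_nonneg _) (fun τ _ => (hy τ.toRingHom).le)
    have h3 : 0 ≤ ∏ τ ∈ Finset.univ.erase τ0, ‖τ (y : F)‖ :=
      Finset.prod_nonneg (fun τ _ => norm_nonneg _)
    nlinarith [norm_nonneg (τ0 (y : F))]
  have hint : ((Algebra.norm ℤ y : ℤ) : ℚ) = Algebra.norm ℚ (y : F) := by
    have := Algebra.coe_norm_int y
    simpa using this
  rw [← hint] at hlt
  have h4 : ((Algebra.norm ℤ y : ℤ) : ℝ) = 0 ∨ Algebra.norm ℤ y = 0 := by
    right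
    have h5 : |((Algebra.norm ℤ y : ℤ) : ℝ)| < 1 := by
      have h6 : (algebraMap ℚ ℂ) ((Algebra.norm ℤ y : ℤ) : ℚ) = (((Algebra.norm ℤ y : ℤ) : ℝ) : ℂ) := by
        simp
      rw [h6, Complex.norm_real, Real.norm_eq_abs] at hlt
      exact hlt
    have h7 : |Algebra.norm ℤ y| < 1 := by exact_mod_cast h5
    exact Int.abs_lt_one_iff.1 h7
  have h8 : Algebra.norm ℤ y = 0 := by
    rcases h4 with h4 | h4
    · exact_mod_cast h4
    · exact h4
  rw [Algebra.norm_eq_zero_iff] at h8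
  rw [h8, mul_zero]

end Pool.Agent.H7.OR
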