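import Pool.Agent.H7.OR.Up
import Pool.Agent.H7.OR.In
import Pool.Agent.H7.OR.Un
import Pool.Agent.H7.OR.Cx

/-! Common steps of the final theorems. -/

set_option autoImplicit false

namespace Pool.Agent.H7.OR

open Polynomial NumberField IsDedekindDomain

theorem base_mono {K : Type} [Field K] [NumberField K] {A B : Set (HeightOneSpectrum (𝓞 K))}
    (h : ∀ v ∈ A, v ∈ B) (hA : PosDensity A) : PosDensity B := by
  obtain ⟨c, hc, h1⟩ := hA
  refine ⟨c, hc, h1.mono fun x hx => hx.trans ?_⟩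
  have hfin : {v : HeightOneSpectrum (𝓞 K) | v ∈ B ∧ (plNorm v : ℝ) ≤ x}.Finite :=
    (pl_finite K x).subset fun v hv => hv.2
  have hsub : {v : HeightOneSpectrum (𝓞 K) | v ∈ A ∧ (plNorm v : ℝ) ≤ x} ⊆
      {v : HeightOneSpectrum (𝓞 K) | v ∈ B ∧ (plNorm v : ℝ) ≤ x} :=
    fun v hv => ⟨h v hv.1, hv.2⟩
  exact_mod_cast Set.ncard_le_ncard hsub hfin

theorem base_coeff (P : ℂ[X]) (hP : P.Monic) (r : ℝ) (h : ∀ z : ℂ, P.IsRoot z → ‖z‖ ≤ r) (i : ℕ) :
    ‖P.coeff i‖ ≤ r ^ (P.natDegree - i) * (P.natDegree.choose i : ℕ) := by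
  have h1 := coeff_le_of_roots_le (p := P) (f := RingHom.id ℂ) (B := r) i hP
    (IsAlgClosed.splits _) (fun z hz => h z (by
      rw [Polynomial.map_id] at hz
      exact (mem_roots'.1 hz).2))
  rwa [Polynomial.map_id] at h1

/-- `τ` applied to the coefficients -/
noncomputable def tmap {F : Type} [Field F] [NumberField F] (τ : F →+* ℂ) (P : (𝓞 F)[X]) : ℂ[X] :=
  P.map (τ.comp (algebraMap (𝓞 F) F))

theorem tmap_coeff {F : Type} [Field F] [NumberField F] (τ : F →+* ℂ) (P : (𝓞 F)[X]) (i : ℕ) :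
    (tmap τ P).coeff i = τ ((P.coeff i : 𝓞 F) : F) := by
  simp [tmap]

theorem base_prime_mem {K L : Type} [Field K] [NumberField K] [Field L] [NumberField L]
    [Algebra K L] {v : HeightOneSpectrum (𝓞 K)} {Q : Ideal (𝓞 L)} {φ : L ≃ₐ[K] L}
    (h : IsFrob v Q φ) : ((plNorm v : ℕ) : 𝓞 L) ∈ Q := by
  obtain ⟨b, hb, hb'⟩ := (h.2.1 (plNorm v : 𝓞 K)).1 (Ideal.absNorm_mem _)
  have : b = ((plNorm v : ℕ) : 𝓞 L) := by
    apply RingOfIntegers.ext
    rw [hb']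
    simp
  rwa [this] at hb

theorem base_bad {K : Type} [Field K] [NumberField K] (S : Set (HeightOneSpectrum (𝓞 K)))
    (hS : S.Finite) (n : ℕ) :
    (S ∪ {v : HeightOneSpectrum (𝓞 K) | (plNorm v : ℝ) ≤ n}).Finite :=
  hS.union (pl_finite K n)

theorem base_not_dvd {p n d : ℕ} (hn : 1 ≤ n) (hd : d ∣ n) (hp : ¬ ((p : ℝ) ≤ n)) : ¬ p ∣ d := by
  intro h
  apply hp
  exact_mod_cast Nat.le_of_dvd (by omega) (h.trans hd)

end Pool.Agent.H7.OR
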