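import Pool.Agent.H7.OR.Fr2

set_option autoImplicit false

open Polynomial NumberField IsDedekindDomain

namespace Pool.Agent.H7.OR

/-- elements `y` with `y = y ^ p` modulo `Q` are congruent to integers -/
theorem sp_int {R : Type} [CommRing R] (Q : Ideal R) (hQ : Q.IsPrime) (p : ℕ) (hp : p.Prime)
    (hpQ : (p : R) ∈ Q) (y : R) (h : y - y ^ p ∈ Q) : ∃ n : ℤ, y - n ∈ Q := by
  classical
  have hfact : Fact p.Prime := ⟨hp⟩
  have hdom : IsDomain (R ⧸ Q) := Ideal.Quotient.isDomain Q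
  have hchar : CharP (R ⧸ Q) p := (CharP.charP_iff_prime_eq_zero hp).2 (by
    rw [← map_natCast (Ideal.Quotient.mk Q), Ideal.Quotient.eq_zero_iff_mem]
    exact hpQ)
  let _ : Algebra (ZMod p) (R ⧸ Q) := ZMod.algebra _ p
  set g : (R ⧸ Q)[X] := X ^ p - X with hg
  have hgd : g.natDegree = p := by
    rw [hg, natDegree_sub_eq_left_of_natDegree_lt]
    · rw [natDegree_X_pow]
    · rw [natDegree_X_pow, natDegree_X]
      exact hp.one_lt
  have hg0 : g ≠ 0 := by
    intro h0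
    rw [h0, natDegree_zero] at hgd
    exact hp.ne_zero hgd.symm
  have hinj : Function.Injective (algebraMap (ZMod p) (R ⧸ Q)) :=
    (algebraMap (ZMod p) (R ⧸ Q)).injective
  have hsub : (Finset.univ : Finset (ZMod p)).image (algebraMap (ZMod p) (R ⧸ Q)) ⊆
      g.roots.toFinset := by
    intro t ht
    obtain ⟨a, -, rfl⟩ := Finset.mem_image.1 ht
    rw [Multiset.mem_toFinset, mem_roots hg0, IsRoot.def, hg]
    simp only [eval_sub, eval_pow, eval_X]
    rw [← map_pow, ZMod.pow_card, sub_self]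
  have hEq := Finset.eq_of_subset_of_card_le hsub (by
    rw [Finset.card_image_of_injective _ hinj, Finset.card_univ, ZMod.card]
    calc _ ≤ Multiset.card g.roots := Multiset.toFinset_card_le _
      _ ≤ g.natDegree := card_roots' g
      _ = p := hgd)
  have hy : Ideal.Quotient.mk Q y ∈ g.roots.toFinset := by
    rw [Multiset.mem_toFinset, mem_roots hg0, IsRoot.def, hg]
    simp only [eval_sub, eval_pow, eval_X]
    rw [← map_pow, ← map_sub, Ideal.Quotient.eq_zero_iff_mem, ← neg_sub]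
    exact Q.neg_mem h
  rw [← hEq] at hy
  obtain ⟨a, -, ha⟩ := Finset.mem_image.1 hy
  obtain ⟨m, rfl⟩ : ∃ m : ℕ, a = (m : ZMod p) := ⟨a.val, (ZMod.natCast_zmod_val _).symm⟩
  refine ⟨(m : ℤ), ?_⟩
  rw [← Ideal.Quotient.eq_zero_iff_mem, map_sub, ← ha, map_natCast]
  push_cast
  rw [map_natCast, sub_self]

theorem sp_pi {K : Type} [Field K] [NumberField K] (v : HeightOneSpectrum (𝓞 K))
    (hp : (plNorm v).Prime) : ∃ π : 𝓞 K →+* ZMod (plNorm v), RingHom.ker π = v.asIdeal := by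
  have hfin : Finite (𝓞 K ⧸ v.asIdeal) := Ideal.finiteQuotientOfFreeOfNeBot v.asIdeal v.ne_bot
  let _ := Fintype.ofFinite (𝓞 K ⧸ v.asIdeal)
  have hcard : Fintype.card (𝓞 K ⧸ v.asIdeal) = plNorm v := by
    unfold plNorm
    rw [Ideal.absNorm_apply, Submodule.cardQuot_apply, Nat.card_eq_fintype_card]
  let e := ZMod.ringEquivOfPrime (𝓞 K ⧸ v.asIdeal) hp hcard
  refine ⟨(e.symm : (𝓞 K ⧸ v.asIdeal) →+* ZMod (plNorm v)).comp (Ideal.Quotient.mk _), ?_⟩
  ext a
  rw [RingHom.mem_ker, RingHom.comp_apply]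
  change e.symm _ = 0 ↔ _
  rw [EmbeddingLike.map_eq_zero_iff, Ideal.Quotient.eq_zero_iff_mem]

theorem sp_kappa {K L : Type} [Field K] [NumberField K] [Field L] [NumberField L] [Algebra K L]
    {v : HeightOneSpectrum (𝓞 K)} {Q : Ideal (𝓞 L)} {φ : L ≃ₐ[K] L} (h : IsFrob v Q φ)
    (hp : (plNorm v).Prime) (π : 𝓞 K →+* ZMod (plNorm v)) (hπ : RingHom.ker π = v.asIdeal)
    (a : 𝓞 K) : ∃ m : ℤ, π a = (m : ZMod (plNorm v)) ∧ algebraMap (𝓞 K) (𝓞 L) a - m ∈ Q := by
  have hfact : Fact (plNorm v).Prime := ⟨hp⟩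
  obtain ⟨m, hm⟩ : ∃ m : ℕ, π a = (m : ZMod (plNorm v)) :=
    ⟨(π a).val, (ZMod.natCast_zmod_val _).symm⟩
  refine ⟨(m : ℤ), ?_, ?_⟩
  · rw [hm]
    push_cast
    rfl
  · have h1 : a - (m : 𝓞 K) ∈ v.asIdeal := by
      rw [← hπ, RingHom.mem_ker, map_sub, map_natCast, hm, sub_self]
    obtain ⟨b, hb, hb'⟩ := (h.2.1 _).1 h1
    have h2 : b = algebraMap (𝓞 K) (𝓞 L) a - ((m : ℤ) : 𝓞 L) := by
      apply RingOfIntegers.ext
      rw [hb']
      simp
      rfl
    rwa [h2] at hb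

theorem sp_eq {R : Type} [CommRing R] (Q : Ideal R) (hQ : Q ≠ ⊤) (p : ℕ) (hp : p.Prime)
    (hpQ : (p : R) ∈ Q) (a b : ℤ) (h : (a : R) - (b : R) ∈ Q) : (a : ZMod p) = (b : ZMod p) := by
  have h1 : (p : ℤ) ∣ a - b := by
    apply in_int Q hQ p hp hpQ
    push_cast
    exact h
  rw [← sub_eq_zero, ← Int.cast_sub, ZMod.intCast_zmod_eq_zero_iff_dvd]
  exact h1

theorem sp_mod8 (p : ℕ) [Fact p.Prime] (hp2 : p ≠ 2) (m : ZMod p) (h : m ^ 4 = -1) : p % 8 = 1 := by
  have h1 : orderOf m = 2 ^ (2 + 1) := by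
    apply orderOf_eq_prime_pow
    · intro h0
      norm_num at h0
      rw [h] at h0
      have : (2 : ZMod p) = 0 := by linear_combination -h0
      have h2 : ((2 : ℕ) : ZMod p) = 0 := by exact_mod_cast this
      rw [ZMod.natCast_eq_zero_iff] at h2
      exact hp2 ((Nat.prime_dvd_prime_iff_eq Fact.out Nat.prime_two).1 h2)
    · norm_num
      have : m ^ 8 = (m ^ 4) ^ 2 := by ring
      rw [this, h]
      ring
  have hm : m ≠ 0 := by
    intro h0
    rw [h0] at h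
    have : (1 : ZMod p) = 0 := by
      have h2 : (0 : ZMod p) ^ 4 = 0 := by norm_num
      rw [h2] at h
      linear_combination h
    exact one_ne_zero this
  have h2 : orderOf m ∣ p - 1 := orderOf_dvd_of_pow_eq_one (ZMod.pow_card_sub_one_eq_one hm)
  rw [h1] at h2
  have h3 := (Fact.out : p.Prime).one_lt
  obtain ⟨k, hk⟩ := h2
  norm_num at hk
  omega

/-- Euler criterion, relative version -/
theorem sp_sym {R : Type} [CommRing R] [IsDomain R] (p : ℕ) [Fact p.Prime] (hp2 : p ≠ 2)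
    (Q : Ideal R) (hQ : Q.IsPrime) (hpQ : (p : R) ∈ Q) (Φ : R →+* R) (hΦ : ∀ x, Φ x - x ^ p ∈ Q)
    (S : R) (A : ℤ) (hA : S ^ 2 - (A : R) ∈ Q) (hS : S ∉ Q) (hΦS : (Φ S) ^ 2 = S ^ 2) :
    (quadraticChar (ZMod p) (A : ZMod p) = 1 ∧ Φ S = S) ∨
      (quadraticChar (ZMod p) (A : ZMod p) = -1 ∧ Φ S ≠ S) := by
  have hp : p.Prime := Fact.out
  have hzp : (A : ZMod p) ≠ 0 := by
    rw [Ne, ZMod.intCast_zmod_eq_zero_iff_dvd]
    rintro ⟨c, hc⟩
    apply hS
    apply hQ.mem_of_pow_mem 2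
    have h1 : S ^ 2 = (S ^ 2 - (A : R)) + (A : R) := by ring
    rw [h1, hc]
    apply Q.add_mem
    · rw [← hc]; exact hA
    · push_cast
      exact Q.mul_mem_right _ hpQ
  have h1 : ((quadraticChar (ZMod p) (A : ZMod p) : ℤ) : ZMod p) = (A : ZMod p) ^ (p / 2) :=
    legendreSym.eq_pow p A
  have h2 : (p : ℤ) ∣ A ^ (p / 2) - quadraticChar (ZMod p) (A : ZMod p) := by
    rw [← ZMod.intCast_zmod_eq_zero_iff_dvd]
    push_cast
    rw [h1, sub_self]
  have h3 : ((A ^ (p / 2) - quadraticChar (ZMod p) (A : ZMod p) : ℤ) : R) ∈ Q := by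
    obtain ⟨c, hc⟩ := h2
    rw [hc]
    push_cast
    exact Q.mul_mem_right _ hpQ
  have hodd : 2 * (p / 2) + 1 = p := by
    have := hp.eq_two_or_odd
    omega
  have h4 : S ^ p - S * (A : R) ^ (p / 2) ∈ Q := by
    have h5 : S ^ p - S * (A : R) ^ (p / 2) = S * ((S ^ 2) ^ (p / 2) - (A : R) ^ (p / 2)) := by
      rw [mul_sub, ← pow_mul]
      congr 1
      conv_lhs => rw [← hodd]
      ring
    rw [h5]
    obtain ⟨c, hc⟩ := sub_dvd_pow_sub_pow (S ^ 2) (A : R) (p / 2)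
    rw [hc]
    exact Q.mul_mem_left _ (Q.mul_mem_right _ hA)
  have h5 : Φ S - S * ((quadraticChar (ZMod p) (A : ZMod p) : ℤ) : R) ∈ Q := by
    have h6 := Q.add_mem (Q.add_mem (hΦ S) h4) (Q.mul_mem_left S h3)
    have h7 : Φ S - S ^ p + (S ^ p - S * (A : R) ^ (p / 2)) +
        S * ((A ^ (p / 2) - quadraticChar (ZMod p) (A : ZMod p) : ℤ) : R) =
        Φ S - S * ((quadraticChar (ZMod p) (A : ZMod p) : ℤ) : R) := by
      push_cast; ring
    rwa [h7] at h6
  have h2P : ¬ ((2 : R) ∈ Q) := by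
    intro h
    have h6 : ((2 : ℤ) : R) ∈ Q := by simpa using h
    have h7 := in_int Q hQ.ne_top p hp hpQ 2 h6
    have h8 : p ∣ 2 := by exact_mod_cast h7
    have := (Nat.prime_dvd_prime_iff_eq hp Nat.prime_two).1 h8
    exact hp2 this
  have h2s : ¬ (2 * S ∈ Q) := fun h => (hQ.mem_or_mem h).elim h2P hS
  rcases quadraticChar_dichotomy hzp with hχ | hχ
  · refine Or.inl ⟨hχ, ?_⟩
    rw [hχ] at h5
    have h6 : (Φ S - S) * (Φ S + S) = 0 := by linear_combination hΦS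
    rcases mul_eq_zero.1 h6 with h7 | h7
    · exact sub_eq_zero.1 h7
    · exfalso
      apply h2s
      have h8 : Φ S = -S := by linear_combination h7
      rw [h8] at h5
      have h9 : -S - S * ((1 : ℤ) : R) = -(2 * S) := by push_cast; ring
      rw [h9] at h5
      exact (Q.neg_mem_iff).1 h5
  · refine Or.inr ⟨hχ, ?_⟩
    intro h
    rw [hχ, h] at h5
    apply h2s
    have h9 : S - S * ((-1 : ℤ) : R) = 2 * S := by push_cast; ring
    rwa [h9] at h5

theorem sp_sq {p : ℕ} [Fact p.Prime] (x D : ZMod p) (hD : D ≠ 0) :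
    quadraticChar (ZMod p) (x * D) = quadraticChar (ZMod p) (x / D) := by
  have h1 : x * D = x / D * D ^ 2 := by field_simp
  rw [h1, map_mul, quadraticChar_sq_one' hD, mul_one]

theorem sp_sq2 {p : ℕ} [Fact p.Prime] (x D : ZMod p) (hD : D ≠ 0) :
    quadraticChar (ZMod p) (D ^ 2 * x) = quadraticChar (ZMod p) x := by
  rw [map_mul, quadraticChar_sq_one' hD, one_mul]

/-- common denominator -/
theorem sp_den {L : Type} [Field L] [NumberField L] (T : Finset L) :
    ∃ D : ℤ, D ≠ 0 ∧ ∀ x ∈ T, ∃ y : 𝓞 L, (y : L) = (D : L) * x := by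
  obtain ⟨D, hD, h⟩ := exists_integral_multiples ℤ ℚ T
  refine ⟨D, hD, fun x hx => ?_⟩
  have h1 := h x hx
  rw [zsmul_eq_mul] at h1
  exact ⟨⟨_, h1⟩, rfl⟩

/-- the factorisation of the reduction -/
theorem sp_fac {A R : Type} [CommRing A] [CommRing R] [IsDomain R] (p : ℕ) [Fact p.Prime]
    [Algebra (ZMod p) R] {N : ℕ} (f : A[X]) (α : A →+* R) (π : A →+* ZMod p)
    (h1 : ∀ a, algebraMap (ZMod p) R (π a) = α a) (c : A) (D : ZMod p) (hD : D ≠ 0)
    (n : Fin N → ZMod p)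
    (h2 : C (algebraMap (ZMod p) R D) ^ N * f.map α =
      C (α c) * ∏ i, (C (algebraMap (ZMod p) R D) * X - C (algebraMap (ZMod p) R (n i)))) :
    f.map π = C (π c) * ∏ i, (X - C (n i / D)) := by
  have hinj : Function.Injective (algebraMap (ZMod p) R) := (algebraMap (ZMod p) R).injective
  have h3 : C D ^ N * f.map π = C (π c) * ∏ i, (C D * X - C (n i)) := by
    apply map_injective _ hinj
    rw [Polynomial.map_mul, Polynomial.map_mul, Polynomial.map_pow, map_C, map_C, Polynomial.map_map,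
      Polynomial.map_prod, h1]
    have h4 : (algebraMap (ZMod p) R).comp π = α := RingHom.ext h1
    rw [h4, h2]
    congr 1
    apply Finset.prod_congr rfl
    intro i _
    simp
  have h5 : ∏ i, (C D * X - C (n i)) = C D ^ N * ∏ i, (X - C (n i / D)) := by
    have h6 : ∀ i, (C D * X - C (n i)) = C D * (X - C (n i / D)) := by
      intro i
      rw [mul_sub, ← C_mul, mul_div_cancel₀ _ hD]
    rw [Finset.prod_congr rfl (fun i _ => h6 i), Finset.prod_mul_distrib, Finset.prod_const,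
      Finset.card_univ, Fintype.card_fin]
  have h7 : C D ^ N * f.map π = C D ^ N * (C (π c) * ∏ i, (X - C (n i / D))) := by
    rw [h3, h5]; ring
  exact mul_left_cancel₀ (pow_ne_zero _ (C_ne_zero.2 hD)) h7

open Classical in
/-- Transfer of the splitting behaviour: positive density of the places of prime norm at which the
polynomial `f` splits with quadratic symbols prescribed by `σ`, inert in the fields `F j`. -/
theorem spread {K : Type} [Field K] [NumberField K] (f : (𝓞 K)[X]) (hf0 : f ≠ 0)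
    {L : Type} [Field L] [NumberField L] [Algebra K L] [IsGalois K L] (σ : L ≃ₐ[K] L)
    (e : Fin f.natDegree → L) (he : Function.Injective e)
    (hf : f.map (algebraMap (𝓞 K) L) = C (algebraMap (𝓞 K) L f.leadingCoeff) * ∏ i, (X - C (e i)))
    (hσe : ∀ i, σ (e i) = e i)
    (s : Fin f.natDegree → Fin f.natDegree → L) (hs : ∀ i j, i ≠ j → s i j ^ 2 = e i - e j)
    (sc : L) (hsc : sc ^ 2 = algebraMap (𝓞 K) L f.leadingCoeff)
    {κ : Type} [Fintype κ] (z : κ → ℤ) (hz : ∀ k, z k ≠ 0) (t : κ → L)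
    (ht : ∀ k, t k ^ 2 = (z k : L))
    {ι : Type} [Fintype ι] (F : ι → Type) [∀ j, Field (F j)] [∀ j, NumberField (F j)]
    (hF : ∀ j, Nat.card (F j →+* L) = Module.finrank ℚ (F j))
    (hσF : ∀ j, ∀ τ τ' : F j →+* L, ∃ n : ℤ, ∀ x, τ' x = (σ ^ n) (τ x)) (B : ℕ) :
    PosDensity {v : HeightOneSpectrum (𝓞 K) | ∃ (p : ℕ) (_ : Fact p.Prime) (π : 𝓞 K →+* ZMod p)
      (r : Fin f.natDegree → ZMod p), RingHom.ker π = v.asIdeal ∧ B < p ∧ p ≠ 2 ∧
      Function.Injective r ∧ π f.leadingCoeff ≠ 0 ∧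
      f.map π = C (π f.leadingCoeff) * ∏ i, (X - C (r i)) ∧
      (∀ i j, i ≠ j → quadraticChar (ZMod p) (r i - r j) = if σ (s i j) = s i j then 1 else -1) ∧
      (quadraticChar (ZMod p) (π f.leadingCoeff) = if σ sc = sc then 1 else -1) ∧
      (∀ k, quadraticChar (ZMod p) (z k : ZMod p) = if σ (t k) = t k then 1 else -1) ∧
      (∀ j, (Ideal.span {(p : 𝓞 (F j))}).IsPrime)} := by
  have hlc0 : f.leadingCoeff ≠ 0 := leadingCoeff_ne_zero.2 hf0
  -- common denominator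
  obtain ⟨D, hD, hden⟩ := sp_den (Finset.univ.image e ∪
    Finset.univ.image (fun x : Fin f.natDegree × Fin f.natDegree => s x.1 x.2) ∪ {sc} ∪ Finset.univ.image t)
  have hE' : ∀ i, ∃ y : 𝓞 L, (y : L) = (D : L) * e i := fun i => hden _ (by simp)
  have hS' : ∀ i j, ∃ y : 𝓞 L, (y : L) = (D : L) * s i j := fun i j => hden _ (by
    simp only [Finset.mem_union, Finset.mem_image, Finset.mem_univ, true_and, Finset.mem_singleton]
    exact Or.inl (Or.inl (Or.inr ⟨(i, j), rfl⟩)))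
  have hT' : ∀ k, ∃ y : 𝓞 L, (y : L) = (D : L) * t k := fun k => hden _ (by simp)
  choose E hE using hE'
  choose S hS using hS'
  choose T hT using hT'
  obtain ⟨Sc, hSc⟩ := hden sc (by simp)
  change ∀ i, algebraMap (𝓞 L) L (E i) = _ at hE
  change ∀ i j, algebraMap (𝓞 L) L (S i j) = _ at hS
  change ∀ k, algebraMap (𝓞 L) L (T k) = _ at hT
  change algebraMap (𝓞 L) L Sc = _ at hSc
  have hDL : (D : L) ≠ 0 := by exact_mod_cast hD
  obtain ⟨lc', hlc'⟩ : ∃ lc' : 𝓞 L, lc' = algebraMap (𝓞 K) (𝓞 L) f.leadingCoeff := ⟨_, rfl⟩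
  have hlcL : algebraMap (𝓞 L) L lc' = algebraMap (𝓞 K) L f.leadingCoeff := by
    rw [hlc']
    exact (IsScalarTower.algebraMap_apply (𝓞 K) (𝓞 L) L f.leadingCoeff).symm
  have hlc'0 : lc' ≠ 0 := by
    rw [hlc', Ne, FaithfulSMul.algebraMap_eq_zero_iff]
    exact hlc0
  have hSE : ∀ i j, i ≠ j → S i j ^ 2 = (D : 𝓞 L) * (E i - E j) := by
    intro i j hij
    have h7 : algebraMap (𝓞 L) L (S i j ^ 2) = algebraMap (𝓞 L) L ((D : 𝓞 L) * (E i - E j)) := by
      rw [map_pow, map_mul, map_sub, map_intCast, hS, hE, hE, mul_pow, hs i j hij]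
      ring
    exact RingOfIntegers.ext h7
  have hScE : Sc ^ 2 = (D : 𝓞 L) ^ 2 * lc' := by
    have h7 : algebraMap (𝓞 L) L (Sc ^ 2) = algebraMap (𝓞 L) L ((D : 𝓞 L) ^ 2 * lc') := by
      rw [map_pow, map_mul, map_pow, map_intCast, hSc, hlcL, mul_pow, hsc]
    exact RingOfIntegers.ext h7
  have hTE : ∀ k, T k ^ 2 = (D : 𝓞 L) ^ 2 * (z k : 𝓞 L) := by
    intro k
    have h7 : algebraMap (𝓞 L) L (T k ^ 2) = algebraMap (𝓞 L) L ((D : 𝓞 L) ^ 2 * (z k : 𝓞 L)) := by
      rw [map_pow, map_mul, map_pow, map_intCast, map_intCast, hT, mul_pow, ht]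
    exact RingOfIntegers.ext h7
  have hEE : ∀ i j, i ≠ j → E i - E j ≠ 0 := by
    intro i j hij h0
    have h1 : algebraMap (𝓞 L) L (E i - E j) = 0 := by rw [h0, map_zero]
    rw [map_sub, hE, hE, ← mul_sub] at h1
    rcases mul_eq_zero.1 h1 with h2 | h2
    · exact hDL h2
    · exact hij (he (sub_eq_zero.1 h2))
  have hAB : C ((D : ℤ) : 𝓞 L) ^ f.natDegree * f.map (algebraMap (𝓞 K) (𝓞 L)) =
      C lc' * ∏ i, (C ((D : ℤ) : 𝓞 L) * X - C (E i)) := by
    have hinj : Function.Injective (algebraMap (𝓞 L) L) := RingOfIntegers.coe_injective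
    apply map_injective _ hinj
    rw [Polynomial.map_mul, Polynomial.map_mul, Polynomial.map_pow, map_C, map_C, Polynomial.map_map,
      Polynomial.map_prod, ← IsScalarTower.algebraMap_eq, hf, hlcL, map_intCast]
    have h6 : ∀ i, (C ((D : ℤ) : 𝓞 L) * X - C (E i) : (𝓞 L)[X]).map (algebraMap (𝓞 L) L) =
        C (D : L) * (X - C (e i)) := by
      intro i
      rw [Polynomial.map_sub, Polynomial.map_mul, map_C, map_C, map_X, map_intCast, hE, mul_sub, C_mul]
    rw [Finset.prod_congr rfl (fun i _ => h6 i), Finset.prod_mul_distrib, Finset.prod_const,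
      Finset.card_univ, Fintype.card_fin]
    ring
  have hib' : ∀ j, _ := fun j => in_bound (K := K) (L := L) (F j) (hF j)
  choose Δ hΔ hib using hib'
  set n : ℕ := B + 2 + D.natAbs + ∑ x : Fin f.natDegree × Fin f.natDegree, (Algebra.norm ℤ (E x.1 - E x.2)).natAbs +
    (Algebra.norm ℤ lc').natAbs + ∑ k, (z k).natAbs + ∑ j, Δ j with hn
  refine base_mono ?_ (frob_density σ _ (base_bad ∅ Set.finite_empty n))
  rintro v ⟨hv, hpr, Q, φ, hφ, hzp⟩
  simp only [Set.mem_union, not_or, Set.mem_ofPred_eq] at hv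
  obtain ⟨-, hvn⟩ := hv
  have hpn : n < plNorm v := by
    rw [not_le] at hvn
    exact_mod_cast hvn
  have hfact : Fact (plNorm v).Prime := ⟨hpr⟩
  have hQ : Q.IsPrime := hφ.1
  have hpQ := base_prime_mem hφ
  obtain ⟨π, hπ⟩ := sp_pi v hpr
  have hdom : IsDomain (𝓞 L ⧸ Q) := Ideal.Quotient.isDomain Q
  have hchar : CharP (𝓞 L ⧸ Q) (plNorm v) := (CharP.charP_iff_prime_eq_zero hpr).2 (by
    rw [← map_natCast (Ideal.Quotient.mk Q), Ideal.Quotient.eq_zero_iff_mem]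
    exact hpQ)
  let _ : Algebra (ZMod (plNorm v)) (𝓞 L ⧸ Q) := ZMod.algebra _ (plNorm v)
  -- small nonzero integers are prime to `p`
  have hsmall : ∀ a : ℤ, a ≠ 0 → a.natAbs ≤ n → ¬ ((plNorm v : ℤ) ∣ a) := by
    intro a ha han hd
    have h1 := Nat.le_of_dvd (Int.natAbs_pos.2 ha) (Int.natCast_dvd.1 hd)
    omega
  have hnotQ : ∀ a : ℤ, a ≠ 0 → a.natAbs ≤ n → ((a : ℤ) : 𝓞 L) ∉ Q := fun a ha han h =>
    hsmall a ha han (in_int Q hQ.ne_top _ hpr hpQ a h)
  have hnormQ : ∀ y : 𝓞 L, y ≠ 0 → (Algebra.norm ℤ y).natAbs ≤ n → y ∉ Q := by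
    intro y hy hyn h
    have h1 := in_norm Q hQ.ne_top _ hpr hpQ y h
    exact hsmall _ (by rw [Algebra.norm_ne_zero_iff]; exact hy) hyn h1
  have hDQ : ((D : ℤ) : 𝓞 L) ∉ Q := hnotQ D hD (by omega)
  have hEQ : ∀ i j, i ≠ j → E i - E j ∉ Q := by
    intro i j hij
    apply hnormQ _ (hEE i j hij)
    have := Finset.single_le_sum (f := fun x : Fin f.natDegree × Fin f.natDegree => (Algebra.norm ℤ (E x.1 - E x.2)).natAbs)
      (fun _ _ => Nat.zero_le _) (Finset.mem_univ (i, j))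
    dsimp only at this
    omega
  have hlcQ : lc' ∉ Q := hnormQ _ hlc'0 (by omega)
  have hp2 : plNorm v ≠ 2 := by omega
  have hDp : ((D : ℤ) : ZMod (plNorm v)) ≠ 0 := by
    rw [Ne, ZMod.intCast_zmod_eq_zero_iff_dvd]
    exact hsmall D hD (by omega)
  -- fixed elements
  have hfix : ∀ x : L, φ x = x ↔ σ x = x := by
    intro x
    have h1 : ∀ ψ : L ≃ₐ[K] L, ψ x = x ↔ Subgroup.zpowers ψ ≤ MulAction.stabilizer (L ≃ₐ[K] L) x := by
      intro ψ
      rw [Subgroup.zpowers_le, MulAction.mem_stabilizer_iff]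
      rfl
    rw [h1, h1, hzp]
  set Φ : 𝓞 L →+* 𝓞 L := RingOfIntegers.mapRingHom (φ : L →+* L) with hΦdef
  have hΦ : ∀ x, Φ x - x ^ plNorm v ∈ Q := fun x => hφ.2.2 x (Φ x) rfl
  have hΦc : ∀ x : 𝓞 L, algebraMap (𝓞 L) L (Φ x) = φ (algebraMap (𝓞 L) L x) := fun x => rfl
  have hΦs : ∀ (y : 𝓞 L) (x : L), algebraMap (𝓞 L) L y = (D : L) * x → (Φ y = y ↔ σ x = x) := by
    intro y x hyx
    rw [← hfix]
    constructor
    · intro h
      have h1 : algebraMap (𝓞 L) L (Φ y) = algebraMap (𝓞 L) L y := by rw [h]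
      rw [hΦc, hyx, map_mul, map_intCast] at h1
      exact mul_left_cancel₀ hDL h1
    · intro h
      have h7 : algebraMap (𝓞 L) L (Φ y) = algebraMap (𝓞 L) L y := by
        rw [hΦc, hyx, map_mul, map_intCast, h]
      exact RingOfIntegers.ext h7
  have hΦE : ∀ i, Φ (E i) = E i := fun i => (hΦs _ _ (hE i)).2 (hσe i)
  have hint : ∀ i, ∃ m : ℤ, E i - m ∈ Q := by
    intro i
    apply sp_int Q hQ _ hpr hpQ
    have h1 := hΦ (E i)
    rwa [hΦE] at h1
  choose m hm using hint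
  obtain ⟨l, hl1, hl2⟩ := sp_kappa hφ hpr π hπ f.leadingCoeff
  rw [← hlc'] at hl2
  -- the roots
  have hχ : ∀ (y : 𝓞 L) (x : L) (A : ℤ), algebraMap (𝓞 L) L y = (D : L) * x → y ^ 2 - (A : 𝓞 L) ∈ Q → y ∉ Q →
      (Φ y) ^ 2 = y ^ 2 → quadraticChar (ZMod (plNorm v)) (A : ZMod (plNorm v)) =
        if σ x = x then 1 else -1 := by
    intro y x A hyx hA hyQ hy2
    rcases sp_sym (plNorm v) hp2 Q hQ hpQ Φ hΦ y A hA hyQ hy2 with ⟨h1, h2⟩ | ⟨h1, h2⟩
    · rw [h1, if_pos ((hΦs y x hyx).1 h2)]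
    · rw [h1, if_neg (fun h => h2 ((hΦs y x hyx).2 h))]
  have hkap : ∀ a, algebraMap (ZMod (plNorm v)) (𝓞 L ⧸ Q) (π a) =
      ((Ideal.Quotient.mk Q).comp (algebraMap (𝓞 K) (𝓞 L))) a := by
    intro a
    obtain ⟨b, hb1, hb2⟩ := sp_kappa hφ hpr π hπ a
    rw [hb1, map_intCast, RingHom.comp_apply]
    rw [← Ideal.Quotient.eq_zero_iff_mem, map_sub, map_intCast, sub_eq_zero] at hb2
    exact hb2.symm
  have hmE : ∀ i, Ideal.Quotient.mk Q (E i) = ((m i : ℤ) : 𝓞 L ⧸ Q) := by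
    intro i
    have h1 := hm i
    rw [← Ideal.Quotient.eq_zero_iff_mem, map_sub, map_intCast, sub_eq_zero] at h1
    exact h1
  have hlp : (l : ZMod (plNorm v)) ≠ 0 := by
    intro h0
    rw [ZMod.intCast_zmod_eq_zero_iff_dvd] at h0
    apply hlcQ
    have h1 : lc' = (lc' - (l : 𝓞 L)) + (l : 𝓞 L) := by ring
    rw [h1]
    apply Q.add_mem hl2
    obtain ⟨c, hc⟩ := h0
    rw [hc]
    push_cast
    exact Q.mul_mem_right _ hpQ
  have hmm : ∀ i j, i ≠ j → ((m i : ℤ) : ZMod (plNorm v)) - (m j : ZMod (plNorm v)) ≠ 0 := by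
    intro i j hij h0
    apply hEQ i j hij
    have h1 : ((plNorm v : ℕ) : ℤ) ∣ m i - m j := by
      rw [← ZMod.intCast_zmod_eq_zero_iff_dvd]
      push_cast
      exact h0
    have h2 : ((m i - m j : ℤ) : 𝓞 L) ∈ Q := by
      obtain ⟨c, hc⟩ := h1
      rw [hc]
      push_cast
      exact Q.mul_mem_right _ hpQ
    have h3 : E i - E j = (E i - m i) - (E j - m j) + ((m i - m j : ℤ) : 𝓞 L) := by
      push_cast; ring
    rw [h3]
    exact Q.add_mem (Q.sub_mem (hm i) (hm j)) h2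
  refine ⟨plNorm v, hfact, π, fun i => (m i : ZMod (plNorm v)) / (D : ZMod (plNorm v)), hπ, by omega,
    hp2, ?_, ?_, ?_, ?_, ?_, ?_, ?_⟩
  · intro i j hij
    by_contra hne
    apply hmm i j hne
    have h1 : (m i : ZMod (plNorm v)) / (D : ZMod (plNorm v)) = (m j : ZMod (plNorm v)) / (D : ZMod (plNorm v)) := hij
    rw [div_left_inj' hDp] at h1
    rw [h1, sub_self]
  · rw [hl1]
    exact hlp
  · apply sp_fac (R := 𝓞 L ⧸ Q) (plNorm v) f _ π hkap f.leadingCoeff (D : ZMod (plNorm v)) hDp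
      (fun i => (m i : ZMod (plNorm v)))
    have h1 := congrArg (Polynomial.map (Ideal.Quotient.mk Q)) hAB
    rw [Polynomial.map_mul, Polynomial.map_mul, Polynomial.map_pow, map_C, map_C, Polynomial.map_map,
      Polynomial.map_prod, map_intCast] at h1
    rw [map_intCast]
    rw [h1]
    congr 1
    · rw [RingHom.comp_apply, hlc']
    apply Finset.prod_congr rfl
    intro i _
    rw [Polynomial.map_sub, Polynomial.map_mul, map_C, map_C, map_X, map_intCast, map_intCast, hmE,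
      map_intCast (algebraMap (ZMod (plNorm v)) (𝓞 L ⧸ Q)) (m i)]
  · intro i j hij
    have h1 : (m i : ZMod (plNorm v)) / (D : ZMod (plNorm v)) - (m j : ZMod (plNorm v)) / (D : ZMod (plNorm v)) =
        ((m i : ZMod (plNorm v)) - (m j : ZMod (plNorm v))) / (D : ZMod (plNorm v)) := by ring
    simp only
    rw [h1, ← sp_sq _ _ hDp]
    have h2 : ((m i : ZMod (plNorm v)) - (m j : ZMod (plNorm v))) * (D : ZMod (plNorm v)) =
        (((m i - m j) * D : ℤ) : ZMod (plNorm v)) := by push_cast; ring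
    rw [h2]
    apply hχ (S i j) (s i j) _ (hS i j)
    · have h3 : S i j ^ 2 - (((m i - m j) * D : ℤ) : 𝓞 L) =
          (D : 𝓞 L) * ((E i - m i) - (E j - m j)) := by
        rw [hSE i j hij]; push_cast; ring
      rw [h3]
      exact Q.mul_mem_left _ (Q.sub_mem (hm i) (hm j))
    · intro h
      have h3 : (D : 𝓞 L) * (E i - E j) ∈ Q := by
        rw [← hSE i j hij]
        exact Q.pow_mem_of_mem h 2 (by norm_num)
      rcases hQ.mem_or_mem h3 with h4 | h4
      · exact hDQ h4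
      · exact hEQ i j hij h4
    · rw [← map_pow, hSE i j hij, map_mul, map_sub, map_intCast, hΦE, hΦE]
  · rw [hl1, ← sp_sq2 _ _ hDp]
    have h2 : (D : ZMod (plNorm v)) ^ 2 * (l : ZMod (plNorm v)) = ((D ^ 2 * l : ℤ) : ZMod (plNorm v)) := by
      push_cast; ring
    rw [h2]
    apply hχ Sc sc _ hSc
    · have h3 : Sc ^ 2 - ((D ^ 2 * l : ℤ) : 𝓞 L) = (D : 𝓞 L) ^ 2 * (lc' - l) := by
        rw [hScE]; push_cast; ring
      rw [h3]
      exact Q.mul_mem_left _ hl2
    · intro h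
      have h3 : (D : 𝓞 L) ^ 2 * lc' ∈ Q := by
        rw [← hScE]
        exact Q.pow_mem_of_mem h 2 (by norm_num)
      rcases hQ.mem_or_mem h3 with h4 | h4
      · exact hDQ (hQ.mem_of_pow_mem 2 h4)
      · exact hlcQ h4
    · rw [← map_pow, hScE, map_mul, map_pow, map_intCast]
      congr 1
      have h7 : algebraMap (𝓞 L) L (Φ lc') = algebraMap (𝓞 L) L lc' := by
        rw [hΦc, hlcL, IsScalarTower.algebraMap_apply (𝓞 K) K L]
        exact φ.commutes _
      exact RingOfIntegers.ext h7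
  · intro k
    have hzk : (z k).natAbs ≤ n := by
      have := Finset.single_le_sum (f := fun k => (z k).natAbs) (fun _ _ => Nat.zero_le _) (Finset.mem_univ k)
      omega
    rw [← sp_sq2 _ _ hDp]
    have h2 : (D : ZMod (plNorm v)) ^ 2 * (z k : ZMod (plNorm v)) = ((D ^ 2 * z k : ℤ) : ZMod (plNorm v)) := by
      push_cast; ring
    rw [h2]
    apply hχ (T k) (t k) _ (hT k)
    · have h3 : T k ^ 2 - ((D ^ 2 * z k : ℤ) : 𝓞 L) = 0 := by
        rw [hTE]; push_cast; ring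
      rw [h3]
      exact Q.zero_mem
    · intro h
      have h3 : (D : 𝓞 L) ^ 2 * (z k : 𝓞 L) ∈ Q := by
        rw [← hTE]
        exact Q.pow_mem_of_mem h 2 (by norm_num)
      rcases hQ.mem_or_mem h3 with h4 | h4
      · exact hDQ (hQ.mem_of_pow_mem 2 h4)
      · exact hnotQ _ (hz k) hzk h4
    · rw [← map_pow, hTE, map_mul, map_pow, map_intCast, map_intCast]
  · intro j
    have hΔj : Δ j ≤ n := by
      have := Finset.single_le_sum (f := Δ) (fun _ _ => Nat.zero_le _) (Finset.mem_univ j)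
      omega
    have hprime : Prime (((plNorm v : ℕ)) : 𝓞 (F j)) := by
      apply fr2_prime (M := L) (F j) _ hpr
      intro 𝔭 h𝔭 hmem
      refine hib j _ hpr ?_ Q hQ hpQ φ hφ.2.2 _ ?_ 𝔭 h𝔭 hmem
      · intro hd
        have := Nat.le_of_dvd (hΔ j) hd
        omega
      · intro τ
        have h1 : embOrbit φ τ = Set.univ := by
          rw [show embOrbit φ τ = embOrbit σ τ by unfold embOrbit; rw [hzp]]
          apply Set.eq_univ_of_forall
          intro τ'
          obtain ⟨k, hk⟩ := hσF j τ τ'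
          exact ⟨σ ^ k, Subgroup.zpow_mem _ (Subgroup.mem_zpowers σ) k, hk⟩
        rw [h1, Set.ncard_univ, hF]
    exact (Ideal.span_singleton_prime hprime.ne_zero).2 hprime

end Pool.Agent.H7.OR
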