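import Pool.Agent.H7.OR.Base

/-! Common steps of the theorems C and D (complex multiplication). -/

set_option autoImplicit false

namespace Pool.Agent.H7.OR

open Polynomial NumberField IsDedekindDomain

theorem base_inert {F : Type} [Field F] [NumberField F] (p : ℕ) (hp : p.Prime)
    (𝔮 : Ideal (𝓞 F)) (hmem : (p : 𝓞 F) ∈ 𝔮)
    (hN : p ^ Module.finrank ℚ F ≤ Ideal.absNorm 𝔮) (x : 𝓞 F) (hx : x ∈ 𝔮) : (p : 𝓞 F) ∣ x := by
  have hle : Ideal.span {(p : 𝓞 F)} ≤ 𝔮 := (Ideal.span_singleton_le_iff_mem _).2 hmem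
  have hnorm : Ideal.absNorm (Ideal.span {(p : 𝓞 F)}) = p ^ Module.finrank ℚ F := by
    rw [Ideal.absNorm_span_singleton]
    have : (p : 𝓞 F) = algebraMap ℤ (𝓞 F) p := by simp
    rw [this, Algebra.norm_algebraMap, RingOfIntegers.rank F]
    simp [Int.natAbs_pow]
  have hne : Ideal.absNorm (Ideal.span {(p : 𝓞 F)}) ≠ 0 := by
    rw [hnorm]
    exact pow_ne_zero _ hp.ne_zero
  have hdvd : Ideal.absNorm 𝔮 ∣ Ideal.absNorm (Ideal.span {(p : 𝓞 F)}) :=
    Ideal.absNorm_dvd_absNorm_of_le hle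
  have heq : Ideal.absNorm 𝔮 = Ideal.absNorm (Ideal.span {(p : 𝓞 F)}) := by
    refine le_antisymm (Nat.le_of_dvd (Nat.pos_of_ne_zero hne) hdvd) ?_
    rw [hnorm]
    exact hN
  obtain ⟨J, hJ⟩ := (Ideal.dvd_iff_le.2 hle)
  have hJ1 : Ideal.absNorm J = 1 := by
    have h1 := congrArg Ideal.absNorm hJ
    rw [map_mul, heq] at h1
    have h2 : Ideal.absNorm (Ideal.span {(p : 𝓞 F)}) * 1 =
        Ideal.absNorm (Ideal.span {(p : 𝓞 F)}) * Ideal.absNorm J := by rw [mul_one]; exact h1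
    exact (Nat.eq_of_mul_eq_mul_left (Nat.pos_of_ne_zero hne) h2).symm
  rw [Ideal.absNorm_eq_one_iff] at hJ1
  rw [hJ1, Ideal.mul_top] at hJ
  rw [← hJ, Ideal.mem_span_singleton] at hx
  exact hx

/-- coefficients of the characteristic polynomial of the identity -/
theorem base_one {R : Type} [CommRing R] (m : ℕ) (i : ℕ) :
    (1 : Matrix (Fin m) (Fin m) R).charpoly.coeff i = (-1) ^ (m - i) * (m.choose i : ℕ) := by
  rw [Matrix.charpoly_one, Fintype.card_fin]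
  have h := coeff_X_add_C_pow (-1 : R) m i
  rw [← h]
  congr 2
  simp [sub_eq_add_neg]

theorem base_gen {G M : Type} [Group G] [Monoid M] (ρ : G →* M) (σ φ : G)
    (hz : Subgroup.zpowers φ = Subgroup.zpowers σ) (h : ρ σ = 1) : ρ φ = 1 := by
  have h1 : φ ∈ Subgroup.zpowers σ := by rw [← hz]; exact Subgroup.mem_zpowers φ
  obtain ⟨k, rfl⟩ := Subgroup.mem_zpowers_iff.1 h1
  have h2 : (σ : G) ∈ ρ.ker := h
  exact ρ.ker.zpow_mem h2 k

/-- elements fixed by `ι` come from `F` -/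
theorem base_down {F E : Type} [Field F] [NumberField F] [Field E] [NumberField E] [Algebra F E]
    (x : 𝓞 E) (y : F) (h : algebraMap F E y = (x : E)) :
    ∃ t : 𝓞 F, algebraMap F E (t : F) = (x : E) := by
  have hy : IsIntegral ℤ y := by
    have h1 : IsIntegral ℤ (algebraMap F E y) := by
      rw [h]
      exact RingOfIntegers.isIntegral_coe x
    exact (isIntegral_algHom_iff ((algebraMap F E).toIntAlgHom) (algebraMap F E).injective).1 h1
  exact ⟨⟨y, hy⟩, h⟩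

theorem base_cast {E : Type} [Field E] [NumberField E] (n : ℕ) : (((n : ℕ) : 𝓞 E) : E) = (n : E) := by
  simp

theorem base_sub_cast {E : Type} [Field E] [NumberField E] (b : 𝓞 E) (n : ℕ) :
    ((b - (n : 𝓞 E) : 𝓞 E) : E) = (b : E) - (n : E) := by
  simp

theorem base_pair {E : Type} [Field E] [NumberField E] (P : (𝓞 E)[X]) (hP : P.Monic) (m : ℕ)
    (hd : P.natDegree = m) (hm : 3 ≤ m) (p : ℕ) (hp : 0 < p)
    (hroot : ∀ τ : E →+* ℂ, ∀ z, (tmap τ P).IsRoot z → ‖z‖ ^ 2 = (p : ℝ))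
    (h : P.coeff (m - 2) = (p : 𝓞 E) * ((m.choose 2 : ℕ) : 𝓞 E)) :
    P.coeff (m - 1) ^ 2 = (m : 𝓞 E) ^ 2 * p := by
  obtain ⟨τ⟩ : Nonempty (E →+* ℂ) := inferInstance
  have hp0 : (0 : ℝ) < p := by exact_mod_cast hp
  have hmon : (tmap τ P).Monic := hP.map _
  have hnd : (tmap τ P).natDegree = m := by
    rw [tmap, hP.natDegree_map, hd]
  have h1 := cx_pair (tmap τ P) hmon m hnd hm (p : ℝ) hp0 (hroot τ) (by
    rw [tmap_coeff, h]
    simp
    ring)
  rw [tmap_coeff] at h1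
  have hinj : Function.Injective (fun x : 𝓞 E => τ (x : E)) :=
    τ.injective.comp RingOfIntegers.coe_injective
  apply hinj
  simp only
  rw [show ((P.coeff (m - 1) ^ 2 : 𝓞 E) : E) = ((P.coeff (m - 1) : 𝓞 E) : E) ^ 2 by simp,
    map_pow, h1]
  simp

end Pool.Agent.H7.OR
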