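import Pool.Agent.H75.EK.Gal2
set_option autoImplicit false

namespace Pool.Agent.H7.OR

open EK75 Polynomial Finset NumberField

theorem cyc_exists (M : Type) [Field M] [NumberField M] [IsGalois ℚ M] (τ : M ≃ₐ[ℚ] M) :
    ∃ (h : ℤ[X]) (β : 𝓞 M) (Δ : ℕ), CycGen M τ h β Δ := by
  classical
  obtain ⟨A, -, hA⟩ := gal_poly (Module.finrank ℚ M + 2)
  obtain ⟨α, hα⟩ := Field.exists_primitive_element ℚ M
  obtain ⟨x, s, hs, hx⟩ := IsFractionRing.div_surjective (A := 𝓞 M) α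
  set H : ℝ := 2 + ∑ σ : M →+* ℂ, (‖σ (x : M)‖ + ‖σ (s : M)‖) with hH
  have hnn : ∀ σ : M →+* ℂ, 0 ≤ ‖σ (x : M)‖ + ‖σ (s : M)‖ := fun σ => by positivity
  have hle : ∀ σ : M →+* ℂ, ‖σ (x : M)‖ + ‖σ (s : M)‖ ≤ H := by
    intro σ
    have := Finset.single_le_sum (f := fun σ : M →+* ℂ => ‖σ (x : M)‖ + ‖σ (s : M)‖)
      (fun σ _ => hnn σ) (Finset.mem_univ σ)
    linarith
  have hH2 : 2 ≤ H := by
    have := Finset.sum_nonneg (s := Finset.univ) (f := fun σ : M →+* ℂ => ‖σ (x : M)‖ + ‖σ (s : M)‖)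
      (fun σ _ => hnn σ)
    linarith
  obtain ⟨h, β, Δ, h1, -, -⟩ := hA M (by omega) H hH2 {x, s} (by
    have := Finset.card_le_two (a := x) (b := s)
    omega) (by
    rw [eq_top_iff, ← hα, IntermediateField.adjoin_simple_le_iff, ← hx]
    apply div_mem
    · exact IntermediateField.subset_adjoin _ _ ⟨x, by simp, rfl⟩
    · exact IntermediateField.subset_adjoin _ _ ⟨s, by simp, rfl⟩) (by
    intro z hz σ
    have h3 := hle σ
    have h4 := norm_nonneg (σ (x : M))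
    have h5 := norm_nonneg (σ (s : M))
    rw [Finset.mem_insert, Finset.mem_singleton] at hz
    rcases hz with rfl | rfl
    · linarith
    · linarith) τ
  exact ⟨h, β, Δ, h1⟩

end Pool.Agent.H7.OR
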