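import Pool.Agent.H75.EK.Gal3

/-! Exact count of the conjugates of a Frobenius element inside a cyclic subgroup.

Proof.  `≤` is `EK75.frob_count`.  `≥`: let `r ∈ range p` with `p ∣ h.eval r`.  Claim: there is `s`
with `s • β - r ∈ P`.  The polynomial `f = ∏_{s} (X - C (s • β)) ∈ (𝓞 M)[X]`
(`MulSemiringAction.charpoly`) lifts to a monic `f0 ∈ ℤ[X]` (`Algebra.IsInvariant ℤ (𝓞 M) G`, see how
`frob_exists` in Gal3.lean gets it; e.g. `MulSemiringAction.charpoly` is in `Polynomial.lifts`), and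
`aeval β f0 = 0`, so `h ∣ f0` (`h` is the minimal polynomial of `β`, cf. `EK75.nf_dvd_of_aeval`).
Hence `p ∣ f0.eval r`, so `∏_s ((r : 𝓞 M) - s • β) = f.eval r ∈ P` and some factor lies in `P`.
For such `s`: `φ • (s • β) ≡ (s • β)^p ≡ r^p ≡ r ≡ s • β` modulo `P` (Fermat for the integer `r`), so by
`hc.sep` (with `σ := φ * s`, `σ' := s`) `φ • s • β = s • β`, i.e. `s⁻¹ φ s ∈ ⟨τ⟩` (`hc.fix`).
The same holds for every element of the coset `s⟨τ⟩` (`orderOf τ` elements); cosets of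
different `r` are disjoint (`s • β ≡ r` and `≡ r'` modulo `P` gives `p ∣ r - r'`, cf.
`EK75.lb3a_int` or `gal3_under`).  So the set has at least `orderOf τ * rho h p` elements. -/

set_option autoImplicit false

namespace Pool.Agent.H7.OR

open EK75 Polynomial Finset NumberField

private theorem fc_dvd {K : Type} [Field K] [NumberField K] (g : ℤ[X]) (hg : g.Monic)
    (hirr : Irreducible g) (θ : 𝓞 K) (hθ : aeval θ g = 0) (f : ℤ[X]) (hf : aeval θ f = 0) :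
    g ∣ f := by
  have hint : IsIntegral ℤ θ := ⟨g, hg, by rw [← aeval_def]; exact hθ⟩
  have h1 : minpoly ℤ θ ∣ g := (minpoly.isIntegrallyClosed_dvd_iff hint g).1 hθ
  have h2 : g ∣ minpoly ℤ θ := (minpoly.irreducible hint).dvd_symm hirr h1
  exact h2.trans ((minpoly.isIntegrallyClosed_dvd_iff hint f).1 hf)

private theorem fc_exists (M : Type) [Field M] [NumberField M] [IsGalois ℚ M] (τ : M ≃ₐ[ℚ] M)
    (h : ℤ[X]) (β : 𝓞 M) (Δ : ℕ) (hc : CycGen M τ h β Δ) (p : ℕ) (P : Ideal (𝓞 M))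
    (hP : P.IsPrime) (hpP : (p : 𝓞 M) ∈ P) (r : ℕ) (hr : (p : ℤ) ∣ h.eval (r : ℤ)) :
    ∃ s : M ≃ₐ[ℚ] M, s • β - (r : 𝓞 M) ∈ P := by
  obtain ⟨f0, hf0⟩ := (mem_lifts _).mp
    (Algebra.IsInvariant.charpoly_mem_lifts ℤ (𝓞 M) (M ≃ₐ[ℚ] M) β)
  have hf0' : f0.map (algebraMap ℤ (𝓞 M)) = MulSemiringAction.charpoly (M ≃ₐ[ℚ] M) β := hf0
  have h1 : aeval β f0 = 0 := by
    rw [← eval_map_algebraMap, hf0', MulSemiringAction.eval_charpoly]
  have h2 : h ∣ f0 := fc_dvd h hc.monic hc.irr β hc.root f0 h1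
  have h3 : (p : ℤ) ∣ f0.eval (r : ℤ) := by
    obtain ⟨g, rfl⟩ := h2
    rw [eval_mul]
    exact Dvd.dvd.mul_right hr _
  have h4 : algebraMap ℤ (𝓞 M) (f0.eval (r : ℤ)) =
      ∏ s : M ≃ₐ[ℚ] M, ((r : 𝓞 M) - s • β) := by
    have h5 : algebraMap ℤ (𝓞 M) (f0.eval (r : ℤ)) =
        (f0.map (algebraMap ℤ (𝓞 M))).eval (algebraMap ℤ (𝓞 M) (r : ℤ)) := by
      rw [eval_map, eval₂_at_apply]
    rw [h5, hf0', MulSemiringAction.charpoly_eq, eval_prod]
    apply prod_congr rfl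
    intro s _
    rw [eval_sub, eval_X, eval_C]
    simp
  have h6 : ∏ s : M ≃ₐ[ℚ] M, ((r : 𝓞 M) - s • β) ∈ P := by
    rw [← h4]
    obtain ⟨c, hc'⟩ := h3
    rw [hc', map_mul]
    apply Ideal.mul_mem_right
    simpa using hpP
  obtain ⟨s, _, hs⟩ := (Ideal.IsPrime.prod_mem_iff (p := P)).1 h6
  refine ⟨s, ?_⟩
  rw [← neg_sub]
  exact P.neg_mem hs

open Classical in
theorem frob_count_eq (M : Type) [Field M] [NumberField M] [IsGalois ℚ M] (τ : M ≃ₐ[ℚ] M) (h : ℤ[X])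
    (β : 𝓞 M) (Δ : ℕ) (hc : CycGen M τ h β Δ)
    (p : ℕ) (hp : p.Prime) (hpΔ : ¬ p ∣ Δ) (P : Ideal (𝓞 M)) (hP : P.IsPrime) (hpP : (p : 𝓞 M) ∈ P)
    (φ : M ≃ₐ[ℚ] M) (hφ : ∀ x : 𝓞 M, φ • x - x ^ p ∈ P) :
    ((Finset.univ : Finset (M ≃ₐ[ℚ] M)).filter
      (fun s => s⁻¹ * φ * s ∈ Subgroup.zpowers τ)).card = orderOf τ * rho h p := by
  refine le_antisymm (frob_count M τ h β Δ hc p hp hpΔ P hP hpP φ hφ) ?_
  set R := (range p).filter (fun r : ℕ => (p : ℤ) ∣ h.eval (r : ℤ)) with hR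
  set T := (Subgroup.zpowers τ : Set (M ≃ₐ[ℚ] M)).toFinset with hT
  have hTc : T.card = orderOf τ := by
    rw [hT, Set.toFinset_card]
    exact Fintype.card_zpowers
  have hex : ∀ r ∈ R, ∃ s : M ≃ₐ[ℚ] M, s • β - (r : 𝓞 M) ∈ P := fun r hr =>
    fc_exists M τ h β Δ hc p P hP hpP r (Finset.mem_filter.1 hr).2
  let s : ℕ → (M ≃ₐ[ℚ] M) := fun r => if hr : r ∈ R then (hex r hr).choose else 1
  have hs : ∀ r ∈ R, s r • β - (r : 𝓞 M) ∈ P := by
    intro r hr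
    have : s r = (hex r hr).choose := dif_pos hr
    rw [this]
    exact (hex r hr).choose_spec
  have hTβ : ∀ t ∈ T, t • β = β := by
    intro t ht
    rw [hc.fix]
    exact (Set.mem_toFinset.1 ht)
  have hcard : orderOf τ * rho h p = (R ×ˢ T).card := by
    rw [Finset.card_product, hTc, mul_comm]
    rfl
  rw [hcard]
  apply Finset.card_le_card_of_injOn (fun q : ℕ × (M ≃ₐ[ℚ] M) => s q.1 * q.2)
  · rintro ⟨r, t⟩ hq
    rw [Finset.mem_coe, Finset.mem_product] at hq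
    obtain ⟨hr, ht⟩ := hq
    change s r * t ∈ (Finset.univ.filter (fun s => s⁻¹ * φ * s ∈ Subgroup.zpowers τ) :
      Finset (M ≃ₐ[ℚ] M))
    refine Finset.mem_filter.2 ⟨Finset.mem_univ _, ?_⟩
    rw [← hc.fix]
    have h1 : (s r * t) • β = s r • β := by rw [mul_smul, hTβ t ht]
    have h2 : (φ * s r) • β - s r • β ∈ P := by
      have h3 := hφ (s r • β)
      have h4 : (s r • β) ^ p - (r : 𝓞 M) ^ p ∈ P := by
        obtain ⟨c, hc'⟩ := sub_dvd_pow_sub_pow (s r • β) (r : 𝓞 M) p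
        rw [hc']
        exact Ideal.mul_mem_right _ _ (hs r hr)
      have h5 : (r : 𝓞 M) ^ p - (r : 𝓞 M) ∈ P := by
        have : Fact p.Prime := ⟨hp⟩
        have h6 : (p : ℤ) ∣ (r : ℤ) ^ p - r := by
          rw [← ZMod.intCast_zmod_eq_zero_iff_dvd]
          push_cast
          rw [ZMod.pow_card, sub_self]
        obtain ⟨c, hc'⟩ := h6
        have h7 : (r : 𝓞 M) ^ p - (r : 𝓞 M) = (p : 𝓞 M) * (c : 𝓞 M) := by
          have := congrArg (Int.cast : ℤ → 𝓞 M) hc'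
          push_cast at this
          exact this
        rw [h7]
        exact Ideal.mul_mem_right _ _ hpP
      have h8 : (φ * s r) • β - s r • β = (φ • (s r • β) - (s r • β) ^ p) +
          ((s r • β) ^ p - (r : 𝓞 M) ^ p) + ((r : 𝓞 M) ^ p - (r : 𝓞 M)) -
            (s r • β - (r : 𝓞 M)) := by
        rw [mul_smul]
        ring
      rw [h8]
      exact P.sub_mem (P.add_mem (P.add_mem h3 h4) h5) (hs r hr)
    have h9 := hc.sep P p hP hp hpP hpΔ (φ * s r) (s r) h2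
    have h10 : (s r * t)⁻¹ * φ * (s r * t) = (s r * t)⁻¹ * (φ * (s r * t)) := mul_assoc _ _ _
    calc ((s r * t)⁻¹ * φ * (s r * t)) • β = (s r * t)⁻¹ • (φ • ((s r * t) • β)) := by
          rw [h10, mul_smul (s r * t)⁻¹, mul_smul φ]
      _ = (s r * t)⁻¹ • ((φ * s r) • β) := by rw [h1, mul_smul φ (s r)]
      _ = (s r * t)⁻¹ • (s r • β) := by rw [h9]
      _ = (s r * t)⁻¹ • ((s r * t) • β) := by rw [h1]
      _ = β := inv_smul_smul _ _
  · rintro ⟨r, t⟩ hq ⟨r', t'⟩ hq' heq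
    rw [Finset.mem_coe, Finset.mem_product] at hq hq'
    obtain ⟨hr, ht⟩ := hq
    obtain ⟨hr', ht'⟩ := hq'
    have heq' : s r * t = s r' * t' := heq
    have h1 : s r • β = s r' • β := by
      have h2 : (s r * t) • β = (s r' * t') • β := by rw [heq']
      rwa [mul_smul, mul_smul, hTβ t ht, hTβ t' ht'] at h2
    have h3 : ((r : ℤ) - (r' : ℤ) : ℤ) ∈ P.under ℤ := by
      rw [Ideal.under_def, Ideal.mem_comap]
      have h4 := P.sub_mem (hs r' hr') (hs r hr)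
      rw [h1] at h4
      have h5 : algebraMap ℤ (𝓞 M) ((r : ℤ) - (r' : ℤ)) =
          s r' • β - (r' : 𝓞 M) - (s r' • β - (r : 𝓞 M)) := by
        simp
      rw [h5]
      exact h4
    rw [gal3_under M P hP p hp hpP, Ideal.mem_span_singleton] at h3
    have h6 : r < p := Finset.mem_range.1 (Finset.mem_filter.1 hr).1
    have h7 : r' < p := Finset.mem_range.1 (Finset.mem_filter.1 hr').1
    have h8 : r = r' := by
      have h9 := Int.eq_zero_of_abs_lt_dvd h3 (by rw [abs_lt]; omega)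
      omega
    subst h8
    exact Prod.ext rfl (mul_left_cancel heq')

end Pool.Agent.H7.OR
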