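import Pool.Agent.H7.OR.Base

/-! Theorem A: real multiplication (weight one). -/

set_option autoImplicit false

namespace Pool.Agent.H7.OR

open Polynomial NumberField IsDedekindDomain

theorem finA {K F L : Type} [Field K] [NumberField K] [Field F] [NumberField F]
    [Field L] [NumberField L] [Algebra K L] [IsGalois K L] (σ : L ≃ₐ[K] L)
    (hF : Nat.card (F →+* L) = Module.finrank ℚ F) (f : ℕ)
    (hf : ∀ j : F →+* L, f ≤ (embOrbit σ j).ncard) (m : ℕ) (hm : 3 ≤ m)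
    (S : Set (HeightOneSpectrum (𝓞 K))) (P : HeightOneSpectrum (𝓞 K) → (𝓞 F)[X])
    (hP : IsSystem m 1 S P) (𝔫 : Ideal (𝓞 F))
    (ρ : (L ≃ₐ[K] L) →* Matrix (Fin m) (Fin m) (𝓞 F ⧸ 𝔫)) (χ : (L ≃ₐ[K] L) →* (𝓞 F ⧸ 𝔫))
    (hρ : IsModel S P 𝔫 ρ χ)
    (hR : ∀ σ' : L ≃ₐ[K] L, Subgroup.zpowers σ' = Subgroup.zpowers σ → ∀ b : 𝓞 F,
      (∀ τ : F →+* ℂ, ‖τ (b : F)‖ ≤ (m.choose 2 : ℕ)) → b ≠ ((m.choose 2 : ℕ) : 𝓞 F) →
      (ρ σ').charpoly.coeff (m - 2) ≠ χ σ' * Ideal.Quotient.mk 𝔫 b) :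
    PosDensity {v : HeightOneSpectrum (𝓞 K) | v ∉ S ∧ (plNorm v).Prime ∧
      ∃ 𝔭 : Ideal (𝓞 F), 𝔭.IsPrime ∧ ((plNorm v : ℕ) : 𝓞 F) ∈ 𝔭 ∧
        plNorm v ^ f ≤ Ideal.absNorm 𝔭 ∧ (P v).coeff (m - 2) ∉ 𝔭} := by
  obtain ⟨Δ₁, hΔ₁, hin⟩ := in_bound (K := K) (L := L) F hF
  obtain ⟨Δ₂, hΔ₂, hun⟩ := un_exists F
  have hn : 1 ≤ Δ₁ * Δ₂ * m := Nat.one_le_iff_ne_zero.2 (by positivity)
  refine base_mono ?_ (frob_density σ _ (base_bad S hP.finite (Δ₁ * Δ₂ * m)))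
  rintro v ⟨hv, hpr, Q, φ, hφ, hz⟩
  simp only [Set.mem_union, not_or, Set.mem_ofPred_eq] at hv
  obtain ⟨hvS, hvn⟩ := hv
  set p := plNorm v with hp
  have hp1 : ¬ p ∣ Δ₁ := base_not_dvd hn ⟨Δ₂ * m, by ring⟩ hvn
  have hp2 : ¬ p ∣ Δ₂ := base_not_dvd hn ⟨Δ₁ * m, by ring⟩ hvn
  have hp3 : ¬ p ∣ m := base_not_dvd hn ⟨Δ₁ * Δ₂, by ring⟩ hvn
  have hQ := base_prime_mem hφ
  have horb : ∀ j : F →+* L, f ≤ (embOrbit φ j).ncard := by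
    intro j
    have : embOrbit φ j = embOrbit σ j := by
      unfold embOrbit
      rw [hz]
    rw [this]
    exact hf j
  have hdeg := hin p hpr hp1 Q hφ.1 hQ φ hφ.2.2 f horb
  refine ⟨hvS, hpr, ?_⟩
  by_contra hcon
  push Not at hcon
  obtain ⟨hdiv, hram⟩ := hun p hpr hp2
  obtain ⟨b, hb⟩ := hdiv ((P v).coeff (m - 2)) (fun 𝔭 h𝔭 hmem =>
    hcon 𝔭 h𝔭 hmem (hdeg 𝔭 h𝔭 hmem))
  have hp0 : (0 : ℝ) < p := by exact_mod_cast hpr.pos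
  have hmon : ∀ τ : F →+* ℂ, (tmap τ (P v)).Monic := fun τ => (hP.monic v hvS).map _
  have hnd : ∀ τ : F →+* ℂ, (tmap τ (P v)).natDegree = m := by
    intro τ
    rw [tmap, (hP.monic v hvS).natDegree_map, hP.deg v hvS]
  have hroot : ∀ τ : F →+* ℂ, ∀ z, (tmap τ (P v)).IsRoot z → ‖z‖ ^ 2 = (p : ℝ) := by
    intro τ z hz
    have := hP.pure v hvS τ z hz
    rwa [pow_one] at this
  have hbτ : ∀ τ : F →+* ℂ, ‖τ (b : F)‖ ≤ (m.choose 2 : ℕ) := by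
    intro τ
    have h1 := base_coeff (tmap τ (P v)) (hmon τ) (Real.sqrt p) (fun z hz => by
      rw [← hroot τ z hz, Real.sqrt_sq (norm_nonneg _)]) (m - 2)
    rw [hnd τ, tmap_coeff, hb] at h1
    have h2 : m - (m - 2) = 2 := by omega
    rw [h2, Real.sq_sqrt hp0.le, Nat.choose_symm (by omega : 2 ≤ m)] at h1
    have h3 : (((p : 𝓞 F) * b : 𝓞 F) : F) = (p : F) * (b : F) := by simp
    rw [h3, map_mul, norm_mul, map_natCast, Complex.norm_natCast] at h1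
    exact le_of_mul_le_mul_left h1 hp0
  have hbC : b = ((m.choose 2 : ℕ) : 𝓞 F) := by
    by_contra hne
    apply hR φ hz b hbτ hne
    rw [← hρ.poly v hvS Q φ hφ, coeff_map, hb, map_mul, hρ.cyc v hvS Q φ hφ, map_natCast]
  have hsq : (P v).coeff (m - 1) ^ 2 = (m : 𝓞 F) ^ 2 * p := by
    obtain ⟨τ⟩ : Nonempty (F →+* ℂ) := inferInstance
    have h1 := cx_pair (tmap τ (P v)) (hmon τ) m (hnd τ) hm (p : ℝ) hp0 (hroot τ) (by
      rw [tmap_coeff, hb, hbC]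
      simp
      ring)
    rw [tmap_coeff] at h1
    have hinj : Function.Injective (fun x : 𝓞 F => τ (x : F)) :=
      τ.injective.comp RingOfIntegers.coe_injective
    apply hinj
    simp only
    rw [show (((P v).coeff (m - 1) ^ 2 : 𝓞 F) : F) = (((P v).coeff (m - 1) : 𝓞 F) : F) ^ 2 by simp,
      map_pow, h1]
    simp
  exact un_sq F p m hpr hp3 hram _ hsq

end Pool.Agent.H7.OR
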