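import Pool.Agent.H7.OR.Base

/-! Theorem B: real multiplication, K3 type (weight two). -/

set_option autoImplicit false

namespace Pool.Agent.H7.OR

open Polynomial NumberField IsDedekindDomain

theorem finB {K F L : Type} [Field K] [NumberField K] [Field F] [NumberField F]
    [Field L] [NumberField L] [Algebra K L] [IsGalois K L] (σ : L ≃ₐ[K] L)
    (hF : Nat.card (F →+* L) = Module.finrank ℚ F) (f : ℕ)
    (hf : ∀ j : F →+* L, f ≤ (embOrbit σ j).ncard) (m : ℕ) (hm : 1 ≤ m)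
    (S : Set (HeightOneSpectrum (𝓞 K))) (P : HeightOneSpectrum (𝓞 K) → (𝓞 F)[X])
    (hP : IsSystem m 2 S P) (𝔫 : Ideal (𝓞 F))
    (ρ : (L ≃ₐ[K] L) →* Matrix (Fin m) (Fin m) (𝓞 F ⧸ 𝔫)) (χ : (L ≃ₐ[K] L) →* (𝓞 F ⧸ 𝔫))
    (hρ : IsModel S P 𝔫 ρ χ)
    (hR : ∀ σ' : L ≃ₐ[K] L, Subgroup.zpowers σ' = Subgroup.zpowers σ →
      (∀ b : 𝓞 F, (∀ τ : F →+* ℂ, ‖τ (b : F)‖ ≤ m) → b ≠ (m : 𝓞 F) →
        (ρ σ').trace ≠ χ σ' * Ideal.Quotient.mk 𝔫 b) ∧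
      (ρ σ').charpoly ≠ (X - C (χ σ')) ^ m) :
    PosDensity {v : HeightOneSpectrum (𝓞 K) | v ∉ S ∧ (plNorm v).Prime ∧
      ∃ 𝔭 : Ideal (𝓞 F), 𝔭.IsPrime ∧ ((plNorm v : ℕ) : 𝓞 F) ∈ 𝔭 ∧
        plNorm v ^ f ≤ Ideal.absNorm 𝔭 ∧ (P v).coeff (m - 1) ∉ 𝔭} := by
  obtain ⟨Δ₁, hΔ₁, hin⟩ := in_bound (K := K) (L := L) F hF
  obtain ⟨Δ₂, hΔ₂, hun⟩ := un_exists F
  have hn : 1 ≤ Δ₁ * Δ₂ := Nat.one_le_iff_ne_zero.2 (by positivity)
  refine base_mono ?_ (frob_density σ _ (base_bad S hP.finite (Δ₁ * Δ₂)))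
  rintro v ⟨hv, hpr, Q, φ, hφ, hz⟩
  simp only [Set.mem_union, not_or, Set.mem_ofPred_eq] at hv
  obtain ⟨hvS, hvn⟩ := hv
  set p := plNorm v with hp
  have hp1 : ¬ p ∣ Δ₁ := base_not_dvd hn ⟨Δ₂, by ring⟩ hvn
  have hp2 : ¬ p ∣ Δ₂ := base_not_dvd hn ⟨Δ₁, by ring⟩ hvn
  have hQ := base_prime_mem hφ
  have horb : ∀ j : F →+* L, f ≤ (embOrbit φ j).ncard := by
    intro j
    have : embOrbit φ j = embOrbit σ j := by
      unfold embOrbit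
      rw [hz]
    rw [this]
    exact hf j
  have hdeg := hin p hpr hp1 Q hφ.1 hQ φ hφ.2.2 f horb
  refine ⟨hvS, hpr, ?_⟩
  by_contra hcon
  push Not at hcon
  obtain ⟨hdiv, -⟩ := hun p hpr hp2
  obtain ⟨b', hb'⟩ := hdiv ((P v).coeff (m - 1)) (fun 𝔭 h𝔭 hmem =>
    hcon 𝔭 h𝔭 hmem (hdeg 𝔭 h𝔭 hmem))
  obtain ⟨b, hbb⟩ : ∃ b : 𝓞 F, b' = -b := ⟨-b', by ring⟩
  have hb : (P v).coeff (m - 1) = -((p : 𝓞 F) * b) := by rw [hb', hbb]; ring
  have hp0 : (0 : ℝ) < p := by exact_mod_cast hpr.pos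
  have hmon : ∀ τ : F →+* ℂ, (tmap τ (P v)).Monic := fun τ => (hP.monic v hvS).map _
  have hnd : ∀ τ : F →+* ℂ, (tmap τ (P v)).natDegree = m := by
    intro τ
    rw [tmap, (hP.monic v hvS).natDegree_map, hP.deg v hvS]
  have hroot : ∀ τ : F →+* ℂ, ∀ z, (tmap τ (P v)).IsRoot z → ‖z‖ = (p : ℝ) := by
    intro τ z hz
    have := hP.pure v hvS τ z hz
    exact (pow_left_inj₀ (norm_nonneg _) hp0.le two_ne_zero).1 this
  have hcb : ∀ τ : F →+* ℂ, τ (((p : 𝓞 F) * b : 𝓞 F) : F) = (p : ℂ) * τ (b : F) := by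
    intro τ
    have h3 : (((p : 𝓞 F) * b : 𝓞 F) : F) = (p : F) * (b : F) := by simp
    rw [h3, map_mul, map_natCast]
  have hcneg : ∀ τ : F →+* ℂ, τ (((P v).coeff (m - 1) : 𝓞 F) : F) = -((p : ℂ) * τ (b : F)) := by
    intro τ
    rw [hb, ← hcb τ, ← map_neg]
    congr 1
  have hbτ : ∀ τ : F →+* ℂ, ‖τ (b : F)‖ ≤ m := by
    intro τ
    have h1 := base_coeff (tmap τ (P v)) (hmon τ) p (fun z hz => (hroot τ z hz).le) (m - 1)
    rw [hnd τ, tmap_coeff, hcneg τ] at h1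
    have h2 : m - (m - 1) = 1 := by omega
    have h4 : m.choose (m - 1) = m := by
      rw [Nat.choose_symm (by omega : 1 ≤ m), Nat.choose_one_right]
    rw [h2, pow_one, h4, norm_neg, norm_mul, Complex.norm_natCast] at h1
    exact le_of_mul_le_mul_left h1 hp0
  have htr : (ρ φ).trace = χ φ * Ideal.Quotient.mk 𝔫 b := by
    by_cases hnt : Nontrivial (𝓞 F ⧸ 𝔫)
    · have : Nonempty (Fin m) := ⟨⟨0, hm⟩⟩
      rw [Matrix.trace_eq_neg_charpoly_coeff, Fintype.card_fin, ← hρ.poly v hvS Q φ hφ, coeff_map, hb,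
        hρ.cyc v hvS Q φ hφ, map_neg, map_mul, map_natCast, neg_neg]
    · rw [not_nontrivial_iff_subsingleton] at hnt
      exact Subsingleton.elim _ _
  have hbC : b = (m : 𝓞 F) := by
    by_contra hne
    exact (hR φ hz).1 b hbτ hne htr
  have hPv : P v = (X - C (p : 𝓞 F)) ^ m := by
    obtain ⟨τ⟩ : Nonempty (F →+* ℂ) := inferInstance
    have h1 := cx_lin (tmap τ (P v)) (hmon τ) m (hnd τ) hm (p : ℝ) hp0.le (hroot τ) (by
      rw [tmap_coeff, hcneg τ, hbC]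
      simp
      ring)
    have hinj : Function.Injective (τ.comp (algebraMap (𝓞 F) F)) :=
      τ.injective.comp RingOfIntegers.coe_injective
    apply map_injective _ hinj
    change tmap τ (P v) = _
    rw [h1]
    simp
  apply (hR φ hz).2
  rw [← hρ.poly v hvS Q φ hφ, hPv, hρ.cyc v hvS Q φ hφ]
  simp
  rfl

end Pool.Agent.H7.OR
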