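import Pool.Agent.H7.OR.Base2

/-! Theorem C: coefficients in a CM field, first coefficient (weight one). -/

set_option autoImplicit false

namespace Pool.Agent.H7.OR

open Polynomial NumberField IsDedekindDomain

theorem finC {K E F L : Type} [Field K] [NumberField K] [Field E] [NumberField E]
    [Field F] [NumberField F] [Algebra F E] [Field L] [NumberField L] [Algebra K L] [IsGalois K L]
    (ι : E →+* E) (hι : ∀ (τ : E →+* ℂ) (x : E), τ (ι x) = (starRingEnd ℂ) (τ x))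
    (hfix : ∀ x : E, ι x = x → ∃ y : F, algebraMap F E y = x)
    (σ : L ≃ₐ[K] L) (hF : Nat.card (F →+* L) = Module.finrank ℚ F)
    (hσ : ∀ i j : F →+* L, i ∈ embOrbit σ j) (m : ℕ) (hm : 1 ≤ m)
    (S : Set (HeightOneSpectrum (𝓞 K))) (P : HeightOneSpectrum (𝓞 K) → (𝓞 E)[X])
    (hP : IsSystem m 1 S P) (N : ℕ) (hN : m ^ 2 < N)
    (ρ : (L ≃ₐ[K] L) →* Matrix (Fin m) (Fin m) (𝓞 E ⧸ Ideal.span {(N : 𝓞 E)}))
    (χ : (L ≃ₐ[K] L) →* (𝓞 E ⧸ Ideal.span {(N : 𝓞 E)}))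
    (hρ : IsModel S P (Ideal.span {(N : 𝓞 E)}) ρ χ) (hρσ : ρ σ = 1) (hχσ : χ σ = 1)
    (hdet : ∀ v, v ∉ S → (plNorm v).Prime → ∀ 𝔓 : Ideal (𝓞 E), 𝔓.IsPrime →
      ((plNorm v : ℕ) : 𝓞 E) ∈ 𝔓 → (P v).coeff 0 ∉ 𝔓 ^ m) :
    PosDensity {v : HeightOneSpectrum (𝓞 K) | v ∉ S ∧ (plNorm v).Prime ∧
      ∀ 𝔓 : Ideal (𝓞 E), 𝔓.IsPrime → ((plNorm v : ℕ) : 𝓞 E) ∈ 𝔓 →
        (P v).coeff (m - 1) ∉ 𝔓} := by
  obtain ⟨Δ₁, hΔ₁, hin⟩ := in_bound (K := K) (L := L) F hF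
  have hn : 1 ≤ Δ₁ * m := Nat.one_le_iff_ne_zero.2 (by positivity)
  refine base_mono ?_ (frob_density σ _ (base_bad S hP.finite (Δ₁ * m)))
  rintro v ⟨hv, hpr, Q, φ, hφ, hz⟩
  simp only [Set.mem_union, not_or, Set.mem_ofPred_eq] at hv
  obtain ⟨hvS, hvn⟩ := hv
  have hdetv := hdet v hvS hpr
  have hcyc := hρ.cyc v hvS Q φ hφ
  have hpoly := hρ.poly v hvS Q φ hφ
  set p := plNorm v with hp
  have hp1 : ¬ p ∣ Δ₁ := base_not_dvd hn ⟨m, by ring⟩ hvn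
  have hp3 : ¬ p ∣ m := base_not_dvd hn ⟨Δ₁, by ring⟩ hvn
  have hQ := base_prime_mem hφ
  have hfull : ∀ j : F →+* L, embOrbit φ j = Set.univ := by
    intro j
    have h0 : embOrbit φ j = embOrbit σ j := by
      unfold embOrbit
      rw [hz]
    rw [h0]
    exact Set.eq_univ_of_forall fun i => hσ i j
  have horb : ∀ j : F →+* L, Module.finrank ℚ F ≤ (embOrbit φ j).ncard := by
    intro j
    rw [hfull j, Set.ncard_univ, hF]
  have hdeg := hin p hpr hp1 Q hφ.1 hQ φ hφ.2.2 _ horb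
  refine ⟨hvS, hpr, ?_⟩
  intro 𝔓 h𝔓 h𝔓p hc
  set c := (P v).coeff (m - 1) with hcdef
  have hρφ : ρ φ = 1 := base_gen ρ σ φ hz hρσ
  have hχφ : χ φ = 1 := base_gen χ σ φ hz hχσ
  have hp0 : (0 : ℝ) < p := by exact_mod_cast hpr.pos
  -- the conjugate of `c`
  have hιint : IsIntegral ℤ (ι (c : E)) :=
    (RingOfIntegers.isIntegral_coe c).map (ι.toIntAlgHom)
  set c' : 𝓞 E := ⟨ι (c : E), hιint⟩ with hc'
  have hc'c : (c' : E) = ι (c : E) := rfl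
  -- involution
  have hinv : ∀ x : E, ι (ι x) = x := by
    intro x
    obtain ⟨τ⟩ : Nonempty (E →+* ℂ) := inferInstance
    apply τ.injective
    rw [hι, hι, Complex.conj_conj]
  obtain ⟨y, hy⟩ := hfix ((c : E) * ι (c : E)) (by rw [map_mul, hinv, mul_comm])
  obtain ⟨t, ht⟩ := base_down (c * c') y (by rw [hy]; simp [hc'c])
  -- `t` is divisible by `p`
  let f : 𝓞 F →+* 𝓞 E := RingOfIntegers.mapRingHom (algebraMap F E)
  have hf : ∀ x : 𝓞 F, ((f x : 𝓞 E) : E) = algebraMap F E (x : F) := fun x => rfl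
  have hft : f t = c * c' := by
    apply RingOfIntegers.ext
    rw [hf, ht]
  have h𝔮 : (Ideal.comap f 𝔓).IsPrime := Ideal.comap_isPrime f 𝔓
  have h𝔮p : (p : 𝓞 F) ∈ Ideal.comap f 𝔓 := by
    rw [Ideal.mem_comap, map_natCast]
    exact h𝔓p
  have ht𝔮 : t ∈ Ideal.comap f 𝔓 := by
    rw [Ideal.mem_comap, hft]
    exact 𝔓.mul_mem_right _ hc
  obtain ⟨b, hb⟩ := base_inert p hpr _ h𝔮p (hdeg _ h𝔮 h𝔮p) t ht𝔮
  have hmon : ∀ τ : E →+* ℂ, (tmap τ (P v)).Monic := fun τ => (hP.monic v hvS).map _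
  have hnd : ∀ τ : E →+* ℂ, (tmap τ (P v)).natDegree = m := by
    intro τ
    rw [tmap, (hP.monic v hvS).natDegree_map, hP.deg v hvS]
  have hroot : ∀ τ : E →+* ℂ, ∀ z, (tmap τ (P v)).IsRoot z → ‖z‖ ^ 2 = (p : ℝ) := by
    intro τ z hz
    have := hP.pure v hvS τ z hz
    rwa [pow_one] at this
  have hcτ : ∀ τ : E →+* ℂ, ‖τ (c : E)‖ ^ 2 ≤ (m : ℝ) ^ 2 * p := by
    intro τ
    have h1 := base_coeff (tmap τ (P v)) (hmon τ) (Real.sqrt p) (fun z hz => by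
      rw [← hroot τ z hz, Real.sqrt_sq (norm_nonneg _)]) (m - 1)
    rw [hnd τ, tmap_coeff] at h1
    have h2 : m - (m - 1) = 1 := by omega
    have h4 : m.choose (m - 1) = m := by
      rw [Nat.choose_symm (by omega : 1 ≤ m), Nat.choose_one_right]
    rw [h2, pow_one, h4] at h1
    calc ‖τ (c : E)‖ ^ 2 ≤ (Real.sqrt p * m) ^ 2 := pow_le_pow_left₀ (norm_nonneg _) h1 2
      _ = (m : ℝ) ^ 2 * p := by rw [mul_pow, Real.sq_sqrt hp0.le]; ring
  -- conjugates of `f b`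
  have hbτ : ∀ τ : E →+* ℂ, τ ((f b : 𝓞 E) : E) * p = ((‖τ (c : E)‖ ^ 2 : ℝ) : ℂ) := by
    intro τ
    have h1 : τ ((f t : 𝓞 E) : E) = τ ((f b : 𝓞 E) : E) * p := by
      rw [hb, map_mul]
      simp
      ring
    rw [← h1, hft]
    have h2 : ((c * c' : 𝓞 E) : E) = (c : E) * ι (c : E) := by simp [hc'c]
    rw [h2, map_mul, hι, Complex.mul_conj, Complex.normSq_eq_norm_sq]
  have hdiv1 : (N : 𝓞 E) ∣ c + (m : 𝓞 E) := by
    rw [← Ideal.mem_span_singleton, ← Ideal.Quotient.eq_zero_iff_mem, map_add, map_natCast]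
    have h1 := congrArg (fun q => Polynomial.coeff q (m - 1)) hpoly
    simp only [coeff_map] at h1
    rw [hρφ, base_one] at h1
    have h2 : m - (m - 1) = 1 := by omega
    have h4 : m.choose (m - 1) = m := by
      rw [Nat.choose_symm (by omega : 1 ≤ m), Nat.choose_one_right]
    rw [h2, h4] at h1
    rw [hcdef, h1]
    ring
  have hdiv2 : (N : 𝓞 E) ∣ c' + (m : 𝓞 E) := by
    obtain ⟨d, hd⟩ := hdiv1
    have hdint : IsIntegral ℤ (ι (d : E)) := (RingOfIntegers.isIntegral_coe d).map (ι.toIntAlgHom)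
    obtain ⟨d', hd'⟩ : ∃ d' : 𝓞 E, (d' : E) = ι (d : E) := ⟨⟨ι (d : E), hdint⟩, rfl⟩
    refine ⟨d', ?_⟩
    apply RingOfIntegers.ext
    have h1 := congrArg (fun z : 𝓞 E => ι (z : E)) hd
    have e1 : ((c + (m : 𝓞 E) : 𝓞 E) : E) = (c : E) + (m : E) := by simp
    have e2 : (((N : 𝓞 E) * d : 𝓞 E) : E) = (N : E) * (d : E) := by simp
    rw [e1, e2, map_add, map_mul, map_natCast, map_natCast] at h1
    have e3 : ((c' + (m : 𝓞 E) : 𝓞 E) : E) = ι (c : E) + (m : E) := by simp [hc'c]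
    have e4 : (((N : 𝓞 E) * d' : 𝓞 E) : E) = (N : E) * ι (d : E) := by simp [hd']
    rw [e3, h1, e4]
  have hdiv3 : (N : 𝓞 E) ∣ (p : 𝓞 E) - 1 := by
    rw [← Ideal.mem_span_singleton, ← Ideal.Quotient.eq_zero_iff_mem, map_sub, map_natCast, map_one,
      ← hcyc, hχφ, sub_self]
  have hdivb : (N : 𝓞 E) ∣ f b - (m : 𝓞 E) ^ 2 := by
    have h1 : f b - (m : 𝓞 E) ^ 2 = (c + m) * c' - m * (c' + m) - (p - 1) * f b := by
      have h2 : (p : 𝓞 E) * f b = c * c' := by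
        rw [← hft, hb, map_mul, map_natCast]
      linear_combination h2
    rw [h1]
    exact dvd_sub (dvd_sub (hdiv1.mul_right _) (hdiv2.mul_left _)) (hdiv3.mul_right _)
  have hbm : f b - (m : 𝓞 E) ^ 2 = 0 := by
    apply un_small E N _ hdivb
    intro τ
    have h1 := hbτ τ
    have hpC : (p : ℂ) ≠ 0 := by exact_mod_cast hpr.ne_zero
    have h2 : τ ((f b : 𝓞 E) : E) = ((‖τ (c : E)‖ ^ 2 / p : ℝ) : ℂ) := by
      rw [Complex.ofReal_div, ← h1, Complex.ofReal_natCast, mul_div_cancel_right₀ _ hpC]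
    have h3 : τ ((f b - (m : 𝓞 E) ^ 2 : 𝓞 E) : E) = ((‖τ (c : E)‖ ^ 2 / p - (m : ℝ) ^ 2 : ℝ) : ℂ) := by
      have : ((f b - (m : 𝓞 E) ^ 2 : 𝓞 E) : E) = ((f b : 𝓞 E) : E) - (m : E) ^ 2 := by simp
      rw [this, map_sub, h2]
      simp
    rw [h3, Complex.norm_real, Real.norm_eq_abs, abs_lt]
    have h4 : 0 ≤ ‖τ (c : E)‖ ^ 2 / p := by positivity
    have h5 : ‖τ (c : E)‖ ^ 2 / p ≤ (m : ℝ) ^ 2 := by
      rw [div_le_iff₀ hp0]
      exact hcτ τ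
    have h6 : (m : ℝ) ^ 2 < N := by exact_mod_cast hN
    have h7 : 0 ≤ (m : ℝ) ^ 2 := by positivity
    constructor <;> linarith
  have hfb : f b = (m : 𝓞 E) ^ 2 := by linear_combination hbm
  have hpow : (m : 𝓞 E) ^ m * (P v).coeff 0 = c ^ m := by
    obtain ⟨τ⟩ : Nonempty (E →+* ℂ) := inferInstance
    have h0 : ‖τ (c : E)‖ ^ 2 = (m : ℝ) ^ 2 * p := by
      have h1 := hbτ τ
      rw [hfb] at h1
      have h2 : (((m : ℝ) ^ 2 * p : ℝ) : ℂ) = ((‖τ (c : E)‖ ^ 2 : ℝ) : ℂ) := by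
        rw [← h1]
        simp
      exact (Complex.ofReal_injective h2).symm
    have h1 := cx_all (tmap τ (P v)) (hmon τ) m (hnd τ) hm (p : ℝ) hp0.le (hroot τ) (by
      rw [tmap_coeff]
      exact h0)
    rw [tmap_coeff, tmap_coeff] at h1
    have hinj : Function.Injective (fun x : 𝓞 E => τ (x : E)) :=
      τ.injective.comp RingOfIntegers.coe_injective
    apply hinj
    simp only
    have e1 : (((m : 𝓞 E) ^ m * (P v).coeff 0 : 𝓞 E) : E) = (m : E) ^ m * (((P v).coeff 0 : 𝓞 E) : E) := by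
      simp
    have e2 : ((c ^ m : 𝓞 E) : E) = (c : E) ^ m := by simp
    rw [e1, e2, map_mul, map_pow, map_pow, map_natCast]
    exact h1
  apply hdetv 𝔓 h𝔓 h𝔓p
  have hcop : IsCoprime ((m : ℤ) ^ m) ((p : ℤ) ^ m) := by
    apply IsCoprime.pow
    rw [Nat.isCoprime_iff_coprime]
    exact ((Nat.Prime.coprime_iff_not_dvd hpr).2 hp3).symm
  obtain ⟨a, a', haa⟩ := hcop
  have h1 : (P v).coeff 0 = (a : 𝓞 E) * c ^ m + (a' : 𝓞 E) * (p : 𝓞 E) ^ m * (P v).coeff 0 := by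
    have h2 := congrArg (fun z : ℤ => (z : 𝓞 E)) haa
    simp only [Int.cast_add, Int.cast_mul, Int.cast_pow, Int.cast_natCast, Int.cast_one] at h2
    rw [← hpow]
    linear_combination (-(P v).coeff 0) * h2
  rw [h1]
  refine Ideal.add_mem _ (Ideal.mul_mem_left _ _ (Ideal.pow_mem_pow hc m)) ?_
  exact Ideal.mul_mem_right _ _ (Ideal.mul_mem_left _ _ (Ideal.pow_mem_pow h𝔓p m))

end Pool.Agent.H7.OR
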