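import Pool.Agent.H7.OR.Base2

/-! Theorem D: coefficients in a CM field, rank four, second coefficient (weight one). -/

set_option autoImplicit false

namespace Pool.Agent.H7.OR

open Polynomial NumberField IsDedekindDomain

theorem finD {K E F L : Type} [Field K] [NumberField K] [Field E] [NumberField E]
    [Field F] [NumberField F] [Algebra F E] [Field L] [NumberField L] [Algebra K L] [IsGalois K L]
    (ι : E →+* E) (hι : ∀ (τ : E →+* ℂ) (x : E), τ (ι x) = (starRingEnd ℂ) (τ x))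
    (hfix : ∀ x : E, ι x = x → ∃ y : F, algebraMap F E y = x)
    (σ : L ≃ₐ[K] L) (hF : Nat.card (F →+* L) = Module.finrank ℚ F)
    (hσ : ∀ i j : F →+* L, i ∈ embOrbit σ j)
    (S : Set (HeightOneSpectrum (𝓞 K))) (P : HeightOneSpectrum (𝓞 K) → (𝓞 E)[X])
    (hP : IsSystem 4 1 S P) (N : ℕ) (hN : 12 < N)
    (ρ : (L ≃ₐ[K] L) →* Matrix (Fin 4) (Fin 4) (𝓞 E ⧸ Ideal.span {(N : 𝓞 E)}))
    (χ : (L ≃ₐ[K] L) →* (𝓞 E ⧸ Ideal.span {(N : 𝓞 E)}))
    (hρ : IsModel S P (Ideal.span {(N : 𝓞 E)}) ρ χ) (hρσ : ρ σ = 1) (hχσ : χ σ = 1)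
    (hdet : ∀ v, v ∉ S → (plNorm v).Prime →
      Associated ((P v).coeff 0) (((plNorm v : ℕ) : 𝓞 E) ^ 2)) :
    PosDensity {v : HeightOneSpectrum (𝓞 K) | v ∉ S ∧ (plNorm v).Prime ∧
      ∀ 𝔓 : Ideal (𝓞 E), 𝔓.IsPrime → ((plNorm v : ℕ) : 𝓞 E) ∈ 𝔓 →
        (P v).coeff 2 ∉ 𝔓} := by
  obtain ⟨Δ₁, hΔ₁, hin⟩ := in_bound (K := K) (L := L) F hF
  obtain ⟨Δ₂, hΔ₂, hun⟩ := un_exists E
  have hn : 1 ≤ Δ₁ * Δ₂ * 4 := Nat.one_le_iff_ne_zero.2 (by positivity)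
  refine base_mono ?_ (frob_density σ _ (base_bad S hP.finite (Δ₁ * Δ₂ * 4)))
  rintro v ⟨hv, hpr, Q, φ, hφ, hz⟩
  simp only [Set.mem_union, not_or, Set.mem_ofPred_eq] at hv
  obtain ⟨hvS, hvn⟩ := hv
  have hdetv := hdet v hvS hpr
  have hcyc := hρ.cyc v hvS Q φ hφ
  have hpoly := hρ.poly v hvS Q φ hφ
  set p := plNorm v with hp
  have hp1 : ¬ p ∣ Δ₁ := base_not_dvd hn ⟨Δ₂ * 4, by ring⟩ hvn
  have hp2 : ¬ p ∣ Δ₂ := base_not_dvd hn ⟨Δ₁ * 4, by ring⟩ hvn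
  have hp3 : ¬ p ∣ 4 := base_not_dvd hn ⟨Δ₁ * Δ₂, by ring⟩ hvn
  have hQ := base_prime_mem hφ
  have hfull : ∀ j : F →+* L, embOrbit φ j = Set.univ := by
    intro j
    have h0 : embOrbit φ j = embOrbit σ j := by
      unfold embOrbit
      rw [hz]
    rw [h0]
    exact Set.eq_univ_of_forall fun i => hσ i j
  have horb : ∀ j : F →+* L, Module.finrank ℚ F ≤ (embOrbit φ j).ncard := by
    intro j
    rw [hfull j, Set.ncard_univ, hF]
  have hdeg := hin p hpr hp1 Q hφ.1 hQ φ hφ.2.2 _ horb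
  refine ⟨hvS, hpr, ?_⟩
  intro 𝔓 h𝔓 h𝔓p hc
  set c := (P v).coeff 2 with hcdef
  have hρφ : ρ φ = 1 := base_gen ρ σ φ hz hρσ
  have hχφ : χ φ = 1 := base_gen χ σ φ hz hχσ
  have hp0 : (0 : ℝ) < p := by exact_mod_cast hpr.pos
  -- the conjugate of `c`
  have hιint : IsIntegral ℤ (ι (c : E)) :=
    (RingOfIntegers.isIntegral_coe c).map (ι.toIntAlgHom)
  set c' : 𝓞 E := ⟨ι (c : E), hιint⟩ with hc'
  have hc'c : (c' : E) = ι (c : E) := rfl
  -- involution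
  have hinv : ∀ x : E, ι (ι x) = x := by
    intro x
    obtain ⟨τ⟩ : Nonempty (E →+* ℂ) := inferInstance
    apply τ.injective
    rw [hι, hι, Complex.conj_conj]
  obtain ⟨y, hy⟩ := hfix ((c : E) * ι (c : E)) (by rw [map_mul, hinv, mul_comm])
  obtain ⟨t, ht⟩ := base_down (c * c') y (by rw [hy]; simp [hc'c])
  -- `t` is divisible by `p`
  let f : 𝓞 F →+* 𝓞 E := RingOfIntegers.mapRingHom (algebraMap F E)
  have hf : ∀ x : 𝓞 F, ((f x : 𝓞 E) : E) = algebraMap F E (x : F) := fun x => rfl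
  have hft : f t = c * c' := by
    apply RingOfIntegers.ext
    rw [hf, ht]
  have h𝔮 : (Ideal.comap f 𝔓).IsPrime := Ideal.comap_isPrime f 𝔓
  have h𝔮p : (p : 𝓞 F) ∈ Ideal.comap f 𝔓 := by
    rw [Ideal.mem_comap, map_natCast]
    exact h𝔓p
  have ht𝔮 : t ∈ Ideal.comap f 𝔓 := by
    rw [Ideal.mem_comap, hft]
    exact 𝔓.mul_mem_right _ hc
  obtain ⟨b₀, hb₀⟩ := base_inert p hpr _ h𝔮p (hdeg _ h𝔮 h𝔮p) t ht𝔮
  have hmon : ∀ τ : E →+* ℂ, (tmap τ (P v)).Monic := fun τ => (hP.monic v hvS).map _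
  have hnd : ∀ τ : E →+* ℂ, (tmap τ (P v)).natDegree = 4 := by
    intro τ
    rw [tmap, (hP.monic v hvS).natDegree_map, hP.deg v hvS]
  have hroot : ∀ τ : E →+* ℂ, ∀ z, (tmap τ (P v)).IsRoot z → ‖z‖ ^ 2 = (p : ℝ) := by
    intro τ z hz
    have := hP.pure v hvS τ z hz
    rwa [pow_one] at this
  obtain ⟨u, hu⟩ := hdetv
  -- duality: `c' = u * c`
  have hdual : c' = (u : 𝓞 E) * c := by
    obtain ⟨τ⟩ : Nonempty (E →+* ℂ) := inferInstance
    have h1 := cx_dual (tmap τ (P v)) (hmon τ) (hnd τ) (p : ℝ) hp0 (hroot τ)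
    rw [tmap_coeff, tmap_coeff, ← hι] at h1
    have hinj : Function.Injective (fun x : 𝓞 E => τ (x : E)) :=
      τ.injective.comp RingOfIntegers.coe_injective
    have h2 : c' * (P v).coeff 0 = (p : 𝓞 E) ^ 2 * c := by
      apply hinj
      simp only
      have e1 : ((c' * (P v).coeff 0 : 𝓞 E) : E) = ι (c : E) * (((P v).coeff 0 : 𝓞 E) : E) := by
        simp [hc'c]
      have e2 : (((p : 𝓞 E) ^ 2 * c : 𝓞 E) : E) = (p : E) ^ 2 * (c : E) := by simp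
      rw [e1, e2, map_mul, map_mul, map_pow, map_natCast]
      exact h1
    rw [← hu] at h2
    have h3 : (P v).coeff 0 * (c' - (u : 𝓞 E) * c) = 0 := by linear_combination h2
    rcases mul_eq_zero.1 h3 with h4 | h4
    · exfalso
      rw [h4, zero_mul] at hu
      have h5 : (p : 𝓞 E) = 0 := by
        have := hu.symm
        exact pow_eq_zero_iff (two_ne_zero) |>.1 this
      exact hpr.ne_zero (by exact_mod_cast h5)
    · exact sub_eq_zero.1 h4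
  obtain ⟨hdiv, hram⟩ := hun p hpr hp2
  obtain ⟨b, hb⟩ := hdiv c (fun 𝔓' h𝔓' hmem => by
    have h1 : c * c' ∈ 𝔓' := by
      rw [← hft, hb₀, map_mul, map_natCast]
      exact 𝔓'.mul_mem_right _ hmem
    rw [hdual] at h1
    have h2 : (c * ((u : 𝓞 E) * c)) = (u : 𝓞 E) * c ^ 2 := by ring
    rw [h2] at h1
    rcases h𝔓'.mem_or_mem h1 with h3 | h3
    · exact absurd (Ideal.eq_top_of_isUnit_mem _ h3 u.isUnit) h𝔓'.ne_top
    · exact h𝔓'.mem_of_pow_mem 2 h3)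
  have hbτ : ∀ τ : E →+* ℂ, ‖τ (b : E)‖ ≤ 6 := by
    intro τ
    have h1 := base_coeff (tmap τ (P v)) (hmon τ) (Real.sqrt p) (fun z hz => by
      rw [← hroot τ z hz, Real.sqrt_sq (norm_nonneg _)]) 2
    rw [hnd τ, tmap_coeff, ← hcdef, hb] at h1
    have h4 : Nat.choose 4 2 = 6 := rfl
    rw [show (4 - 2 : ℕ) = 2 from rfl, Real.sq_sqrt hp0.le, h4] at h1
    have h3 : (((p : 𝓞 E) * b : 𝓞 E) : E) = (p : E) * (b : E) := by simp
    rw [h3, map_mul, norm_mul, map_natCast, Complex.norm_natCast] at h1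
    have := le_of_mul_le_mul_left h1 hp0
    simpa using this
  have hdiv1 : (N : 𝓞 E) ∣ c - ((6 : ℕ) : 𝓞 E) := by
    rw [← Ideal.mem_span_singleton, ← Ideal.Quotient.eq_zero_iff_mem, map_sub, map_natCast]
    have h1 := congrArg (fun q => Polynomial.coeff q 2) hpoly
    simp only [coeff_map] at h1
    rw [hρφ, base_one] at h1
    have h4 : Nat.choose 4 2 = 6 := rfl
    rw [show (4 - 2 : ℕ) = 2 from rfl, h4] at h1
    rw [hcdef, h1]
    ring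
  have hdiv3 : (N : 𝓞 E) ∣ (p : 𝓞 E) - 1 := by
    rw [← Ideal.mem_span_singleton, ← Ideal.Quotient.eq_zero_iff_mem, map_sub, map_natCast, map_one,
      ← hcyc, hχφ, sub_self]
  have hb6 : b - ((6 : ℕ) : 𝓞 E) = 0 := by
    apply un_small E N
    · have h1 : b - ((6 : ℕ) : 𝓞 E) = (c - ((6 : ℕ) : 𝓞 E)) - ((p : 𝓞 E) - 1) * b := by
        rw [hb]; ring
      rw [h1]
      exact dvd_sub hdiv1 (hdiv3.mul_right _)
    · intro τ
      rw [base_sub_cast b 6, map_sub, map_natCast]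
      have h3 := norm_sub_le (τ (b : E)) ((6 : ℕ) : ℂ)
      have h5 : ‖((6 : ℕ) : ℂ)‖ = 6 := by simp
      have h6 := hbτ τ
      have h7 : (12 : ℝ) < N := by exact_mod_cast hN
      linarith
  have hb6' : b = ((6 : ℕ) : 𝓞 E) := sub_eq_zero.1 hb6
  have hsq : (P v).coeff 3 ^ 2 = ((4 : ℕ) : 𝓞 E) ^ 2 * p :=
    base_pair (P v) (hP.monic v hvS) 4 (hP.deg v hvS) (by norm_num) p hpr.pos hroot (by
      rw [show (4 - 2 : ℕ) = 2 from rfl, ← hcdef, hb, hb6']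
      rfl)
  exact un_sq E p 4 hpr hp3 hram _ hsq

end Pool.Agent.H7.OR
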