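import Mathlib

/-! Primes with a Frobenius element generating a given cyclic group (working definition). -/

set_option autoImplicit false

namespace Pool.Agent.H7.OR

open NumberField

/-- some Frobenius element over the rational prime `p` generates the same group as `τ` -/
def FrobP (M : Type) [Field M] [NumberField M] (τ : M ≃ₐ[ℚ] M) (p : ℕ) : Prop :=
  p.Prime ∧ ∃ (P : Ideal (𝓞 M)) (φ : M ≃ₐ[ℚ] M), P.IsPrime ∧ (p : 𝓞 M) ∈ P ∧
    (∀ x : 𝓞 M, φ • x - x ^ p ∈ P) ∧ Subgroup.zpowers φ = Subgroup.zpowers τ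

end Pool.Agent.H7.OR
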