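import Pool.Agent.H7.OR.Sm
import Pool.Agent.H7.OR.Gc
import Pool.Agent.H7.OR.In
import Pool.Agent.H7.OR.Base2
import Pool.Agent.H17.PNT

/-! Positive lower density of the primes with prescribed quadratic symbols which are inert in a
given number field, from one such prime. -/

set_option autoImplicit false

namespace Pool.Agent.H7.OR

open Polynomial NumberField EK75

/-- a Galois number field with given square roots and all embeddings of `F` -/
theorem fr2_field (F : Type) [Field F] [NumberField F] (Zs : Finset ℤ) :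
    ∃ (M : Type) (_ : Field M) (_ : NumberField M), IsGalois ℚ M ∧
      Nat.card (F →+* M) = Module.finrank ℚ F ∧ ∀ z ∈ Zs, ∃ s : 𝓞 M, s ^ 2 = (z : 𝓞 M) := by
  classical
  set f : F[X] := ∏ z ∈ Zs, (X ^ 2 - C (z : F)) with hf
  have hfm : f.Monic := by
    rw [hf]
    exact monic_prod_of_monic _ _ (fun z _ => monic_X_pow_sub_C _ (by norm_num))
  let L := f.SplittingField
  have hL : NumberField L := NumberField.of_module_finite F L
  obtain ⟨M, hM1, hM2, hM3, hM4⟩ := galois_closure L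
  let _ : Field M := hM1
  let _ : NumberField M := hM2
  let _ : Algebra L M := hM3
  let i : F →+* M := (algebraMap L M).comp (algebraMap F L)
  refine ⟨M, hM1, hM2, hM4, ?_, ?_⟩
  · have h1 : Nat.card (F →+* M) = Nat.card (F →ₐ[ℚ] M) :=
      Nat.card_congr (RingHom.equivRatAlgHom (R := F) (S := M))
    rw [h1]
    apply AlgHom.natCard_of_splits
    intro x
    have h2 : minpoly ℚ x = minpoly ℚ ((i.toRatAlgHom : F →ₐ[ℚ] M) x) :=
      (minpoly.algHom_eq _ i.injective x).symm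
    rw [h2]
    exact Normal.splits inferInstance _
  · intro z hz
    have h1 : (f.map (algebraMap F L)).Splits := SplittingField.splits f
    have h2 : ((X ^ 2 - C (z : F) : F[X]).map (algebraMap F L)).Splits :=
      h1.of_dvd (hfm.map _).ne_zero (Polynomial.map_dvd _ (Finset.dvd_prod_of_mem _ hz))
    obtain ⟨y, hy⟩ := h2.exists_eval_eq_zero (by
      rw [degree_map, degree_X_pow_sub_C (by norm_num)]
      norm_num)
    have hy2 : y ^ 2 = (z : L) := by
      simp at hy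
      exact sub_eq_zero.1 hy
    have hint : IsIntegral ℤ (algebraMap L M y) := by
      apply IsIntegral.of_pow (n := 2) (by norm_num)
      rw [← map_pow, hy2, map_intCast]
      exact isIntegral_algebraMap (R := ℤ) (A := M) (x := z)
    have h3 : algebraMap L M y ^ 2 = (z : M) := by rw [← map_pow, hy2, map_intCast]
    let s : 𝓞 M := ⟨algebraMap L M y, hint⟩
    have h5 : (s : M) = algebraMap L M y := rfl
    have h7 : algebraMap (𝓞 M) M (s ^ 2) = algebraMap (𝓞 M) M ((z : ℤ) : 𝓞 M) := by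
      rw [map_pow, map_intCast, ← h3]
      rfl
    exact ⟨s, RingOfIntegers.ext h7⟩

/-- Euler criterion for Frobenius -/
theorem fr2_sym (M : Type) [Field M] [NumberField M] (p : ℕ) [Fact p.Prime] (hp2 : p ≠ 2)
    (P : Ideal (𝓞 M)) (hP : P.IsPrime) (hpP : (p : 𝓞 M) ∈ P) (φ : M ≃ₐ[ℚ] M)
    (hφ : ∀ x : 𝓞 M, φ • x - x ^ p ∈ P) (z : ℤ) (hz : ¬ (p : ℤ) ∣ z) (s : 𝓞 M)
    (hs : s ^ 2 = (z : 𝓞 M)) :
    (quadraticChar (ZMod p) (z : ZMod p) = 1 ∧ φ • s = s) ∨
      (quadraticChar (ZMod p) (z : ZMod p) = -1 ∧ φ • s ≠ s) := by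
  have hp : p.Prime := Fact.out
  have hzp : (z : ZMod p) ≠ 0 := by
    rw [Ne, ZMod.intCast_zmod_eq_zero_iff_dvd]
    exact hz
  have h1 : ((quadraticChar (ZMod p) (z : ZMod p) : ℤ) : ZMod p) = (z : ZMod p) ^ (p / 2) :=
    legendreSym.eq_pow p z
  have h2 : (p : ℤ) ∣ z ^ (p / 2) - quadraticChar (ZMod p) (z : ZMod p) := by
    rw [← ZMod.intCast_zmod_eq_zero_iff_dvd]
    push_cast
    rw [h1, sub_self]
  have h3 : ((z ^ (p / 2) - quadraticChar (ZMod p) (z : ZMod p) : ℤ) : 𝓞 M) ∈ P := by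
    obtain ⟨c, hc⟩ := h2
    rw [hc]
    push_cast
    exact P.mul_mem_right _ hpP
  have hodd : 2 * (p / 2) + 1 = p := by
    have := hp.eq_two_or_odd
    omega
  have h4 : s ^ p = s * (z : 𝓞 M) ^ (p / 2) := by
    rw [← hs, ← pow_mul]
    conv_lhs => rw [← hodd]
    ring
  have h5 : φ • s - s * (quadraticChar (ZMod p) (z : ZMod p) : ℤ) ∈ P := by
    have h6 := P.add_mem (hφ s) (P.mul_mem_left s h3)
    have h7 : φ • s - s ^ p + s * ((z ^ (p / 2) - quadraticChar (ZMod p) (z : ZMod p) : ℤ) : 𝓞 M) =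
        φ • s - s * ((quadraticChar (ZMod p) (z : ZMod p) : ℤ) : 𝓞 M) := by
      rw [h4]; push_cast; ring
    rwa [h7] at h6
  have hsP : s ∉ P := by
    intro h
    have h6 : ((z : ℤ) : 𝓞 M) ∈ P := by
      rw [← hs]
      exact P.pow_mem_of_mem h 2 (by norm_num)
    exact hz (in_int P hP.ne_top p hp hpP z h6)
  have h2P : ¬ ((2 : 𝓞 M) ∈ P) := by
    intro h
    have h6 : ((2 : ℤ) : 𝓞 M) ∈ P := by simpa using h
    have h7 := in_int P hP.ne_top p hp hpP 2 h6
    have h8 : p ∣ 2 := by exact_mod_cast h7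
    have := (Nat.prime_dvd_prime_iff_eq hp Nat.prime_two).1 h8
    exact hp2 this
  have h2s : ¬ (2 * s ∈ P) := fun h => (hP.mem_or_mem h).elim h2P hsP
  rcases quadraticChar_dichotomy hzp with hχ | hχ
  · refine Or.inl ⟨hχ, ?_⟩
    rw [hχ] at h5
    have h6 : (φ • s - s) * (φ • s + s) = 0 := by
      have h7 : (φ • s) ^ 2 = s ^ 2 := by
        rw [← smul_pow', hs]
        apply RingOfIntegers.ext
        change φ (((z : ℤ) : 𝓞 M) : M) = _
        simp
      linear_combination h7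
    rcases mul_eq_zero.1 h6 with h7 | h7
    · exact sub_eq_zero.1 h7
    · exfalso
      apply h2s
      have h8 : φ • s = -s := by linear_combination h7
      rw [h8] at h5
      have h9 : -s - s * ((1 : ℤ) : 𝓞 M) = -(2 * s) := by push_cast; ring
      rw [h9] at h5
      exact (P.neg_mem_iff).1 h5
  · refine Or.inr ⟨hχ, ?_⟩
    intro h
    rw [hχ, h] at h5
    apply h2s
    have h9 : s - s * ((-1 : ℤ) : 𝓞 M) = 2 * s := by push_cast; ring
    rwa [h9] at h5

theorem fr2_fix {M : Type} [Field M] [NumberField M] (φ τ : M ≃ₐ[ℚ] M)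
    (h : Subgroup.zpowers φ = Subgroup.zpowers τ) (s : 𝓞 M) : φ • s = s ↔ τ • s = s := by
  have h1 : ∀ ψ : M ≃ₐ[ℚ] M, ψ • s = s ↔ Subgroup.zpowers ψ ≤ MulAction.stabilizer (M ≃ₐ[ℚ] M) s := by
    intro ψ
    rw [Subgroup.zpowers_le, MulAction.mem_stabilizer_iff]
  rw [h1, h1, h]

theorem fr2_size {F : Type} [Field F] [NumberField F] (p : ℕ) (hp : p.Prime)
    (hin : Prime ((p : ℕ) : 𝓞 F)) (m : ℕ) (hm : 1 ≤ m)
    (h : ∀ x : 𝓞 F, x ^ (p ^ m) - x ∈ Ideal.span {((p : ℕ) : 𝓞 F)}) :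
    Module.finrank ℚ F ≤ m := by
  classical
  set I := Ideal.span {((p : ℕ) : 𝓞 F)} with hI
  have hIp : I.IsPrime := (Ideal.span_singleton_prime hin.ne_zero).2 hin
  have hI0 : I ≠ ⊥ := by
    rw [hI, Ne, Ideal.span_singleton_eq_bot]
    exact hin.ne_zero
  have hmax : I.IsMaximal := hIp.isMaximal hI0
  let _ : Field (𝓞 F ⧸ I) := Ideal.Quotient.field I
  have hfinq : Finite (𝓞 F ⧸ I) := Ideal.finiteQuotientOfFreeOfNeBot I hI0
  let _ := Fintype.ofFinite (𝓞 F ⧸ I)
  have hcard : Fintype.card (𝓞 F ⧸ I) = p ^ Module.finrank ℚ F := by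
    have h1 : Ideal.absNorm I = Fintype.card (𝓞 F ⧸ I) := by
      rw [Ideal.absNorm_apply, Submodule.cardQuot_apply, Nat.card_eq_fintype_card]
    rw [← h1, hI, Ideal.absNorm_span_singleton]
    have : (p : 𝓞 F) = algebraMap ℤ (𝓞 F) p := by simp
    rw [this, Algebra.norm_algebraMap, RingOfIntegers.rank F]
    simp [Int.natAbs_pow]
  have hpm : 1 < p ^ m := Nat.one_lt_pow (by omega) hp.one_lt
  set g : (𝓞 F ⧸ I)[X] := X ^ (p ^ m) - X with hg
  have hg0 : g ≠ 0 := FiniteField.X_pow_card_sub_X_ne_zero _ hpm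
  have hgd : g.natDegree = p ^ m := FiniteField.X_pow_card_sub_X_natDegree_eq _ hpm
  have hroots : (Finset.univ : Finset (𝓞 F ⧸ I)) ⊆ g.roots.toFinset := by
    intro y _
    obtain ⟨x, rfl⟩ := Ideal.Quotient.mk_surjective y
    rw [Multiset.mem_toFinset, mem_roots hg0, IsRoot.def, hg]
    simp only [eval_sub, eval_pow, eval_X]
    rw [← map_pow, ← map_sub, Ideal.Quotient.eq_zero_iff_mem]
    exact h x
  have h1 : p ^ Module.finrank ℚ F ≤ p ^ m := by
    rw [← hcard, ← hgd]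
    calc Fintype.card (𝓞 F ⧸ I) = (Finset.univ : Finset (𝓞 F ⧸ I)).card := rfl
      _ ≤ g.roots.toFinset.card := Finset.card_le_card hroots
      _ ≤ Multiset.card g.roots := Multiset.toFinset_card_le _
      _ ≤ g.natDegree := card_roots' g
  exact (Nat.pow_le_pow_iff_right hp.one_lt).1 h1

/-- a Frobenius element over an inert prime is transitive on the embeddings -/
theorem fr2_orb {M : Type} [Field M] [NumberField M] (F : Type) [Field F] [NumberField F]
    (hF : Nat.card (F →+* M) = Module.finrank ℚ F) (p : ℕ) (hp : p.Prime)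
    (hin : Prime ((p : ℕ) : 𝓞 F)) (P : Ideal (𝓞 M)) (hP : P.IsPrime) (hpP : (p : 𝓞 M) ∈ P)
    (τ : M ≃ₐ[ℚ] M) (hτ : ∀ x : 𝓞 M, τ • x - x ^ p ∈ P) (j : F →+* M) :
    Module.finrank ℚ F ≤ (embOrbit τ j).ncard := by
  classical
  have hfin : Finite (F →+* M) := by
    have h0 : Module.finrank ℚ F ≠ 0 := Module.finrank_pos.ne'
    rw [← hF] at h0
    exact (Nat.card_ne_zero.1 h0).2
  set n := (embOrbit τ j).ncard with hn
  have hfs : (embOrbit τ j).Finite := Set.toFinite _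
  -- pigeonhole
  let t : ℕ → (F →+* M) := fun k => ((τ ^ k : M ≃ₐ[ℚ] M) : M →+* M).comp j
  obtain ⟨a, ha, b, hb, hab, hEq⟩ := Finset.exists_ne_map_eq_of_card_lt_of_maps_to
    (s := Finset.range (n + 1)) (t := hfs.toFinset) (f := t) (by
      rw [← Set.ncard_eq_toFinset_card _ hfs, Finset.card_range]
      omega) (by
      intro k _
      simp only [Set.Finite.coe_toFinset]
      exact ⟨τ ^ k, Subgroup.pow_mem _ (Subgroup.mem_zpowers τ) k, fun x => rfl⟩)
  have key : ∀ a b : ℕ, a < b → b ≤ n → t a = t b → Module.finrank ℚ F ≤ n := by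
    intro a b hab hbn hEq
    set m := b - a with hm
    have hm1 : 1 ≤ m := by omega
    have hfix : ∀ x : F, (τ ^ m) (j x) = j x := by
      intro x
      have h1 : (τ ^ a) (j x) = (τ ^ b) (j x) := congrArg (fun g : F →+* M => g x) hEq
      have h2 : τ ^ b = τ ^ a * τ ^ m := by rw [← pow_add]; congr 1; omega
      rw [h2, AlgEquiv.mul_apply] at h1
      exact ((τ ^ a).injective h1).symm
    have hcomap : Ideal.comap (RingOfIntegers.mapRingHom j) P = Ideal.span {((p : ℕ) : 𝓞 F)} := by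
      have hIp : (Ideal.span {((p : ℕ) : 𝓞 F)}).IsPrime := (Ideal.span_singleton_prime hin.ne_zero).2 hin
      have hI0 : Ideal.span {((p : ℕ) : 𝓞 F)} ≠ ⊥ := by
        rw [Ne, Ideal.span_singleton_eq_bot]
        exact hin.ne_zero
      have hmax : (Ideal.span {((p : ℕ) : 𝓞 F)}).IsMaximal := hIp.isMaximal hI0
      symm
      apply hmax.eq_of_le (hP.comap _).ne_top
      rw [Ideal.span_singleton_le_iff_mem, Ideal.mem_comap, map_natCast]
      exact hpP
    set Φ : 𝓞 M →+* 𝓞 M := RingOfIntegers.mapRingHom (τ : M →+* M) with hΦ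
    have hΦ1 : ∀ x, Φ x - x ^ p ∈ P := fun x => hτ x
    have hΦk : ∀ (k : ℕ) (x : 𝓞 M), ((Φ^[k] x : 𝓞 M) : M) = (τ ^ k) (x : M) := by
      intro k
      induction k with
      | zero => intro x; simp
      | succ k ih =>
        intro x
        rw [Function.iterate_succ_apply, ih, pow_succ, AlgEquiv.mul_apply]
        rfl
    have h3 : ∀ x : 𝓞 F, x ^ (p ^ m) - x ∈ Ideal.span {((p : ℕ) : 𝓞 F)} := by
      intro x
      rw [← hcomap, Ideal.mem_comap, map_sub, map_pow]
      have h4 := in_frob P p Φ hΦ1 m (RingOfIntegers.mapRingHom j x)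
      have h5 : Φ^[m] (RingOfIntegers.mapRingHom j x) = RingOfIntegers.mapRingHom j x := by
        apply RingOfIntegers.ext
        rw [hΦk]
        exact hfix _
      rw [h5] at h4
      have h6 := P.neg_mem h4
      rwa [neg_sub] at h6
    exact (fr2_size p hp hin m hm1 h3).trans (by omega)
  rw [Finset.mem_range] at ha hb
  rcases lt_or_gt_of_ne hab with h | h
  · exact key a b h (by omega) hEq
  · exact key b a h (by omega) hEq.symm

theorem fr2_prime {M : Type} [Field M] [NumberField M] (F : Type) [Field F] [NumberField F]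
    (p : ℕ) (hp : p.Prime)
    (h : ∀ 𝔭 : Ideal (𝓞 F), 𝔭.IsPrime → (p : 𝓞 F) ∈ 𝔭 → p ^ Module.finrank ℚ F ≤ Ideal.absNorm 𝔭) :
    Prime ((p : ℕ) : 𝓞 F) := by
  have hp0 : ((p : ℕ) : 𝓞 F) ≠ 0 := Nat.cast_ne_zero.2 hp.ne_zero
  have hne : Ideal.span {((p : ℕ) : 𝓞 F)} ≠ ⊤ := by
    intro htop
    have h1 : Ideal.absNorm (Ideal.span {(p : 𝓞 F)}) = p ^ Module.finrank ℚ F := by
      rw [Ideal.absNorm_span_singleton]
      have : (p : 𝓞 F) = algebraMap ℤ (𝓞 F) p := by simp
      rw [this, Algebra.norm_algebraMap, RingOfIntegers.rank F]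
      simp [Int.natAbs_pow]
    rw [htop, Ideal.absNorm_top] at h1
    have h2 : 1 < p ^ Module.finrank ℚ F := Nat.one_lt_pow Module.finrank_pos.ne' hp.one_lt
    omega
  obtain ⟨𝔪, h𝔪, hle⟩ := Ideal.exists_le_maximal _ hne
  have hmem : ((p : ℕ) : 𝓞 F) ∈ 𝔪 := hle (Ideal.mem_span_singleton_self _)
  have h1 := base_inert p hp 𝔪 hmem (h 𝔪 h𝔪.isPrime hmem)
  have h2 : Ideal.span {((p : ℕ) : 𝓞 F)} = 𝔪 := by
    apply le_antisymm hle
    intro x hx
    exact Ideal.mem_span_singleton.2 (h1 x hx)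
  rw [← Ideal.span_singleton_prime hp0, h2]
  exact h𝔪.isPrime

open Filter Finset Topology in
/-- positive lower density from one prime -/
theorem den2_main (F : Type) [Field F] [NumberField F] (Zs : Finset ℤ) (p₀ : ℕ) [Fact p₀.Prime]
    (hp₀ : p₀ ≠ 2) (hz : ∀ z ∈ Zs, ¬ (p₀ : ℤ) ∣ z) (hin : Prime ((p₀ : ℕ) : 𝓞 F))
    (S : Set ℕ) (B : ℕ)
    (hS : ∀ (p : ℕ) [Fact p.Prime], B < p → Prime ((p : ℕ) : 𝓞 F) →
      (∀ z ∈ Zs, quadraticChar (ZMod p) (z : ZMod p) = quadraticChar (ZMod p₀) (z : ZMod p₀)) → p ∈ S) :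
    0 < liminf (fun x : ℕ =>
      (Nat.card {p : ℕ // p ≤ x ∧ p.Prime ∧ p ∈ S} : ℝ) / (Nat.card {p : ℕ // p ≤ x ∧ p.Prime} : ℝ))
      atTop := by
  classical
  obtain ⟨M, hM1, hM2, hM3, hFM, hsq⟩ := fr2_field F Zs
  let _ : Field M := hM1
  let _ : NumberField M := hM2
  have hpp₀ : p₀.Prime := Fact.out
  obtain ⟨P₀, τ, hP₀, hpP₀, hτ⟩ := EK75.frob_exists (M := M) p₀ hpp₀
  obtain ⟨c, hc, hcount⟩ := sm_count M τ
  obtain ⟨Δ, hΔ, hib⟩ := in_bound (K := ℚ) (L := M) F hFM
  set B' : ℕ := B + Δ + 2 + ∑ z ∈ Zs, z.natAbs with hB'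
  have horb : ∀ j : F →+* M, Module.finrank ℚ F ≤ (embOrbit τ j).ncard :=
    fun j => fr2_orb F hFM p₀ hpp₀ hin P₀ hP₀ hpP₀ τ hτ j
  have hmem : ∀ p : ℕ, FrobP M τ p → B' < p → p ∈ S := by
    rintro p ⟨hp, P, φ, hP, hpP, hφ, hzp⟩ hBp
    have hfact : Fact p.Prime := ⟨hp⟩
    have hp2 : p ≠ 2 := by omega
    apply hS p (by omega)
    · apply fr2_prime (M := M) F p hp
      intro 𝔭 h𝔭 hmem
      refine hib p hp ?_ P hP hpP φ ?_ _ ?_ 𝔭 h𝔭 hmem
      · intro hd
        have := Nat.le_of_dvd hΔ hd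
        omega
      · intro x y hxy
        have h1 : y = φ • x := by
          apply RingOfIntegers.ext
          rw [hxy]
          rfl
        rw [h1]
        exact hφ x
      · intro j
        have : embOrbit φ j = embOrbit τ j := by
          unfold embOrbit
          rw [hzp]
        rw [this]
        exact horb j
    · intro z hzZ
      obtain ⟨s, hs⟩ := hsq z hzZ
      have hz0 : z ≠ 0 := by
        intro h0
        apply hz z hzZ
        rw [h0]
        exact dvd_zero _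
      have hpz : ¬ (p : ℤ) ∣ z := by
        intro hd
        have h1 : p ∣ z.natAbs := Int.natCast_dvd.1 hd
        have h2 := Nat.le_of_dvd (Int.natAbs_pos.2 hz0) h1
        have h3 : z.natAbs ≤ ∑ z ∈ Zs, z.natAbs :=
          Finset.single_le_sum (f := fun z : ℤ => z.natAbs) (fun _ _ => Nat.zero_le _) hzZ
        omega
      have h1 := fr2_sym M p hp2 P hP hpP φ hφ z hpz s hs
      have h2 := fr2_sym M p₀ hp₀ P₀ hP₀ hpP₀ τ hτ z (hz z hzZ) s hs
      have h3 := fr2_fix φ τ hzp s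
      rcases h1 with ⟨h1, h1'⟩ | ⟨h1, h1'⟩ <;> rcases h2 with ⟨h2, h2'⟩ | ⟨h2, h2'⟩
      · rw [h1, h2]
      · exact absurd (h3.1 h1') h2'
      · exact absurd (h3.2 h2') h1'
      · rw [h1, h2]
  -- counting
  have h2 := Pool.Agent.H17.pi_tendsto.comp tendsto_natCast_atTop_atTop
  have hcard : ∀ x : ℕ, (Nat.card {p : ℕ // p ≤ x ∧ p.Prime} : ℝ) = (Nat.primeCounting x : ℝ) := by
    intro x
    rw [← Nat.primesLE_card_eq_primeCounting, Nat.subtype_card (Nat.primesLE x)]
    intro p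
    rw [Nat.mem_primesLE]
  have hcardS : ∀ x : ℕ, (Nat.card {p : ℕ // p ≤ x ∧ p.Prime ∧ p ∈ S} : ℝ) =
      (((Icc 1 x).filter (fun p => p.Prime ∧ p ∈ S)).card : ℝ) := by
    intro x
    rw [Nat.subtype_card ((Icc 1 x).filter (fun p => p.Prime ∧ p ∈ S))]
    intro p
    rw [mem_filter, mem_Icc]
    constructor
    · rintro ⟨⟨-, h⟩, h'⟩; exact ⟨h, h'⟩
    · rintro ⟨h, h'⟩; exact ⟨⟨h'.1.pos, h⟩, h'⟩
  have hlow : ∀ x : ℕ, (((prLe (x : ℝ)).filter (fun p => FrobP M τ p)).card : ℝ) - B' ≤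
      (((Icc 1 x).filter (fun p => p.Prime ∧ p ∈ S)).card : ℝ) := by
    intro x
    have hsub : (prLe (x : ℝ)).filter (fun p => FrobP M τ p) ⊆
        (Icc 1 x).filter (fun p => p.Prime ∧ p ∈ S) ∪ Icc 1 B' := by
      intro p hp
      unfold prLe at hp
      rw [mem_filter, mem_filter, mem_range, Nat.floor_natCast] at hp
      obtain ⟨⟨hpx, hpp⟩, hpF⟩ := hp
      rw [mem_union, mem_filter, mem_Icc, mem_Icc]
      by_cases hpB : p ≤ B'
      · exact Or.inr ⟨hpp.pos, hpB⟩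
      · exact Or.inl ⟨⟨hpp.pos, by omega⟩, hpp, hmem p hpF (by omega)⟩
    have h3 := (card_le_card hsub).trans (card_union_le _ _)
    rw [Nat.card_Icc] at h3
    have h5 : (((prLe (x : ℝ)).filter (fun p => FrobP M τ p)).card : ℝ) ≤
        (((Icc 1 x).filter (fun p => p.Prime ∧ p ∈ S)).card : ℝ) + B' := by
      exact_mod_cast h3
    linarith
  have h3 : Tendsto (fun x : ℕ => (B' : ℝ) * (Real.log x / x)) atTop (𝓝 0) := by
    have h4 : Tendsto (fun x : ℝ => Real.log x / x) atTop (𝓝 0) :=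
      Real.isLittleO_log_id_atTop.tendsto_div_nhds_zero
    have h5 := (h4.comp (tendsto_natCast_atTop_atTop (R := ℝ))).const_mul (B' : ℝ)
    rw [mul_zero] at h5
    exact h5
  have h5 : ∀ᶠ x : ℕ in atTop, c / 4 ≤
      (Nat.card {p : ℕ // p ≤ x ∧ p.Prime ∧ p ∈ S} : ℝ) / (Nat.card {p : ℕ // p ≤ x ∧ p.Prime} : ℝ) := by
    filter_upwards [h3.eventually (gt_mem_nhds (by linarith : (0 : ℝ) < c / 2)),
      h2.eventually (gt_mem_nhds (by norm_num : (1 : ℝ) < 2)),
      (tendsto_natCast_atTop_atTop (R := ℝ)).eventually hcount, eventually_ge_atTop 2] with x hx hxp hxc hx2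
    rw [hcard, hcardS]
    have hx0 : (0 : ℝ) < x := by positivity
    have hlx : 0 < Real.log x := Real.log_pos (by exact_mod_cast hx2)
    have hpi : (0 : ℝ) < (Nat.primeCounting x : ℝ) := by
      have : 0 < Nat.primeCounting x := by
        have h6 := Nat.monotone_primeCounting hx2
        have h7 : Nat.primeCounting 2 = 1 := by decide
        omega
      exact_mod_cast this
    simp only [Function.comp, Nat.floor_natCast] at hxp hxc
    rw [le_div_iff₀ hpi]
    refine le_trans ?_ (hlow x)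
    have e1 : (Nat.primeCounting x : ℝ) ≤ 2 * (x / Real.log x) := by
      rw [div_lt_iff₀ hx0] at hxp
      have : (Nat.primeCounting x : ℝ) * Real.log x ≤ 2 * x := hxp.le
      rw [← mul_div_assoc, le_div_iff₀ hlx]
      exact this
    have e2 : (B' : ℝ) ≤ c / 2 * (x / Real.log x) := by
      have h8 : (B' : ℝ) * (Real.log x / x) * (x / Real.log x) ≤ c / 2 * (x / Real.log x) :=
        mul_le_mul_of_nonneg_right hx.le (by positivity)
      have h9 : (B' : ℝ) * (Real.log x / x) * (x / Real.log x) = B' := by field_simp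
      linarith
    have e3 : c / 4 * (Nat.primeCounting x : ℝ) ≤ c / 4 * (2 * (x / Real.log x)) :=
      mul_le_mul_of_nonneg_left e1 (by linarith)
    linarith
  have hb : IsBoundedUnder (· ≤ ·) atTop (fun x : ℕ =>
      (Nat.card {p : ℕ // p ≤ x ∧ p.Prime ∧ p ∈ S} : ℝ) / (Nat.card {p : ℕ // p ≤ x ∧ p.Prime} : ℝ)) := by
    refine isBoundedUnder_of ⟨1, fun x => ?_⟩
    rw [hcard, hcardS]
    apply div_le_one_of_le₀ _ (Nat.cast_nonneg _)
    rw [← Nat.primesLE_card_eq_primeCounting]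
    have : (Icc 1 x).filter (fun p => p.Prime ∧ p ∈ S) ⊆ Nat.primesLE x := by
      intro p hp
      rw [mem_filter, mem_Icc] at hp
      rw [Nat.mem_primesLE]
      exact ⟨hp.1.2, hp.2.1⟩
    exact_mod_cast card_le_card this
  have h6 := le_liminf_of_le hb.isCoboundedUnder_ge h5
  linarith

end Pool.Agent.H7.OR
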