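import Pool.Agent.H75.EK.Lb1
import Pool.Agent.H75.EK.Lb3
import Pool.Agent.H75.EK.Ub

/-! Mertens theorem with bounded error for a fixed number field, in terms of the number `rho g p`
of roots modulo `p` of a monic irreducible integer polynomial `g` (degree `k`, height `≤ H`).

Proof.  Upper bound: `EK75.mertens_upper` with `H := max 2 (1 + sum of the |coefficients|)`
(a constant).  Lower bound: follow `EK75.T_upper` (Lb3.lean) with `Y := Z`, where every prime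
`p ≤ Z` is treated by the lattice count, so that no `freeU` term occurs.  Precisely: let `K, θ` be
given by `nf_exists`, `κ = k (1+H)^k`, `X ≥ 1` a natural number, `Z = ⌊(κ X)^k⌋₊` (`nf_le`:
`nn θ u ≤ Z` on the box), `Δ` from `nf_disc`.  As in `lb3_decomp` (copy its proof, it becomes
shorter: for `0 ≠ u` in the box all primes dividing `nn θ u` are `≤ Z`)
  `∑_u log nn(u) ≤ ∑_{p ∣ Δ} log p · ∑_u v_p(nn u)`                        (`vp_sum`: `≤ C X^k`)
   `+ ∑_{p ≤ Z} log p (k² 2^k X^k 4/p² + [p² ≤ Z] k² log₂ Z (4κ)^k)`         (`≤ C X^k`)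
   `+ ∑_{p ≤ Z} log p · rho(p) (X + 2 κ p^{1/k})^k / p`.
In the last sum split at `Y0 := (X/M)^k`, `M := 2κ`: for `p ≤ Y0` use `lb3_small`
(`≤ X^k Msum Y0 + C X^k`, `C3` from `mert3`); for `Y0 < p ≤ Z` the summand is
`≤ (1 + 2 κ κ)^k X^k · k · log p / p` (as `p^{1/k} ≤ κ X`), and
`∑_{Y0 < p ≤ Z} log p / p ≤ log (Z / Y0) + C ≤ C` by `mert1`.  For the second sum use
`lb3_logsq` and: the number of primes `p` with `p² ≤ Z` is `≤ √Z + 1 ≤ C X^{k/2} + 1`, each term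
`≤ C (log Z)²`; total `≤ C X^k` (or quote `lb3_gsum`, `lb3_bad`, after writing `X` as at least a
fourth power `x^4`; any way is fine, constants may depend on `g`).
`T_lower` (Lb1.lean): `∑_u log nn(u) ≥ X^k k log X - C X^k`.
Divide by `X^k`: `Msum (rhoR g) ((X/M)^k) ≥ k log X - C`.  Given `Y ≥ 1` choose
`X := ⌊M Y^{1/k}⌋₊ (≥ 1)`: `(X/M)^k ≤ Y`, `Msum` is monotone, `k log X ≥ log Y - C`
(`X ≥ M Y^{1/k} / 2`). -/

set_option autoImplicit false

namespace Pool.Agent.H7.OR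

open EK75 Polynomial Finset NumberField

theorem mf_decomp {K : Type} [Field K] [NumberField K] (k : ℕ) (hk : 1 ≤ k) (g : ℤ[X])
    (hg : g.Monic) (hd : g.natDegree = k) (hirr : Irreducible g) (θ : 𝓞 K) (hθ : aeval θ g = 0)
    (hfr : Module.finrank ℚ K = k) (Δ : ℕ) (hΔ : ∀ x : 𝓞 K, ∃ c : Fin k → ℤ, (Δ : 𝓞 K) * x = nu θ c)
    (H : ℝ) (hH : 1 ≤ H) (hht : HtLe g H) (X Z : ℕ)
    (hZ' : ∀ u ∈ boxZ k X, nn θ u ≤ Z) (κ : ℝ) (hκ : κ = k * (1 + H) ^ k) :
    ∑ u ∈ boxZ k X, Real.log (nn θ u) ≤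
      ∑ p ∈ ((range (Z + 1)).filter Nat.Prime).filter (fun p => p ∣ Δ),
        Real.log p * ∑ u ∈ boxZ k X, (((nn θ u).factorization p : ℕ) : ℝ) +
      ∑ p ∈ (range (Z + 1)).filter Nat.Prime,
        Real.log p * (k ^ 2 * (2 ^ k * (X : ℝ) ^ k * 4 / (p : ℝ) ^ 2) +
        (if p ^ 2 ≤ Z then (k : ℝ) ^ 2 * (Nat.log 2 Z : ℕ) * (4 * κ) ^ k else 0)) +
      ∑ p ∈ (range (Z + 1)).filter Nat.Prime,
        Real.log p * (rhoR g p * ((X + 2 * κ * (p : ℝ) ^ ((1 : ℝ) / k)) ^ k / p)) := by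
  have hκ0 : 0 ≤ κ := by rw [hκ]; positivity
  have hlogp : ∀ p : ℕ, 0 ≤ Real.log p := fun p => Real.log_natCast_nonneg p
  have hch : ∀ p : ℕ, ∃ B G : (Fin k → ℤ) → ℝ, p.Prime → ¬ p ∣ Δ → (∀ u, 0 ≤ B u) ∧ (∀ u, 0 ≤ G u) ∧
      (∀ u ∈ boxZ k X, u ≠ 0 → (((nn θ u).factorization p : ℕ) : ℝ) ≤ B u + G u ∧
        B u ≤ (((nn θ u).factorization p : ℕ) : ℝ)) ∧
      ∑ u ∈ boxZ k X, B u ≤ rhoR g p * ((X + 2 * κ * (p : ℝ) ^ ((1 : ℝ) / k)) ^ k / p) ∧
      ∑ u ∈ boxZ k X, G u ≤ k ^ 2 * (2 ^ k * (X : ℝ) ^ k * 4 / (p : ℝ) ^ 2) +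
        (if p ^ 2 ≤ Z then (k : ℝ) ^ 2 * (Nat.log 2 Z : ℕ) * (4 * κ) ^ k else 0) := by
    intro p
    by_cases h : p.Prime ∧ ¬ p ∣ Δ
    · obtain ⟨B, G, h1⟩ := lb3_good k hk g hg hd hirr θ hθ hfr Δ hΔ p h.1 h.2 H hH hht X Z hZ' κ hκ
      exact ⟨B, G, fun _ _ => h1⟩
    · exact ⟨0, 0, fun h1 h2 => absurd ⟨h1, h2⟩ h⟩
  choose B G hBG using hch
  set PZ := (range (Z + 1)).filter Nat.Prime with hPZ
  set box := boxZ k X with hbox
  set bx := box.filter (fun u => u ≠ 0) with hbx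
  have hsub : bx ⊆ box := Finset.filter_subset _ _
  -- restrict to nonzero u
  have h1 : ∑ u ∈ box, Real.log (nn θ u) = ∑ u ∈ bx, Real.log (nn θ u) := by
    symm
    apply Finset.sum_subset hsub
    intro u hu hu'
    rw [hbx, mem_filter] at hu'
    push Not at hu'
    have hu0 := hu' hu
    subst hu0
    have : nn θ (0 : Fin k → ℤ) = 0 := by
      unfold nn nu; simp
    rw [this]; simp
  have h2 : ∀ u ∈ bx, Real.log (nn θ u) = ∑ p ∈ PZ, (((nn θ u).factorization p : ℕ) : ℝ) * Real.log p := by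
    intro u hu
    rw [hbx, mem_filter] at hu
    exact lb3_log (nf_pos k hk g hg hd hirr θ hθ hfr u hu.2) (hZ' u hu.1)
  rw [h1, Finset.sum_congr rfl h2]
  have h3 : ∀ u ∈ bx, ∑ p ∈ PZ, (((nn θ u).factorization p : ℕ) : ℝ) * Real.log p ≤
      ∑ p ∈ PZ.filter (fun p => p ∣ Δ), Real.log p * (((nn θ u).factorization p : ℕ) : ℝ) +
      ∑ p ∈ PZ.filter (fun p => ¬ p ∣ Δ), Real.log p * G p u +
      ∑ p ∈ PZ.filter (fun p => ¬ p ∣ Δ), Real.log p * B p u := by
    intro u hu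
    rw [hbx, mem_filter] at hu
    obtain ⟨hub, hu0⟩ := hu
    rw [← Finset.sum_filter_add_sum_filter_not PZ (fun p => p ∣ Δ)]
    have e1 : ∑ p ∈ PZ.filter (fun p => p ∣ Δ), (((nn θ u).factorization p : ℕ) : ℝ) * Real.log p =
        ∑ p ∈ PZ.filter (fun p => p ∣ Δ), Real.log p * (((nn θ u).factorization p : ℕ) : ℝ) :=
      Finset.sum_congr rfl (fun p _ => mul_comm _ _)
    rw [e1, add_assoc]
    apply add_le_add le_rfl
    have e2 : ∑ p ∈ PZ.filter (fun p => ¬ p ∣ Δ), (((nn θ u).factorization p : ℕ) : ℝ) * Real.log p ≤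
        ∑ p ∈ PZ.filter (fun p => ¬ p ∣ Δ), Real.log p * G p u +
        ∑ p ∈ PZ.filter (fun p => ¬ p ∣ Δ), Real.log p * B p u := by
      rw [← Finset.sum_add_distrib]
      apply Finset.sum_le_sum
      intro p hp
      rw [mem_filter, hPZ, mem_filter] at hp
      obtain ⟨-, -, h5, -⟩ := hBG p hp.1.2 hp.2
      have h6 := (h5 u hub hu0).1
      have h7 := mul_le_mul_of_nonneg_left h6 (hlogp p)
      linarith
    exact e2
  refine (Finset.sum_le_sum h3).trans ?_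
  rw [Finset.sum_add_distrib, Finset.sum_add_distrib]
  have t1 : ∑ u ∈ bx, ∑ p ∈ PZ.filter (fun p => p ∣ Δ), Real.log p * (((nn θ u).factorization p : ℕ) : ℝ) ≤
      ∑ p ∈ PZ.filter (fun p => p ∣ Δ), Real.log p * ∑ u ∈ box, (((nn θ u).factorization p : ℕ) : ℝ) := by
    rw [Finset.sum_comm]
    apply Finset.sum_le_sum
    intro p _
    rw [← Finset.mul_sum]
    apply mul_le_mul_of_nonneg_left _ (hlogp p)
    exact Finset.sum_le_sum_of_subset_of_nonneg hsub (fun _ _ _ => Nat.cast_nonneg _)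
  have t2 : ∑ u ∈ bx, ∑ p ∈ PZ.filter (fun p => ¬ p ∣ Δ), Real.log p * G p u ≤
      ∑ p ∈ PZ, Real.log p * (k ^ 2 * (2 ^ k * (X : ℝ) ^ k * 4 / (p : ℝ) ^ 2) +
        (if p ^ 2 ≤ Z then (k : ℝ) ^ 2 * (Nat.log 2 Z : ℕ) * (4 * κ) ^ k else 0)) := by
    rw [Finset.sum_comm]
    refine le_trans ?_ (Finset.sum_le_sum_of_subset_of_nonneg (Finset.filter_subset (fun p => ¬ p ∣ Δ) PZ) ?_)
    · apply Finset.sum_le_sum
      intro p hp
      rw [mem_filter, hPZ, mem_filter] at hp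
      obtain ⟨-, hG0, -, -, h5⟩ := hBG p hp.1.2 hp.2
      rw [← Finset.mul_sum]
      apply mul_le_mul_of_nonneg_left _ (hlogp p)
      exact (Finset.sum_le_sum_of_subset_of_nonneg hsub (fun u _ _ => hG0 u)).trans h5
    · intro p _ _
      apply mul_nonneg (hlogp p)
      have : 0 ≤ (if p ^ 2 ≤ Z then (k : ℝ) ^ 2 * (Nat.log 2 Z : ℕ) * (4 * κ) ^ k else 0) := by
        split_ifs <;> positivity
      positivity
  have t3 : ∑ u ∈ bx, ∑ p ∈ PZ.filter (fun p => ¬ p ∣ Δ), Real.log p * B p u ≤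
      ∑ p ∈ PZ, Real.log p * (rhoR g p * ((X + 2 * κ * (p : ℝ) ^ ((1 : ℝ) / k)) ^ k / p)) := by
    rw [Finset.sum_comm]
    refine le_trans ?_ (Finset.sum_le_sum_of_subset_of_nonneg (Finset.filter_subset (fun p => ¬ p ∣ Δ) PZ) ?_)
    · apply Finset.sum_le_sum
      intro p hp
      rw [mem_filter, hPZ, mem_filter] at hp
      obtain ⟨hB0, -, -, h5, -⟩ := hBG p hp.1.2 hp.2
      rw [← Finset.mul_sum]
      apply mul_le_mul_of_nonneg_left _ (hlogp p)
      exact (Finset.sum_le_sum_of_subset_of_nonneg hsub (fun u _ _ => hB0 u)).trans h5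
    · intro p _ _
      apply mul_nonneg (hlogp p)
      unfold rhoR
      positivity
  linarith

/-- the lower bound for large `X` -/
theorem mf_low (g : ℤ[X]) (hg : g.Monic) (hirr : Irreducible g) (k : ℕ) (hk : 1 ≤ k)
    (hd : g.natDegree = k) (H : ℝ) (hH : 2 ≤ H) (hht : HtLe g H) :
    ∃ (C M : ℝ) (X0 : ℕ), 0 ≤ C ∧ 1 ≤ M ∧ M ≤ X0 ∧ ∀ X : ℕ, X0 ≤ X →
      k * Real.log X - C ≤ Msum (rhoR g) (((X : ℝ) / M) ^ k) := by
  obtain ⟨K, _, _, θ, hθ, hfr⟩ := nf_exists k hk g hg hd hirr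
  obtain ⟨C3, hC3⟩ := mert3 k hk
  obtain ⟨CL, hCL0, hCL⟩ := lb3_logsq
  obtain ⟨A0, hA0, hdisc⟩ := nf_disc k hk
  obtain ⟨Δ, hΔ1, hΔH, hΔ⟩ := hdisc K g hg hd hirr θ hθ hfr H hH hht
  obtain ⟨CT, hCT0, hT⟩ := T_lower k hk
  have hT' := hT K g hg hd hirr θ hθ hfr H hH hht
  have hl2 : 0 < Real.log 2 := Real.log_pos (by norm_num)
  have hC30 : 0 ≤ C3 := by
    have h := hC3 1 le_rfl
    rw [Real.one_rpow, mul_one] at h
    refine le_trans (Finset.sum_nonneg ?_) h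
    intro p _
    have := Real.log_natCast_nonneg p
    positivity
  have hH1 : (1 : ℝ) ≤ H := by linarith
  have hk0 : (1 : ℝ) ≤ k := by exact_mod_cast hk
  set κ : ℝ := k * (1 + H) ^ k with hκ
  have hκ1 : 1 ≤ κ := by
    rw [hκ]
    have : (1 : ℝ) ≤ (1 + H) ^ k := one_le_pow₀ (by linarith)
    nlinarith
  have hκ0 : 0 ≤ κ := by linarith
  set M : ℝ := 2 * κ with hM
  have hM0 : 0 < M := by linarith
  set Kc : ℝ := k * (1 + 2 * κ * κ) ^ k with hKc
  have hKc0 : 0 ≤ Kc := by positivity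
  set c1 : ℝ := Real.log Δ * (k ^ 2 + 5 * k ^ 2 / Real.log 2) with hc1
  set c2 : ℝ := 4 * k ^ 2 * 2 ^ k * CL + 100 * 4 ^ k * k ^ 4 / Real.log 2 with hc2
  set c3 : ℝ := k * 2 ^ k * C3 with hc3
  set c4 : ℝ := Kc * (k * Real.log (κ * M) + 8) with hc4
  have hlΔ : 0 ≤ Real.log Δ := Real.log_natCast_nonneg Δ
  have hc1' : 0 ≤ c1 := by positivity
  have hc2' : 0 ≤ c2 := by positivity
  have hc3' : 0 ≤ c3 := by positivity
  have hκM1 : 1 ≤ κ * M := by nlinarith
  have hc4' : 0 ≤ c4 := by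
    have := Real.log_nonneg hκM1
    positivity
  have hlH : 0 ≤ Real.log H := Real.log_nonneg hH1
  refine ⟨c1 + c2 + c3 + c4 + CT * Real.log H, M, ⌈((2 * κ) ^ (2 * k)) ^ 4⌉₊, by positivity, by linarith, ?_, ?_⟩
  · refine le_trans ?_ (Nat.le_ceil _)
    rw [← pow_mul]
    exact le_self_pow₀ (by linarith) (by omega)
  intro X hX0
  have hXb : ((2 * κ) ^ (2 * k)) ^ 4 ≤ (X : ℝ) := (Nat.le_ceil _).trans (by exact_mod_cast hX0)
  -- x
  set x : ℝ := (X : ℝ) ^ ((1 : ℝ) / 4) with hx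
  have hx0 : 0 ≤ x := by positivity
  have hx4 : x ^ 4 = (X : ℝ) := by
    rw [hx, ← Real.rpow_natCast, ← Real.rpow_mul (by positivity)]
    norm_num
  have h2κx : (2 * κ) ^ (2 * k) ≤ x := by
    rw [← hx4] at hXb
    exact le_of_pow_le_pow_left₀ (by norm_num) hx0 hXb
  have hMx : M ≤ x := le_trans (le_self_pow₀ (by linarith) (by omega)) h2κx
  have hx1 : 1 ≤ x := by linarith
  have hκx : κ ^ (2 * k) ≤ x := (pow_le_pow_left₀ hκ0 (by linarith) _).trans h2κx
  have hκx' : κ ≤ x := by linarith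
  have hX0' : (0 : ℝ) < X := by rw [← hx4]; positivity
  have hX1 : 1 ≤ X := by exact_mod_cast hX0'
  have hXR1 : (1 : ℝ) ≤ X := by exact_mod_cast hX1
  have hMX : M ≤ X := by
    refine hMx.trans ?_
    rw [← hx4]
    exact le_self_pow₀ hx1 (by norm_num)
  -- Z
  set Z : ℕ := ⌊(κ * (X : ℝ)) ^ k⌋₊ with hZ
  have hκX1 : 1 ≤ κ * (X : ℝ) := by nlinarith
  have hZle : (Z : ℝ) ≤ (κ * X) ^ k := Nat.floor_le (by positivity)
  have hZ1 : 1 ≤ Z := by
    rw [hZ]
    apply (Nat.one_le_floor_iff _).2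
    exact one_le_pow₀ hκX1
  have hZ' : ∀ u ∈ boxZ k X, nn θ u ≤ Z := by
    intro u hu
    rw [hZ]
    apply Nat.le_floor
    refine (nf_le k hk g hg hd hirr θ hθ hfr H hH1 hht X u hu).trans (le_of_eq ?_)
    rw [hκ]; ring
  -- Y
  set Y : ℝ := ((X : ℝ) / M) ^ k with hY
  have hXM1 : 1 ≤ (X : ℝ) / M := by rw [le_div_iff₀ hM0]; linarith
  have hY1 : 1 ≤ Y := by rw [hY]; exact one_le_pow₀ hXM1
  have hXk : 0 < (X : ℝ) ^ k := by positivity
  have hmain := mf_decomp k hk g hg hd hirr θ hθ hfr Δ hΔ H hH1 hht X Z hZ' κ hκ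
  have hZ4 : (Z : ℝ) ≤ (κ * x ^ 4) ^ k := by rw [hx4]; exact hZle
  have t1 := lb3_bad k hk x κ hx1 hκ1 hκx' Z hZ1 hZ4 Δ hΔ1 (Real.log Δ) le_rfl
    (fun p => ∑ u ∈ boxZ k X, (((nn θ u).factorization p : ℕ) : ℝ)) (by
      intro p hp
      rw [hx4]
      exact vp_sum k hk g hg hd hirr θ hθ hfr p hp X Z hX1 hZ1 hZ')
  have t2 := lb3_gsum k hk CL hCL x κ hx1 hκ1 hκx Z hZ1 hZ4
  have t3 := lb3_small k hk C3 hC3 g hg hd X κ M hX0' hκ0 hM0 le_rfl hMX Y rfl
  rw [hx4] at t1 t2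
  -- the large primes
  have hterm : ∀ p : ℕ, p.Prime → (p : ℝ) ≤ Z →
      Real.log p * (rhoR g p * (((X : ℝ) + 2 * κ * (p : ℝ) ^ ((1 : ℝ) / k)) ^ k / p)) ≤
        (X : ℝ) ^ k * Kc * (1 * Real.log p / p) := by
    intro p hp hpZ
    have hp0 : (0 : ℝ) < p := by exact_mod_cast hp.pos
    have hlp : 0 ≤ Real.log p := Real.log_natCast_nonneg p
    have h1 : (p : ℝ) ^ ((1 : ℝ) / k) ≤ κ * X := by
      have h2 : (p : ℝ) ≤ (κ * X) ^ k := hpZ.trans hZle
      calc (p : ℝ) ^ ((1 : ℝ) / k) ≤ ((κ * X) ^ k) ^ ((1 : ℝ) / k) :=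
            Real.rpow_le_rpow hp0.le h2 (by positivity)
        _ = κ * X := by
            rw [one_div]
            exact Real.pow_rpow_inv_natCast (by positivity) (by omega)
    have h3 : ((X : ℝ) + 2 * κ * (p : ℝ) ^ ((1 : ℝ) / k)) ^ k ≤ (X : ℝ) ^ k * (1 + 2 * κ * κ) ^ k := by
      rw [← mul_pow]
      apply pow_le_pow_left₀ (by positivity)
      have h4 : 2 * κ * (p : ℝ) ^ ((1 : ℝ) / k) ≤ 2 * κ * (κ * X) := mul_le_mul_of_nonneg_left h1 (by positivity)
      linarith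
    have hrho : rhoR g p ≤ k := by
      unfold rhoR
      have := lb3_rho_le g hg p hp
      rw [hd] at this
      exact_mod_cast this
    have hrho0 : 0 ≤ rhoR g p := by unfold rhoR; positivity
    calc Real.log p * (rhoR g p * (((X : ℝ) + 2 * κ * (p : ℝ) ^ ((1 : ℝ) / k)) ^ k / p))
        ≤ Real.log p * (k * ((X : ℝ) ^ k * (1 + 2 * κ * κ) ^ k / p)) := by
          apply mul_le_mul_of_nonneg_left _ hlp
          apply mul_le_mul hrho _ (by positivity) (by positivity)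
          exact div_le_div_of_nonneg_right h3 hp0.le
      _ = (X : ℝ) ^ k * Kc * (1 * Real.log p / p) := by rw [hKc]; ring
  have hYZ : Y ≤ Z ∨ (Z : ℝ) < Y := le_or_gt _ _
  have t4 : ∑ p ∈ (range (Z + 1)).filter Nat.Prime,
        Real.log p * (rhoR g p * (((X : ℝ) + 2 * κ * (p : ℝ) ^ ((1 : ℝ) / k)) ^ k / p)) ≤
      ∑ p ∈ prLe Y, Real.log p * (rhoR g p * (((X : ℝ) + 2 * κ * (p : ℝ) ^ ((1 : ℝ) / k)) ^ k / p)) +
        (X : ℝ) ^ k * c4 := by
    have hnn : ∀ p : ℕ, 0 ≤ Real.log p * (rhoR g p * (((X : ℝ) + 2 * κ * (p : ℝ) ^ ((1 : ℝ) / k)) ^ k / p)) := by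
      intro p
      apply mul_nonneg (Real.log_natCast_nonneg p)
      unfold rhoR
      positivity
    rcases hYZ with hYZ | hYZ
    · have hsub : prLe Y ⊆ (range (Z + 1)).filter Nat.Prime := by
        intro p hp
        unfold prLe at hp
        rw [mem_filter, mem_range] at hp ⊢
        refine ⟨?_, hp.2⟩
        have : ⌊Y⌋₊ ≤ Z := by
          have := Nat.floor_mono hYZ
          rwa [Nat.floor_natCast] at this
        omega
      have hprZ : prLe (Z : ℝ) = (range (Z + 1)).filter Nat.Prime := by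
        unfold prLe; rw [Nat.floor_natCast]
      rw [← Finset.sum_sdiff hsub, add_comm]
      apply add_le_add le_rfl
      calc ∑ p ∈ (range (Z + 1)).filter Nat.Prime \ prLe Y,
            Real.log p * (rhoR g p * (((X : ℝ) + 2 * κ * (p : ℝ) ^ ((1 : ℝ) / k)) ^ k / p))
          ≤ ∑ p ∈ (range (Z + 1)).filter Nat.Prime \ prLe Y, (X : ℝ) ^ k * Kc * (1 * Real.log p / p) := by
            apply Finset.sum_le_sum
            intro p hp
            rw [mem_sdiff, mem_filter, mem_range] at hp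
            refine hterm p hp.1.2 ?_
            have : p ≤ Z := by omega
            exact_mod_cast this
        _ = (X : ℝ) ^ k * Kc * (Msum (fun _ => 1) Z - Msum (fun _ => 1) Y) := by
            rw [← Finset.mul_sum]
            congr 1
            unfold Msum
            rw [hprZ, ← Finset.sum_sdiff hsub]
            ring
        _ ≤ (X : ℝ) ^ k * Kc * (k * Real.log (κ * M) + 8) := by
            apply mul_le_mul_of_nonneg_left _ (by positivity)
            have hZR1 : (1 : ℝ) ≤ Z := by exact_mod_cast hZ1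
            have m1 := (mert_one hZR1).2
            have m2 := (mert_one hY1).1
            have m3 : Real.log Z ≤ Real.log Y + k * Real.log (κ * M) := by
              have h1 : (κ * (X : ℝ)) ^ k = Y * (κ * M) ^ k := by
                rw [hY, ← mul_pow]; congr 1; field_simp
              have h2 := Real.log_le_log (by linarith) hZle
              rw [h1, Real.log_mul (by linarith) (by positivity), Real.log_pow (κ * M) k] at h2
              exact h2
            linarith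
        _ = _ := by rw [hc4]; ring
    · have hsub : (range (Z + 1)).filter Nat.Prime ⊆ prLe Y := by
        intro p hp
        unfold prLe
        rw [mem_filter, mem_range] at hp ⊢
        refine ⟨?_, hp.2⟩
        have : Z ≤ ⌊Y⌋₊ := Nat.le_floor hYZ.le
        omega
      have := Finset.sum_le_sum_of_subset_of_nonneg hsub (fun p _ _ => hnn p)
      have h2 : 0 ≤ (X : ℝ) ^ k * c4 := by positivity
      linarith
  have h9 := hT' X hX1
  have h10 : (X : ℝ) ^ k * (k * Real.log X - (c1 + c2 + c3 + c4 + CT * Real.log H)) ≤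
      (X : ℝ) ^ k * Msum (rhoR g) Y := by
    have e1 : (X : ℝ) ^ k * (Real.log Δ * (k ^ 2 + 5 * k ^ 2 / Real.log 2)) = (X : ℝ) ^ k * c1 := rfl
    have e2 : (X : ℝ) ^ k * (4 * k ^ 2 * 2 ^ k * CL + 100 * 4 ^ k * k ^ 4 / Real.log 2) = (X : ℝ) ^ k * c2 := rfl
    have e3 : (X : ℝ) ^ k * (k * 2 ^ k * C3) = (X : ℝ) ^ k * c3 := rfl
    rw [e1] at t1
    rw [e2] at t2
    rw [e3] at t3
    have e4 : (X : ℝ) ^ k * (k * Real.log X - (c1 + c2 + c3 + c4 + CT * Real.log H)) =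
      ((X : ℝ) ^ k * (k * Real.log X) - CT * (X : ℝ) ^ k * Real.log H) -
        ((X : ℝ) ^ k * c1 + (X : ℝ) ^ k * c2 + (X : ℝ) ^ k * c3 + (X : ℝ) ^ k * c4) := by ring
    rw [e4]
    linarith
  exact le_of_mul_le_mul_left h10 hXk

theorem mf (g : ℤ[X]) (hg : g.Monic) (hirr : Irreducible g) (hd : 1 ≤ g.natDegree) :
    ∃ C : ℝ, ∀ Y : ℝ, 1 ≤ Y → |Msum (rhoR g) Y - Real.log Y| ≤ C := by
  set k := g.natDegree with hk
  -- height
  set H : ℝ := 2 + ∑ i ∈ range (k + 1), |((g.coeff i : ℤ) : ℝ)| with hHdef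
  have hH2 : 2 ≤ H := by
    have : 0 ≤ ∑ i ∈ range (k + 1), |((g.coeff i : ℤ) : ℝ)| := Finset.sum_nonneg (fun _ _ => abs_nonneg _)
    linarith
  have hht : HtLe g H := by
    intro i
    by_cases hi : i ∈ range (k + 1)
    · have := Finset.single_le_sum (f := fun i => |((g.coeff i : ℤ) : ℝ)|) (fun _ _ => abs_nonneg _) hi
      linarith
    · rw [mem_range] at hi
      rw [g.coeff_eq_zero_of_natDegree_lt (by omega)]
      simp only [Int.cast_zero, abs_zero]
      linarith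
  obtain ⟨C1, hC10, hup⟩ := mertens_upper k hd
  have hup' := hup g hg hk.symm hirr H hH2 hht
  obtain ⟨C, M, X0, hC0, hM1, hMX0, hlow⟩ := mf_low g hg hirr k hd hk.symm H hH2 hht
  have hX01 : 1 ≤ X0 := by
    have : (1 : ℝ) ≤ X0 := hM1.trans hMX0
    exact_mod_cast this
  have hM0 : 0 < M := by linarith
  have hlH : 0 ≤ Real.log H := Real.log_nonneg (by linarith)
  have hkR : (1 : ℝ) ≤ k := by exact_mod_cast hd
  have hX0R : (1 : ℝ) ≤ X0 := by exact_mod_cast hX01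
  have hlX0 : 0 ≤ Real.log X0 := Real.log_nonneg hX0R
  have hlM : 0 ≤ Real.log M := Real.log_nonneg hM1
  have hl2 : 0 ≤ Real.log 2 := Real.log_nonneg (by norm_num)
  have hmono : ∀ a b : ℝ, a ≤ b → Msum (rhoR g) a ≤ Msum (rhoR g) b := by
    intro a b hab
    unfold Msum
    apply Finset.sum_le_sum_of_subset_of_nonneg
    · intro p hp
      unfold prLe at hp ⊢
      rw [mem_filter, mem_range] at hp ⊢
      refine ⟨?_, hp.2⟩
      have := Nat.floor_mono hab
      omega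
    · intro p _ _
      have := Real.log_natCast_nonneg p
      unfold rhoR
      positivity
  refine ⟨C1 * Real.log H + C + k * Real.log X0 + k * Real.log 2, fun Y hY => ?_⟩
  have hY0 : 0 < Y := by linarith
  have hu := hup' Y hY
  rw [abs_le]
  constructor
  swap
  · have : 0 ≤ k * Real.log X0 + k * Real.log 2 := by positivity
    linarith
  -- lower bound
  set X : ℕ := ⌊M * Y ^ ((1 : ℝ) / k)⌋₊ with hX
  have hYk : (Y ^ ((1 : ℝ) / k)) ^ k = Y := by
    rw [one_div]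
    exact Real.rpow_inv_natCast_pow hY0.le (by omega)
  have hYk1 : 1 ≤ Y ^ ((1 : ℝ) / k) := Real.one_le_rpow hY (by positivity)
  by_cases hXX : X0 ≤ X
  · have h1 := hlow X hXX
    have hXM : (X : ℝ) ≤ M * Y ^ ((1 : ℝ) / k) := Nat.floor_le (by positivity)
    have h2 : ((X : ℝ) / M) ^ k ≤ Y := by
      rw [← hYk]
      apply pow_le_pow_left₀ (by positivity)
      rw [div_le_iff₀ hM0]
      linarith
    have h3 := hmono _ _ h2
    have hX1 : 1 ≤ X := hX01.trans hXX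
    have hXR : (1 : ℝ) ≤ X := by exact_mod_cast hX1
    have h4 : Y ≤ (2 * (X : ℝ)) ^ k := by
      rw [← hYk]
      apply pow_le_pow_left₀ (by positivity)
      have h5 : M * Y ^ ((1 : ℝ) / k) < X + 1 := Nat.lt_floor_add_one _
      have h6 : Y ^ ((1 : ℝ) / k) ≤ M * Y ^ ((1 : ℝ) / k) := le_mul_of_one_le_left (by positivity) hM1
      linarith
    have h7 := Real.log_le_log hY0 h4
    rw [Real.log_pow, Real.log_mul (by norm_num) (by positivity)] at h7
    have h8 : 0 ≤ k * Real.log X0 := by positivity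
    have h9 : 0 ≤ C1 * Real.log H := by positivity
    linarith
  · push Not at hXX
    have h1 : 0 ≤ Msum (rhoR g) Y := by
      unfold Msum
      apply Finset.sum_nonneg
      intro p _
      have := Real.log_natCast_nonneg p
      unfold rhoR
      positivity
    have h4 : Y ≤ (X0 : ℝ) ^ k := by
      rw [← hYk]
      apply pow_le_pow_left₀ (by positivity)
      have h5 : M * Y ^ ((1 : ℝ) / k) < X + 1 := Nat.lt_floor_add_one _
      have h6 : Y ^ ((1 : ℝ) / k) ≤ M * Y ^ ((1 : ℝ) / k) := le_mul_of_one_le_left (by positivity) hM1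
      have h7 : (X : ℝ) + 1 ≤ X0 := by exact_mod_cast hXX
      linarith
    have h7 := Real.log_le_log hY0 h4
    rw [Real.log_pow] at h7
    have h9 : 0 ≤ C1 * Real.log H := by positivity
    have h10 : 0 ≤ k * Real.log 2 := by positivity
    linarith

end Pool.Agent.H7.OR
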