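import Mathlib

/-! Moebius inversion in a cyclic subgroup.

Proof.  Fix `s` and put `y = s⁻¹ φ s`, `d = orderOf τ`.  If `y ∉ ⟨τ⟩` then `y ∉ ⟨τ^e⟩` for all `e` and
`⟨y⟩ ≠ ⟨τ⟩`: both sides have contribution `0`.  If `y = τ^j` (`j` a natural number) then for `e ∣ d`:
`y ∈ ⟨τ^e⟩ ↔ e ∣ j`  (⇐ clear; ⇒ `τ^j = τ^(e k)` gives `j ≡ e k (mod d)` and `e ∣ d`), and
`⟨y⟩ = ⟨τ⟩ ↔ gcd(j,d) = 1` (`orderOf (τ^j) = d / gcd (d,j)` and `Subgroup.eq_of_le_of_card_ge` or
`Subgroup.zpowers_eq...`).  So the contribution of `s` to the right hand side is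
`∑_{e ∣ gcd(j,d)} μ(e) = [gcd(j,d) = 1]` (`ArithmeticFunction.sum_moebius_eq` or
`ArithmeticFunction.moebius_mul_coe_zeta`; the divisors `e` of `d` with `e ∣ j` are the divisors of
`gcd(j,d)`, also for `j = 0`).  Sum over `s`. -/

set_option autoImplicit false

namespace Pool.Agent.H7.OR

open Finset

namespace MoAux

theorem sum_moebius_ite {d : ℕ} (hd : 1 ≤ d) (j : ℕ) :
    ∑ e ∈ d.divisors, ArithmeticFunction.moebius e * (if e ∣ j then (1 : ℤ) else 0)
      = if Nat.gcd d j = 1 then 1 else 0 := by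
  have h1 : (∑ e ∈ (Nat.gcd d j).divisors, (ArithmeticFunction.moebius e : ℤ))
      = if Nat.gcd d j = 1 then 1 else 0 := by
    have := ArithmeticFunction.coe_zeta_mul_moebius
    have h2 := congrArg (fun f => f (Nat.gcd d j)) this
    simp only [ArithmeticFunction.coe_zeta_mul_apply, ArithmeticFunction.one_apply] at h2
    simpa using h2
  have h3 : (Nat.gcd d j).divisors = d.divisors.filter (fun e => e ∣ j) := by
    ext e
    simp only [Nat.mem_divisors, mem_filter, Nat.dvd_gcd_iff]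
    constructor
    · rintro ⟨⟨h1, h2⟩, _⟩
      exact ⟨⟨h1, by omega⟩, h2⟩
    · rintro ⟨⟨h1, h2⟩, h3⟩
      exact ⟨⟨h1, h3⟩, Nat.gcd_ne_zero_left (by omega)⟩
  rw [← h1, h3, sum_filter]
  refine sum_congr rfl fun e _ => ?_
  split_ifs <;> simp

theorem mem_iff {G : Type} [Group G] (τ : G) {e : ℕ} (he : e ∣ orderOf τ)
    (j : ℕ) : τ ^ j ∈ Subgroup.zpowers (τ ^ e) ↔ e ∣ j := by
  constructor
  · intro h
    obtain ⟨k, hk⟩ := Subgroup.mem_zpowers_iff.1 h
    have h1 : τ ^ ((e : ℤ) * k - j) = 1 := by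
      rw [zpow_sub, zpow_mul, zpow_natCast, zpow_natCast, hk, mul_inv_cancel]
    have h2 : ((orderOf τ : ℕ) : ℤ) ∣ (e : ℤ) * k - j := orderOf_dvd_iff_zpow_eq_one.2 h1
    have h3 : (e : ℤ) ∣ (e : ℤ) * k - j := (Int.natCast_dvd_natCast.2 he).trans h2
    have h4 : (e : ℤ) ∣ j := by
      have := dvd_sub (dvd_mul_right (e : ℤ) k) h3
      simpa using this
    exact Int.natCast_dvd_natCast.1 h4
  · rintro ⟨k, rfl⟩
    rw [pow_mul]
    exact Subgroup.pow_mem _ (Subgroup.mem_zpowers _) k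

theorem gen_iff {G : Type} [Group G] [Finite G] (τ : G) (j : ℕ) :
    Subgroup.zpowers (τ ^ j) = Subgroup.zpowers τ ↔ Nat.gcd (orderOf τ) j = 1 := by
  have hpos : 0 < orderOf τ := orderOf_pos τ
  constructor
  · intro h
    have h1 : orderOf (τ ^ j) = orderOf τ := by
      rw [← Nat.card_zpowers, ← Nat.card_zpowers, h]
    rw [orderOf_pow] at h1
    have h2 : Nat.gcd (orderOf τ) j ∣ orderOf τ := Nat.gcd_dvd_left _ _
    have h3 := Nat.div_mul_cancel h2
    rw [h1] at h3
    have h4 : orderOf τ * Nat.gcd (orderOf τ) j = orderOf τ * 1 := by rw [h3, mul_one]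
    exact Nat.eq_of_mul_eq_mul_left hpos h4
  · intro h
    apply le_antisymm
    · rw [Subgroup.zpowers_le]
      exact Subgroup.pow_mem _ (Subgroup.mem_zpowers _) j
    · rw [Subgroup.zpowers_le]
      have h1 : Nat.Coprime (orderOf τ) j := h
      obtain ⟨m, hm⟩ := exists_pow_eq_self_of_coprime h1.symm
      have h2 : (τ ^ j) ^ m ∈ Subgroup.zpowers (τ ^ j) :=
        Subgroup.pow_mem _ (Subgroup.mem_zpowers _) m
      rwa [hm] at h2

end MoAux

open MoAux

open Classical in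
theorem mo_count {G : Type} [Group G] [Fintype G] (τ φ : G) :
    (((Finset.univ : Finset G).filter
      (fun s => Subgroup.zpowers (s⁻¹ * φ * s) = Subgroup.zpowers τ)).card : ℤ) =
    ∑ e ∈ (orderOf τ).divisors, ArithmeticFunction.moebius e *
      (((Finset.univ : Finset G).filter
        (fun s => s⁻¹ * φ * s ∈ Subgroup.zpowers (τ ^ e))).card : ℤ) := by
  have hpos : 0 < orderOf τ := orderOf_pos τ
  simp only [Finset.card_filter, Nat.cast_sum, Nat.cast_ite, Nat.cast_one, Nat.cast_zero,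
    Finset.mul_sum]
  rw [Finset.sum_comm]
  refine Finset.sum_congr rfl fun s _ => ?_
  generalize s⁻¹ * φ * s = y
  by_cases hy : y ∈ Subgroup.zpowers τ
  · obtain ⟨j, hj⟩ := (mem_powers_iff_mem_zpowers.2 hy)
    have hj : τ ^ j = y := hj
    subst hj
    have h1 : ∀ e ∈ (orderOf τ).divisors,
        ArithmeticFunction.moebius e * (if τ ^ j ∈ Subgroup.zpowers (τ ^ e) then (1 : ℤ) else 0)
        = ArithmeticFunction.moebius e * (if e ∣ j then (1 : ℤ) else 0) := by
      intro e he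
      congr 1
      exact if_congr (mem_iff τ (Nat.dvd_of_mem_divisors he) j) rfl rfl
    rw [Finset.sum_congr rfl h1, sum_moebius_ite hpos j]
    exact if_congr (gen_iff τ j) rfl rfl
  · have h1 : ¬ (Subgroup.zpowers y = Subgroup.zpowers τ) := by
      intro h
      exact hy (h ▸ Subgroup.mem_zpowers y)
    rw [if_neg h1]
    symm
    apply Finset.sum_eq_zero
    intro e _
    rw [if_neg, mul_zero]
    intro h
    apply hy
    have : Subgroup.zpowers (τ ^ e) ≤ Subgroup.zpowers τ := by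
      rw [Subgroup.zpowers_le]
      exact Subgroup.pow_mem _ (Subgroup.mem_zpowers _) e
    exact this h

/-- Companion: `∑_{e ∣ d} μ(e) (d / e) = φ(d)`; here only positivity is needed. -/
theorem mo_tot (d : ℕ) (hd : 1 ≤ d) :
    ∑ e ∈ d.divisors, (ArithmeticFunction.moebius e : ℤ) * ((d / e : ℕ) : ℤ) = (d.totient : ℤ) := by
  have h := (ArithmeticFunction.sum_eq_iff_sum_mul_moebius_eq
    (f := fun n => (n.totient : ℤ)) (g := fun n => (n : ℤ))).1 (by
      intro n hn
      have := Nat.sum_totient n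
      exact_mod_cast this) d hd
  rw [← h]
  have h2 := Nat.sum_divisorsAntidiagonal (n := d)
    (f := fun x y => ((ArithmeticFunction.moebius x : ℤ)) * (y : ℤ))
  rw [← h2]
  simp

end Pool.Agent.H7.OR
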