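import Pool.Agent.H7.OR.Spread

set_option autoImplicit false

open Polynomial NumberField IsDedekindDomain

namespace Pool.Agent.H7.OR

/-- a number field, Galois over `K`, containing given algebraic elements and all conjugates of given number fields -/
theorem sd_field (K : Type) [Field K] [NumberField K] (T : Finset (AlgebraicClosure K))
    {ι : Type} [Finite ι] (F : ι → Type) [∀ j, Field (F j)] [∀ j, NumberField (F j)] :
    ∃ (M : Type) (_ : Field M) (_ : NumberField M) (_ : Algebra K M)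
      (i : M →ₐ[K] AlgebraicClosure K), IsGalois K M ∧ (∀ t ∈ T, ∃ y : M, i y = t) ∧
      ∀ j, Nat.card (F j →+* M) = Module.finrank ℚ (F j) := by
  classical
  let A := AlgebraicClosure K
  have h0 : Algebra.IsAlgebraic ℚ A := Algebra.IsAlgebraic.trans ℚ K A
  have h3 : IsAlgClosure ℚ A := ⟨inferInstance, h0⟩
  have h4 : Normal ℚ A := IsAlgClosure.normal ℚ A
  let ik : K →ₐ[ℚ] A := (IsScalarTower.toAlgHom ℚ K A)
  let ij : ∀ j, F j →ₐ[ℚ] A := fun j => IsAlgClosed.lift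
  let E : IntermediateField ℚ A := ik.fieldRange ⊔ (⨆ j, (ij j).fieldRange) ⊔ IntermediateField.adjoin ℚ (T : Set A)
  have hfk : FiniteDimensional ℚ ik.fieldRange :=
    inferInstanceAs (FiniteDimensional ℚ (LinearMap.range ik.toLinearMap))
  have hfj : ∀ j, FiniteDimensional ℚ (ij j).fieldRange := fun j =>
    inferInstanceAs (FiniteDimensional ℚ (LinearMap.range (ij j).toLinearMap))
  have hfJ : FiniteDimensional ℚ (⨆ j, (ij j).fieldRange : IntermediateField ℚ A) :=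
    IntermediateField.finiteDimensional_iSup_of_finite
  have hfT : FiniteDimensional ℚ (IntermediateField.adjoin ℚ (T : Set A)) :=
    IntermediateField.finiteDimensional_adjoin (fun x _ => (h0.isAlgebraic x).isIntegral)
  have hfE : FiniteDimensional ℚ E := inferInstance
  let M := IntermediateField.normalClosure ℚ E A
  have h1 : FiniteDimensional ℚ M := inferInstance
  have h2 : NumberField M := ⟨⟩
  have hEM : E ≤ M := IntermediateField.le_normalClosure E
  have hN : Normal ℚ M := @normalClosure.normal ℚ E A _ _ _ _ _ h4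
  have hkM : ∀ x : K, ik x ∈ M := fun x => hEM ((le_sup_left.trans le_sup_left : ik.fieldRange ≤ E) ⟨x, rfl⟩)
  have hjM : ∀ j (x : F j), ij j x ∈ M := fun j x =>
    hEM (((le_iSup (fun j => (ij j).fieldRange) j).trans (le_sup_right.trans le_sup_left) : (ij j).fieldRange ≤ E) ⟨x, rfl⟩)
  have hTM : ∀ t ∈ T, t ∈ M := fun t ht =>
    hEM ((le_sup_right : IntermediateField.adjoin ℚ (T : Set A) ≤ E) (IntermediateField.subset_adjoin ℚ _ ht))
  let ak : K →+* M := (ik : K →+* A).codRestrict M.toSubfield.toSubring hkM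
  let _ : Algebra K M := ak.toAlgebra
  let i : M →ₐ[K] A := { (M.val : M →+* A) with commutes' := fun r => rfl }
  have hG : IsGalois ℚ M := ⟨⟩
  refine ⟨M, inferInstance, h2, ak.toAlgebra, i, ?_, ?_, ?_⟩
  · have : IsScalarTower ℚ K M := inferInstance
    exact IsGalois.tower_top_of_isGalois ℚ K M
  · intro t ht
    exact ⟨⟨t, hTM t ht⟩, rfl⟩
  · intro j
    have h1 : Nat.card (F j →+* M) = Nat.card (F j →ₐ[ℚ] M) :=
      Nat.card_congr (RingHom.equivRatAlgHom (R := F j) (S := M))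
    rw [h1]
    apply AlgHom.natCard_of_splits
    intro x
    let aj : F j →+* M := (ij j : F j →+* A).codRestrict M.toSubfield.toSubring (hjM j)
    have h2 : minpoly ℚ x = minpoly ℚ ((aj.toRatAlgHom : F j →ₐ[ℚ] M) x) :=
      (minpoly.algHom_eq _ aj.injective x).symm
    rw [h2]
    exact Normal.splits inferInstance _

/-- a Frobenius element over a place of degree one -/
theorem sd_frob {K M : Type} [Field K] [NumberField K] [Field M] [NumberField M] [Algebra K M]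
    [IsGalois K M] (p : ℕ) [Fact p.Prime] (π : 𝓞 K →+* ZMod p) :
    ∃ (Q : Ideal (𝓞 M)) (φ : M ≃ₐ[K] M), Q.IsPrime ∧ (p : 𝓞 M) ∈ Q ∧
      (∀ a, π a = 0 → algebraMap (𝓞 K) (𝓞 M) a ∈ Q) ∧
      ∀ x y : 𝓞 M, (y : M) = φ x → y - x ^ p ∈ Q := by
  have hp : p.Prime := Fact.out
  have hker : (RingHom.ker π).IsPrime := RingHom.ker_isPrime π
  have hint : Algebra.IsIntegral (𝓞 K) (𝓞 M) := inferInstance
  have hle : RingHom.ker (algebraMap (𝓞 K) (𝓞 M)) ≤ RingHom.ker π := by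
    have : RingHom.ker (algebraMap (𝓞 K) (𝓞 M)) = ⊥ := by
      rw [← RingHom.injective_iff_ker_eq_bot]
      exact FaithfulSMul.algebraMap_injective _ _
    rw [this]
    exact bot_le
  obtain ⟨Q, hQp, hQ⟩ := Ideal.exists_ideal_over_prime_of_isIntegral_of_isDomain (S := 𝓞 M) (RingHom.ker π) hle
  have hpQ : (p : 𝓞 M) ∈ Q := by
    have h1 : (p : 𝓞 K) ∈ RingHom.ker π := by
      rw [RingHom.mem_ker, map_natCast]
      exact ZMod.natCast_self p
    rw [← hQ, Ideal.mem_comap, map_natCast] at h1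
    exact h1
  have hQ0 : Q ≠ ⊥ := by
    rintro rfl
    rw [Ideal.mem_bot] at hpQ
    exact hp.ne_zero (by exact_mod_cast hpQ)
  have hfin : Finite (𝓞 M ⧸ Q) := Ideal.finiteQuotientOfFreeOfNeBot Q hQ0
  obtain ⟨φ, hφ⟩ := IsArithFrobAt.exists_of_isInvariant (𝓞 K) (M ≃ₐ[K] M) Q
  refine ⟨Q, φ, hQp, hpQ, ?_, ?_⟩
  · intro a ha
    have h1 : a ∈ RingHom.ker π := ha
    rw [← hQ, Ideal.mem_comap] at h1
    exact h1
  · intro x y hxy
    have h1 := hφ x
    have h2 : Nat.card (𝓞 K ⧸ Q.under (𝓞 K)) = p := by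
      have h3 : Q.under (𝓞 K) = RingHom.ker π := hQ
      rw [h3]
      have hsurj : Function.Surjective π := ZMod.ringHom_surjective π
      rw [Nat.card_congr (RingHom.quotientKerEquivOfSurjective hsurj).toEquiv, Nat.card_zmod]
    rw [h2] at h1
    have h3 : y = (MulSemiringAction.toAlgHom (𝓞 K) (𝓞 M) φ) x := by
      apply RingOfIntegers.ext
      rw [hxy]
      rfl
    rw [h3]
    exact h1


theorem sd_roots {A : Type} [Field A] [IsAlgClosed A] (P : A[X]) (m : ℕ) (hd : P.natDegree = m) :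
    ∃ α : Fin m → A, P = C P.leadingCoeff * ∏ i, (X - C (α i)) := by
  have hs : P.Splits := IsAlgClosed.splits P
  have hcard : P.roots.card = m := by
    rw [← hd]; exact (splits_iff_card_roots.1 hs)
  obtain ⟨l, hl⟩ := Quot.exists_rep P.roots
  have hl' : (l : Multiset A) = P.roots := hl
  have hlen : l.length = m := by
    rw [← hcard, ← hl']; rfl
  subst hlen
  refine ⟨fun i => l.get i, ?_⟩
  have h1 : P = C P.leadingCoeff * (P.roots.map fun a => X - C a).prod := hs.eq_prod_roots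
  conv_lhs => rw [h1, ← hl']
  congr 1
  simp only [Multiset.map_coe, Multiset.prod_coe]
  rw [← List.prod_ofFn]
  congr 1
  apply List.ext_get
  · simp
  · intro n h1 h2
    simp

theorem sd_res {K M : Type} [Field K] [NumberField K] [Field M] [NumberField M] [Algebra K M]
    (p : ℕ) [Fact p.Prime] (π : 𝓞 K →+* ZMod p) (Q : Ideal (𝓞 M)) [Algebra (ZMod p) (𝓞 M ⧸ Q)]
    (h : ∀ a, π a = 0 → algebraMap (𝓞 K) (𝓞 M) a ∈ Q) (a : 𝓞 K) :
    algebraMap (ZMod p) (𝓞 M ⧸ Q) (π a) =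
      ((Ideal.Quotient.mk Q).comp (algebraMap (𝓞 K) (𝓞 M))) a := by
  obtain ⟨m, hm⟩ : ∃ m : ℕ, π a = (m : ZMod p) := ⟨(π a).val, (ZMod.natCast_zmod_val _).symm⟩
  have h1 : π (a - (m : 𝓞 K)) = 0 := by rw [map_sub, map_natCast, hm, sub_self]
  have h2 := h _ h1
  rw [map_sub, map_natCast, ← Ideal.Quotient.eq_zero_iff_mem, map_sub, map_natCast, sub_eq_zero] at h2
  rw [hm, map_natCast, RingHom.comp_apply, h2]

open Classical in
theorem sd_sym {K M : Type} [Field K] [NumberField K] [Field M] [NumberField M] [Algebra K M]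
    (p : ℕ) [Fact p.Prime] (hp2 : p ≠ 2) (Q : Ideal (𝓞 M)) (hQ : Q.IsPrime) (hpQ : (p : 𝓞 M) ∈ Q)
    [Algebra (ZMod p) (𝓞 M ⧸ Q)] (φ : M ≃ₐ[K] M)
    (hφ : ∀ x y : 𝓞 M, (y : M) = φ x → y - x ^ p ∈ Q) (c : K) (hc : c ≠ 0)
    (y : 𝓞 M) (x : M) (hyx : algebraMap (𝓞 M) M y = algebraMap K M c * x) (a : ZMod p) (ha : a ≠ 0)
    (hya : Ideal.Quotient.mk Q (y ^ 2) = algebraMap (ZMod p) (𝓞 M ⧸ Q) a)
    (hy2 : φ (x ^ 2) = x ^ 2) :
    quadraticChar (ZMod p) a = if φ x = x then 1 else -1 := by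
  have hdom : IsDomain (𝓞 M ⧸ Q) := Ideal.Quotient.isDomain Q
  obtain ⟨m, rfl⟩ : ∃ m : ℤ, a = (m : ZMod p) := ⟨(a.val : ℤ), by
    push_cast
    exact (ZMod.natCast_zmod_val _).symm⟩
  rw [map_intCast] at hya
  have h1 : y ^ 2 - (m : 𝓞 M) ∈ Q := by
    rw [← Ideal.Quotient.eq_zero_iff_mem, map_sub, map_intCast, hya, sub_self]
  have hyQ : y ∉ Q := by
    intro h
    have h2 : Ideal.Quotient.mk Q (y ^ 2) = 0 :=
      Ideal.Quotient.eq_zero_iff_mem.2 (Q.pow_mem_of_mem h 2 (by norm_num))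
    rw [hya] at h2
    have h3 : algebraMap (ZMod p) (𝓞 M ⧸ Q) (m : ZMod p) = 0 := by rw [map_intCast]; exact h2
    exact ha ((map_eq_zero_iff _ (algebraMap (ZMod p) (𝓞 M ⧸ Q)).injective).1 h3)
  set Φ : 𝓞 M →+* 𝓞 M := RingOfIntegers.mapRingHom (φ : M →+* M) with hΦdef
  have hΦ : ∀ x, Φ x - x ^ p ∈ Q := fun x => hφ x (Φ x) rfl
  have hΦc : ∀ x : 𝓞 M, algebraMap (𝓞 M) M (Φ x) = φ (algebraMap (𝓞 M) M x) := fun x => rfl
  have hcM : algebraMap K M c ≠ 0 := by
    rw [Ne, map_eq_zero_iff _ (algebraMap K M).injective]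
    exact hc
  have hΦs : Φ y = y ↔ φ x = x := by
    constructor
    · intro h
      have h1 : algebraMap (𝓞 M) M (Φ y) = algebraMap (𝓞 M) M y := by rw [h]
      rw [hΦc, hyx, map_mul, AlgEquiv.commutes] at h1
      exact mul_left_cancel₀ hcM h1
    · intro h
      have h7 : algebraMap (𝓞 M) M (Φ y) = algebraMap (𝓞 M) M y := by
        rw [hΦc, hyx, map_mul, AlgEquiv.commutes, h]
      exact RingOfIntegers.ext h7
  have hΦ2 : (Φ y) ^ 2 = y ^ 2 := by
    have h7 : algebraMap (𝓞 M) M ((Φ y) ^ 2) = algebraMap (𝓞 M) M (y ^ 2) := by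
      rw [map_pow, map_pow, hΦc, hyx, map_mul, AlgEquiv.commutes, mul_pow, mul_pow, ← map_pow φ, hy2]
    exact RingOfIntegers.ext h7
  rcases sp_sym p hp2 Q hQ hpQ Φ hΦ y m h1 hyQ hΦ2 with ⟨h1, h2⟩ | ⟨h1, h2⟩
  · rw [h1, if_pos (hΦs.1 h2)]
  · rw [h1, if_neg (fun h => h2 (hΦs.2 h))]

theorem sd_int {M : Type} [Field M] [NumberField M] (x : M) (y : 𝓞 M) (h : x ^ 2 = algebraMap (𝓞 M) M y) :
    ∃ s : 𝓞 M, algebraMap (𝓞 M) M s = x := by
  have hint : IsIntegral ℤ x := by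
    apply IsIntegral.of_pow (n := 2) (by norm_num)
    rw [h]
    exact y.isIntegral_coe
  exact ⟨⟨x, hint⟩, rfl⟩

open Classical in
/-- Positive density of the places at which the polynomial `f` splits with the same quadratic
symbols as at one given place of degree one, and which are inert in the fields `F j`. -/
theorem spread0 {K : Type} [Field K] [NumberField K] (f : (𝓞 K)[X])
    {κ : Type} [Fintype κ] (z : κ → ℤ)
    {ι : Type} [Fintype ι] (F : ι → Type) [∀ j, Field (F j)] [∀ j, NumberField (F j)]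
    (p₀ : ℕ) [Fact p₀.Prime] (hp₀ : p₀ ≠ 2) (π₀ : 𝓞 K →+* ZMod p₀)
    (r₀ : Fin f.natDegree → ZMod p₀) (hr₀ : Function.Injective r₀) (hc₀ : π₀ f.leadingCoeff ≠ 0)
    (hfac : f.map π₀ = C (π₀ f.leadingCoeff) * ∏ i, (X - C (r₀ i)))
    (hz : ∀ k, (z k : ZMod p₀) ≠ 0)
    (hin : ∀ j, (Ideal.span {(p₀ : 𝓞 (F j))}).IsPrime) (B : ℕ) :
    PosDensity {v : HeightOneSpectrum (𝓞 K) | ∃ (p : ℕ) (_ : Fact p.Prime) (π : 𝓞 K →+* ZMod p)
      (r : Fin f.natDegree → ZMod p), RingHom.ker π = v.asIdeal ∧ B < p ∧ p ≠ 2 ∧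
      Function.Injective r ∧ π f.leadingCoeff ≠ 0 ∧
      f.map π = C (π f.leadingCoeff) * ∏ i, (X - C (r i)) ∧
      (∀ i j, i ≠ j → quadraticChar (ZMod p) (r i - r j) = quadraticChar (ZMod p₀) (r₀ i - r₀ j)) ∧
      (quadraticChar (ZMod p) (π f.leadingCoeff) = quadraticChar (ZMod p₀) (π₀ f.leadingCoeff)) ∧
      (∀ k, quadraticChar (ZMod p) (z k : ZMod p) = quadraticChar (ZMod p₀) (z k : ZMod p₀)) ∧
      (∀ j, (Ideal.span {(p : 𝓞 (F j))}).IsPrime)} := by
  have hp : p₀.Prime := Fact.out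
  have hc : f.leadingCoeff ≠ 0 := by
    intro h
    rw [h, map_zero] at hc₀
    exact hc₀ rfl
  have hf0 : f ≠ 0 := leadingCoeff_ne_zero.1 hc
  have hcK : (f.leadingCoeff : K) ≠ 0 := by
    intro h
    exact hc (RingOfIntegers.ext h)
  let A := AlgebraicClosure K
  have hinjA : Function.Injective (algebraMap (𝓞 K) A) := FaithfulSMul.algebraMap_injective _ _
  -- roots
  obtain ⟨e₁, he₁⟩ := sd_roots (f.map (algebraMap (𝓞 K) A)) f.natDegree
    (natDegree_map_eq_of_injective hinjA f)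
  rw [leadingCoeff_map_of_injective hinjA] at he₁
  have hsq : ∀ x : A, ∃ y : A, y ^ 2 = x := fun x => IsAlgClosed.exists_pow_nat_eq x (by norm_num)
  have hsA : ∀ i j, ∃ y : A, y ^ 2 = e₁ i - e₁ j := fun i j => hsq _
  choose sA hsA using hsA
  obtain ⟨cA, hcA⟩ := hsq (algebraMap (𝓞 K) A f.leadingCoeff)
  have htA : ∀ k, ∃ y : A, y ^ 2 = (z k : A) := fun k => hsq _
  choose tA htA using htA
  obtain ⟨M, hM1, hM2, hM3, i, hM4, hT, hF⟩ := sd_field K (Finset.univ.image e₁ ∪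
    Finset.univ.image (fun x : Fin f.natDegree × Fin f.natDegree => sA x.1 x.2) ∪ {cA} ∪
    Finset.univ.image tA) F
  have hi : Function.Injective i := i.injective
  have hE1 : ∀ k, ∃ y : M, i y = e₁ k := fun k => hT _ (by simp)
  have hS1 : ∀ k l, ∃ y : M, i y = sA k l := fun k l => hT _ (by
    simp only [Finset.mem_union, Finset.mem_image, Finset.mem_univ, true_and, Finset.mem_singleton]
    exact Or.inl (Or.inl (Or.inr ⟨(k, l), rfl⟩)))
  have hT1 : ∀ k, ∃ y : M, i y = tA k := fun k => hT _ (by simp)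
  choose e he using hE1
  choose s hs using hS1
  choose t ht using hT1
  obtain ⟨sc, hsc⟩ := hT cA (by simp)
  have hs2 : ∀ k l, s k l ^ 2 = e k - e l := by
    intro k l
    apply hi
    rw [map_pow, map_sub, hs, he, he, hsA]
  have hialg : ∀ x : 𝓞 K, i (algebraMap (𝓞 K) M x) = algebraMap (𝓞 K) A x := by
    intro x
    rw [IsScalarTower.algebraMap_apply (𝓞 K) K M, AlgHom.commutes, ← IsScalarTower.algebraMap_apply]
  have hsc2 : sc ^ 2 = algebraMap (𝓞 K) M f.leadingCoeff := by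
    apply hi
    rw [map_pow, hsc, hcA, hialg]
  have ht2 : ∀ k, t k ^ 2 = (z k : M) := by
    intro k
    apply hi
    rw [map_pow, ht, htA, map_intCast]
  have hfM : f.map (algebraMap (𝓞 K) M) = C (algebraMap (𝓞 K) M f.leadingCoeff) * ∏ k, (X - C (e k)) := by
    apply map_injective (i : M →+* A) hi
    rw [Polynomial.map_map, Polynomial.map_mul, map_C, Polynomial.map_prod]
    have h1 : (i : M →+* A).comp (algebraMap (𝓞 K) M) = algebraMap (𝓞 K) A := RingHom.ext hialg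
    rw [h1, he₁]
    congr 1
    · congr 1
      exact (hialg _).symm
    · apply Finset.prod_congr rfl
      intro k _
      rw [Polynomial.map_sub, map_X, map_C]
      congr 2
      exact (he k).symm
  -- Frobenius
  obtain ⟨Q, φ, hQ, hpQ, hπQ, hφ⟩ := sd_frob (M := M) p₀ π₀
  have hdom : IsDomain (𝓞 M ⧸ Q) := Ideal.Quotient.isDomain Q
  have hchar : CharP (𝓞 M ⧸ Q) p₀ := (CharP.charP_iff_prime_eq_zero hp).2 (by
    rw [← map_natCast (Ideal.Quotient.mk Q), Ideal.Quotient.eq_zero_iff_mem]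
    exact hpQ)
  let _ : Algebra (ZMod p₀) (𝓞 M ⧸ Q) := ZMod.algebra _ p₀
  have hinj : Function.Injective (algebraMap (ZMod p₀) (𝓞 M ⧸ Q)) :=
    (algebraMap (ZMod p₀) (𝓞 M ⧸ Q)).injective
  have hres := sd_res p₀ π₀ Q hπQ
  -- integral multiples of the roots
  obtain ⟨c', hc'⟩ : ∃ c' : 𝓞 M, c' = algebraMap (𝓞 K) (𝓞 M) f.leadingCoeff := ⟨_, rfl⟩
  have hcM : algebraMap (𝓞 M) M c' = algebraMap (𝓞 K) M f.leadingCoeff := by
    rw [hc']
    exact (IsScalarTower.algebraMap_apply (𝓞 K) (𝓞 M) M f.leadingCoeff).symm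
  have hcM' : algebraMap (𝓞 K) M f.leadingCoeff = algebraMap K M (f.leadingCoeff : K) :=
    IsScalarTower.algebraMap_apply (𝓞 K) K M f.leadingCoeff
  have hE2 : ∀ k, ∃ y : 𝓞 M, algebraMap (𝓞 M) M y = algebraMap (𝓞 K) M f.leadingCoeff * e k := by
    intro k
    have h1 : aeval (e k) f = 0 := by
      rw [← eval_map_algebraMap, hfM, eval_mul, eval_prod]
      apply mul_eq_zero_of_right
      apply Finset.prod_eq_zero (Finset.mem_univ k)
      simp
    have h2 := isIntegral_leadingCoeff_smul f (e k) h1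
    rw [Algebra.smul_def] at h2
    have h3 : IsIntegral ℤ (algebraMap (𝓞 K) M f.leadingCoeff * e k) := isIntegral_trans _ h2
    exact ⟨⟨_, h3⟩, rfl⟩
  choose E hE using hE2
  have hcbar : Ideal.Quotient.mk Q c' = algebraMap (ZMod p₀) (𝓞 M ⧸ Q) (π₀ f.leadingCoeff) := by
    rw [hres, hc', RingHom.comp_apply]
  have hcbar0 : algebraMap (ZMod p₀) (𝓞 M ⧸ Q) (π₀ f.leadingCoeff) ≠ 0 := by
    rw [Ne, map_eq_zero_iff _ hinj]
    exact hc₀
  have hAB : C c' ^ f.natDegree * f.map (algebraMap (𝓞 K) (𝓞 M)) =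
      C c' * ∏ k, (C c' * X - C (E k)) := by
    have hinj : Function.Injective (algebraMap (𝓞 M) M) := RingOfIntegers.coe_injective
    apply map_injective _ hinj
    rw [Polynomial.map_mul, Polynomial.map_mul, Polynomial.map_pow, map_C, Polynomial.map_map,
      Polynomial.map_prod, ← IsScalarTower.algebraMap_eq, hfM, hcM]
    have h6 : ∀ k, (C c' * X - C (E k) : (𝓞 M)[X]).map (algebraMap (𝓞 M) M) =
        C (algebraMap (𝓞 K) M f.leadingCoeff) * (X - C (e k)) := by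
      intro k
      rw [Polynomial.map_sub, Polynomial.map_mul, map_C, map_C, map_X, hcM, hE, mul_sub, C_mul]
    rw [Finset.prod_congr rfl (fun k _ => h6 k), Finset.prod_mul_distrib, Finset.prod_const,
      Finset.card_univ, Fintype.card_fin]
    ring
  -- matching of the roots
  have hmatch : ∀ j, ∃ k, Ideal.Quotient.mk Q (E k) =
      algebraMap (ZMod p₀) (𝓞 M ⧸ Q) (π₀ f.leadingCoeff * r₀ j) := by
    intro j
    have h1 := congrArg (Polynomial.map (Ideal.Quotient.mk Q)) hAB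
    rw [Polynomial.map_mul, Polynomial.map_mul, Polynomial.map_pow, map_C, Polynomial.map_map,
      Polynomial.map_prod, hcbar] at h1
    have h2 : (Ideal.Quotient.mk Q).comp (algebraMap (𝓞 K) (𝓞 M)) =
        (algebraMap (ZMod p₀) (𝓞 M ⧸ Q)).comp π₀ := (RingHom.ext hres).symm
    rw [h2, ← Polynomial.map_map, hfac] at h1
    have h3 := congrArg (fun g : (𝓞 M ⧸ Q)[X] => g.eval (algebraMap (ZMod p₀) (𝓞 M ⧸ Q) (r₀ j))) h1
    simp only [eval_mul, eval_pow, eval_C, eval_prod] at h3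
    have h4 : (Polynomial.map (algebraMap (ZMod p₀) (𝓞 M ⧸ Q))
        (C (π₀ f.leadingCoeff) * ∏ i, (X - C (r₀ i)))).eval (algebraMap (ZMod p₀) (𝓞 M ⧸ Q) (r₀ j)) = 0 := by
      rw [eval_map_apply, eval_mul, eval_prod]
      rw [Finset.prod_eq_zero (Finset.mem_univ j) (by simp), mul_zero, map_zero]
    rw [h4, mul_zero] at h3
    have h5 := (mul_eq_zero.1 h3.symm).resolve_left hcbar0
    rw [Finset.prod_eq_zero_iff] at h5
    obtain ⟨k, -, hk⟩ := h5
    refine ⟨k, ?_⟩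
    rw [Polynomial.map_sub, Polynomial.map_mul, map_C, map_X, map_C, eval_sub, eval_mul, eval_C,
      eval_C, eval_X, hcbar, sub_eq_zero] at hk
    rw [map_mul]
    exact hk.symm
  choose ρ hρ using hmatch
  have hρinj : Function.Injective ρ := by
    intro a b hab
    have h1 := hρ a
    rw [hab, hρ b] at h1
    have h2 := mul_left_cancel₀ hc₀ (hinj h1)
    exact hr₀ h2.symm
  have hρbij : Function.Bijective ρ := Finite.injective_iff_bijective.1 hρinj
  have hEinj : ∀ a b, Ideal.Quotient.mk Q (E (ρ a)) = Ideal.Quotient.mk Q (E (ρ b)) → a = b := by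
    intro a b hab
    rw [hρ, hρ] at hab
    exact hr₀ (mul_left_cancel₀ hc₀ (hinj hab))
  have hfM' : f.map (algebraMap (𝓞 K) M) = C (algebraMap (𝓞 K) M f.leadingCoeff) * ∏ k, (X - C (e (ρ k))) := by
    rw [hfM]
    congr 1
    exact (Function.Bijective.prod_comp hρbij (fun k => X - C (e k))).symm
  have heinj : Function.Injective (fun k => e (ρ k)) := by
    intro a b hab
    apply hEinj
    have h1 : e (ρ a) = e (ρ b) := hab
    have h7 : algebraMap (𝓞 M) M (E (ρ a)) = algebraMap (𝓞 M) M (E (ρ b)) := by rw [hE, hE, h1]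
    rw [RingOfIntegers.ext h7]
  have hφe : ∀ k, φ (e (ρ k)) = e (ρ k) := by
    intro k
    have h1 : (f.map (algebraMap (𝓞 K) M)).eval (φ (e (ρ k))) = 0 := by
      have h2 : (f.map (algebraMap (𝓞 K) M)).eval (e (ρ k)) = 0 := by
        rw [hfM', eval_mul, eval_prod]
        apply mul_eq_zero_of_right
        apply Finset.prod_eq_zero (Finset.mem_univ k)
        simp
      have h3 : (f.map (algebraMap (𝓞 K) K)).map (algebraMap K M) = f.map (algebraMap (𝓞 K) M) := by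
        rw [Polynomial.map_map, ← IsScalarTower.algebraMap_eq]
      rw [← h3, eval_map_algebraMap] at h2 ⊢
      rw [aeval_algHom_apply, h2, map_zero]
    rw [hfM', eval_mul, eval_prod, eval_C] at h1
    have hcM0 : algebraMap (𝓞 K) M f.leadingCoeff ≠ 0 := by
      rw [Ne, FaithfulSMul.algebraMap_eq_zero_iff]
      exact hc
    have h2 := (mul_eq_zero.1 h1).resolve_left hcM0
    rw [Finset.prod_eq_zero_iff] at h2
    obtain ⟨l, -, hl⟩ := h2
    rw [eval_sub, eval_X, eval_C, sub_eq_zero] at hl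
    have h3 : algebraMap (𝓞 M) M (E (ρ l)) = φ (algebraMap (𝓞 M) M (E (ρ k))) := by
      rw [hE, hE, map_mul, hl, hcM', AlgEquiv.commutes]
    have h4 := hφ (E (ρ k)) (E (ρ l)) h3
    rw [← Ideal.Quotient.eq_zero_iff_mem, map_sub, map_pow, sub_eq_zero, hρ k, ← map_pow,
      ZMod.pow_card, ← hρ k] at h4
    rw [hl, hEinj _ _ h4]
  -- transitivity
  have hσF : ∀ j, ∀ τ τ' : F j →+* M, ∃ n : ℤ, ∀ x, τ' x = (φ ^ n) (τ x) := by
    intro j τ τ'
    have hfin : Finite (F j →+* M) := by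
      have h0 : Module.finrank ℚ (F j) ≠ 0 := Module.finrank_pos.ne'
      rw [← hF j] at h0
      exact (Nat.card_ne_zero.1 h0).2
    have hpF : ((p₀ : ℕ) : 𝓞 (F j)) ≠ 0 := Nat.cast_ne_zero.2 hp.ne_zero
    have h1 := fr2_orb (F j) (hF j) p₀ hp ((Ideal.span_singleton_prime hpF).1 (hin j)) Q hQ hpQ
      (UpAux.rs K M φ) (fun x => hφ x _ rfl) τ
    have h2 : embOrbit (UpAux.rs K M φ) τ = Set.univ := by
      apply Set.eq_of_subset_of_ncard_le (Set.subset_univ _)
      rw [Set.ncard_univ, hF]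
      exact h1
    obtain ⟨g, ⟨n, rfl⟩, hg⟩ : τ' ∈ embOrbit (UpAux.rs K M φ) τ := by rw [h2]; trivial
    refine ⟨n, fun x => ?_⟩
    rw [hg x]
    have h3 : (UpAux.rs K M φ) ^ n = UpAux.rs K M (φ ^ n) := (map_zpow _ _ _).symm
    show ((UpAux.rs K M φ) ^ n) (τ x) = _
    rw [h3]
    rfl
  -- signs
  have hz0 : ∀ k, z k ≠ 0 := by
    intro k h
    apply hz k
    rw [h, Int.cast_zero]
  have hsign1 : ∀ a b, a ≠ b → quadraticChar (ZMod p₀) (r₀ a - r₀ b) =
      if φ (s (ρ a) (ρ b)) = s (ρ a) (ρ b) then 1 else -1 := by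
    intro a b hab
    obtain ⟨S, hS⟩ := sd_int (algebraMap (𝓞 K) M f.leadingCoeff * s (ρ a) (ρ b)) (c' * (E (ρ a) - E (ρ b))) (by
      rw [map_mul, map_sub, hcM, hE, hE, mul_pow, hs2]
      ring)
    rw [← sp_sq2 _ _ hc₀]
    apply sd_sym p₀ hp₀ Q hQ hpQ φ hφ (f.leadingCoeff : K) hcK S
    · rw [hS, hcM']
    · exact mul_ne_zero (pow_ne_zero 2 hc₀) (sub_ne_zero.2 (fun h => hab (hr₀ h)))
    · have h1 : S ^ 2 = c' * (E (ρ a) - E (ρ b)) := by
        have h7 : algebraMap (𝓞 M) M (S ^ 2) = algebraMap (𝓞 M) M (c' * (E (ρ a) - E (ρ b))) := by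
          rw [map_pow, hS, map_mul, map_sub, hcM, hE, hE, mul_pow, hs2]
          ring
        exact RingOfIntegers.ext h7
      rw [h1, map_mul, map_sub, hρ, hρ, hcbar]
      simp only [map_mul, map_sub, map_pow]
      ring
    · rw [hs2, map_sub, hφe, hφe]
  have hsign2 : quadraticChar (ZMod p₀) (π₀ f.leadingCoeff) = if φ sc = sc then 1 else -1 := by
    obtain ⟨S, hS⟩ := sd_int sc c' (by rw [hsc2, hcM])
    apply sd_sym p₀ hp₀ Q hQ hpQ φ hφ 1 one_ne_zero S sc (by rw [hS, map_one, one_mul]) _ hc₀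
    · have h1 : S ^ 2 = c' := by
        have h7 : algebraMap (𝓞 M) M (S ^ 2) = algebraMap (𝓞 M) M c' := by
          rw [map_pow, hS, hsc2, hcM]
        exact RingOfIntegers.ext h7
      rw [h1, hcbar]
    · rw [hsc2, hcM', AlgEquiv.commutes]
  have hsign3 : ∀ k, quadraticChar (ZMod p₀) (z k : ZMod p₀) = if φ (t k) = t k then 1 else -1 := by
    intro k
    obtain ⟨S, hS⟩ := sd_int (t k) (z k : 𝓞 M) (by rw [ht2, map_intCast])
    apply sd_sym p₀ hp₀ Q hQ hpQ φ hφ 1 one_ne_zero S (t k) (by rw [hS, map_one, one_mul]) _ (hz k)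
    · have h1 : S ^ 2 = (z k : 𝓞 M) := by
        have h7 : algebraMap (𝓞 M) M (S ^ 2) = algebraMap (𝓞 M) M (z k : 𝓞 M) := by
          rw [map_pow, hS, ht2, map_intCast]
        exact RingOfIntegers.ext h7
      rw [h1, map_intCast, map_intCast]
    · rw [ht2, map_intCast]
  have hmain := spread f hf0 φ (fun k => e (ρ k)) heinj hfM' hφe (fun a b => s (ρ a) (ρ b))
    (fun a b _ => hs2 _ _) sc hsc2 z hz0 t ht2 F hF hσF B
  refine base_mono ?_ hmain
  rintro v ⟨p, hpf, π, r, h1, h2, h3, h4, h5, h6, h7, h8, h9, h10⟩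
  refine ⟨p, hpf, π, r, h1, h2, h3, h4, h5, h6, ?_, ?_, ?_, h10⟩
  · intro a b hab
    rw [h7 a b hab, hsign1 a b hab]
  · rw [h8, hsign2]
  · intro k
    rw [h9 k, hsign3 k]

end Pool.Agent.H7.OR
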