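import Pool.Agent.H75.EK.Mert
set_option autoImplicit false

namespace Pool.Agent.H7.OR

open EK75 Finset

open Classical in
theorem wi_count (w : ℕ → ℝ) (W C a : ℝ) (hw0 : ∀ p, 0 ≤ w p) (hw : ∀ p, w p ≤ W) (ha : 0 < a)
    (h : ∀ Y : ℝ, 1 ≤ Y → |∑ p ∈ prLe Y, w p * Real.log p / p - a * Real.log Y| ≤ C) :
    ∃ c : ℝ, 0 < c ∧ ∀ᶠ Y : ℝ in Filter.atTop,
      c * (Y / Real.log Y) ≤ (((prLe Y).filter (fun p => w p ≠ 0)).card : ℝ) := by
  have hC0 : 0 ≤ C := (abs_nonneg _).trans (h 1 le_rfl)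
  set B : ℝ := Real.exp ((2 * C + 1) / a) with hB
  have hB1 : 1 ≤ B := Real.one_le_exp (by positivity)
  have hB0 : 0 < B := by linarith
  have hlB : a * Real.log B = 2 * C + 1 := by
    rw [hB, Real.log_exp]; field_simp
  set W1 : ℝ := max W 1 with hW1
  have hW11 : 1 ≤ W1 := le_max_right _ _
  have hwW : ∀ p, w p ≤ W1 := fun p => (hw p).trans (le_max_left _ _)
  refine ⟨1 / (B * W1), by positivity, ?_⟩
  filter_upwards [Filter.eventually_ge_atTop (B + 2)] with Y hY
  have hY0 : 0 < Y := by linarith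
  have hlY : 0 < Real.log Y := Real.log_pos (by linarith)
  set z : ℝ := Y / B with hz
  have hz1 : 1 ≤ z := by rw [hz, le_div_iff₀ hB0]; linarith
  have hzY : z ≤ Y := div_le_self hY0.le hB1
  have h1 := abs_le.1 (h Y (by linarith))
  have h2 := abs_le.1 (h z hz1)
  have h3 : Real.log z = Real.log Y - Real.log B := by
    rw [hz, Real.log_div hY0.ne' hB0.ne']
  have hsub : prLe z ⊆ prLe Y := by
    intro p hp
    unfold prLe at hp ⊢
    rw [mem_filter, mem_range] at hp ⊢
    refine ⟨?_, hp.2⟩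
    have := Nat.floor_mono hzY
    omega
  have h4 : 1 ≤ ∑ p ∈ prLe Y \ prLe z, w p * Real.log p / p := by
    have h5 := Finset.sum_sdiff (f := fun p : ℕ => w p * Real.log p / p) hsub
    rw [h3] at h2
    have h6 : a * (Real.log Y - Real.log B) = a * Real.log Y - (2 * C + 1) := by
      rw [mul_sub, hlB]
    linarith [h1.1, h2.2]
  have h5 : ∑ p ∈ prLe Y \ prLe z, w p * Real.log p / p ≤
      ∑ p ∈ (prLe Y \ prLe z).filter (fun p => w p ≠ 0), W1 * Real.log Y / z := by
    rw [← Finset.sum_filter_add_sum_filter_not (prLe Y \ prLe z) (fun p => w p ≠ 0)]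
    have h6 : ∑ p ∈ (prLe Y \ prLe z).filter (fun p => ¬ (w p ≠ 0)), w p * Real.log p / p = 0 := by
      apply Finset.sum_eq_zero
      intro p hp
      rw [mem_filter] at hp
      have := not_not.1 hp.2
      rw [this]; simp
    rw [h6, add_zero]
    apply Finset.sum_le_sum
    intro p hp
    rw [mem_filter, mem_sdiff] at hp
    obtain ⟨⟨hpY, hpz⟩, -⟩ := hp
    unfold prLe at hpY hpz
    rw [mem_filter, mem_range] at hpY hpz
    have hp0 : (0 : ℝ) < p := by exact_mod_cast hpY.2.pos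
    have hpz' : z < p := by
      have h7 : ¬ (p < ⌊z⌋₊ + 1) := fun h => hpz ⟨h, hpY.2⟩
      have h8 : ⌊z⌋₊ + 1 ≤ p := by omega
      have h9 := Nat.lt_floor_add_one z
      have h10 : ((⌊z⌋₊ + 1 : ℕ) : ℝ) ≤ p := by exact_mod_cast h8
      push_cast at h10
      linarith
    have hpY' : (p : ℝ) ≤ Y := by
      have : p ≤ ⌊Y⌋₊ := by omega
      exact (Nat.le_floor_iff hY0.le).1 this
    have hlp : 0 ≤ Real.log p := Real.log_natCast_nonneg p
    have hlpY : Real.log p ≤ Real.log Y := Real.log_le_log hp0 hpY'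
    have hz0 : 0 < z := by linarith
    exact div_le_div₀ (by positivity) (mul_le_mul (hwW p) hlpY hlp (by positivity)) hz0 hpz'.le
  rw [Finset.sum_const, nsmul_eq_mul] at h5
  have h6 : (((prLe Y \ prLe z).filter (fun p => w p ≠ 0)).card : ℝ) ≤
      (((prLe Y).filter (fun p => w p ≠ 0)).card : ℝ) := by
    exact_mod_cast Finset.card_le_card (Finset.filter_subset_filter _ Finset.sdiff_subset)
  have h7 : 1 ≤ (((prLe Y).filter (fun p => w p ≠ 0)).card : ℝ) * (W1 * Real.log Y / z) := by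
    refine (h4.trans h5).trans ?_
    apply mul_le_mul_of_nonneg_right h6
    have : 0 < z := by linarith
    positivity
  have hz0 : 0 < z := by linarith
  have h8 : z / (W1 * Real.log Y) ≤ (((prLe Y).filter (fun p => w p ≠ 0)).card : ℝ) := by
    rw [div_le_iff₀ (by positivity)]
    rw [← mul_div_assoc, le_div_iff₀ hz0] at h7
    linarith
  refine le_trans (le_of_eq ?_) h8
  rw [hz]
  field_simp

end Pool.Agent.H7.OR
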