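import Pool.Agent.H7.OR.Mf
import Pool.Agent.H7.OR.Fc
import Pool.Agent.H7.OR.Cy
import Pool.Agent.H7.OR.Mo
import Pool.Agent.H7.OR.Wi
import Pool.Agent.H7.OR.FpDefs

/-! Positive lower density of the primes with Frobenius element generating a given cyclic group.

Proof.  `G = Gal(M/ℚ)`, `d = orderOf τ`.  For every `e ∣ d` take `h_e, β_e, Δ_e` from `cyc_exists` for
`τ^e` (order `d/e`; `h_e` is irreducible monic of degree `≥ 1`).  For every prime `p` choose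
`(P_p, Φ p)` by `EK75.frob_exists`.  For all primes `p` not dividing `∏ Δ_e` (`frob_count_eq`):
`#{s : s⁻¹ Φ(p) s ∈ ⟨τ^e⟩} = (d/e) rho h_e p`.  By `mo_count`
`w(p) := #{s : ⟨s⁻¹ Φ(p) s⟩ = ⟨τ⟩} = ∑_{e ∣ d} μ(e) (d/e) rho h_e p` for those `p` (and anything for the
finitely many others, which contribute `O(1)`).  By `mf` and `mo_tot`
`∑_{p ≤ Y} w(p) log p / p = φ(d) log Y + O(1)`; `0 ≤ w ≤ |G|`, `φ(d) ≥ 1`.  `wi_count` gives the bound
for the number of `p ≤ Y` with `w(p) ≠ 0`; for such `p` there is `s` with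
`⟨s⁻¹ Φ(p) s⟩ = ⟨τ⟩`, and `s⁻¹ Φ(p) s` is a Frobenius element at the prime `s⁻¹ P_p`
(= `P_p.comap` of the action of `s`), so `FrobP M τ p` (for `p` prime; `prLe` consists of primes). -/

set_option autoImplicit false

namespace Pool.Agent.H7.OR

open EK75 Polynomial Finset NumberField

theorem Sm_conj (M : Type) [Field M] [NumberField M] [IsGalois ℚ M] (τ : M ≃ₐ[ℚ] M) (p : ℕ)
    (hp : p.Prime) (P : Ideal (𝓞 M)) (hP : P.IsPrime) (hpP : (p : 𝓞 M) ∈ P) (φ s : M ≃ₐ[ℚ] M)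
    (hφ : ∀ x : 𝓞 M, φ • x - x ^ p ∈ P)
    (hs : Subgroup.zpowers (s⁻¹ * φ * s) = Subgroup.zpowers τ) : FrobP M τ p := by
  refine ⟨hp, P.comap (MulSemiringAction.toRingHom (M ≃ₐ[ℚ] M) (𝓞 M) s), s⁻¹ * φ * s, ?_, ?_, ?_, hs⟩
  · exact Ideal.comap_isPrime _ P
  · rw [Ideal.mem_comap, map_natCast]
    exact hpP
  · intro x
    rw [Ideal.mem_comap, map_sub, map_pow]
    have h1 : (MulSemiringAction.toRingHom (M ≃ₐ[ℚ] M) (𝓞 M) s) ((s⁻¹ * φ * s) • x) = φ • (s • x) := by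
      change s • ((s⁻¹ * φ * s) • x) = φ • (s • x)
      rw [smul_smul, smul_smul]
      congr 1
      group
    rw [h1]
    exact hφ (s • x)

open Classical in
theorem Sm_id (M : Type) [Field M] [NumberField M] [IsGalois ℚ M] (τ : M ≃ₐ[ℚ] M)
    (h : ℕ → ℤ[X]) (β : ℕ → 𝓞 M) (Δ : ℕ → ℕ) (hc : ∀ e, CycGen M (τ ^ e) (h e) (β e) (Δ e))
    (p : ℕ) (hp : p.Prime) (hb : ∀ e ∈ (orderOf τ).divisors, ¬ p ∣ Δ e)
    (P : Ideal (𝓞 M)) (hP : P.IsPrime) (hpP : (p : 𝓞 M) ∈ P) (φ : M ≃ₐ[ℚ] M)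
    (hφ : ∀ x : 𝓞 M, φ • x - x ^ p ∈ P) :
    (((Finset.univ : Finset (M ≃ₐ[ℚ] M)).filter
      (fun s => Subgroup.zpowers (s⁻¹ * φ * s) = Subgroup.zpowers τ)).card : ℝ) =
    ∑ e ∈ (orderOf τ).divisors, ((ArithmeticFunction.moebius e : ℤ) : ℝ) *
      ((orderOf τ / e : ℕ) : ℝ) * rhoR (h e) p := by
  have h1 := mo_count τ φ
  have h2 : ∀ e ∈ (orderOf τ).divisors, ((Finset.univ : Finset (M ≃ₐ[ℚ] M)).filter
      (fun s => s⁻¹ * φ * s ∈ Subgroup.zpowers (τ ^ e))).card = (orderOf τ / e) * rho (h e) p := by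
    intro e he
    have hed : e ∣ orderOf τ := Nat.dvd_of_mem_divisors he
    have he0 : e ≠ 0 := (Nat.pos_of_mem_divisors he).ne'
    rw [frob_count_eq M (τ ^ e) (h e) (β e) (Δ e) (hc e) p hp (hb e he) P hP hpP φ hφ,
      orderOf_pow_of_dvd he0 hed]
  have h3 : ((((Finset.univ : Finset (M ≃ₐ[ℚ] M)).filter
      (fun s => Subgroup.zpowers (s⁻¹ * φ * s) = Subgroup.zpowers τ)).card : ℤ) : ℝ) =
      ∑ e ∈ (orderOf τ).divisors, ((ArithmeticFunction.moebius e : ℤ) : ℝ) *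
      ((orderOf τ / e : ℕ) : ℝ) * rhoR (h e) p := by
    rw [h1, Int.cast_sum]
    refine Finset.sum_congr rfl fun e he => ?_
    rw [h2 e he]
    unfold rhoR
    rw [Int.cast_mul, Int.cast_natCast, Nat.cast_mul]
    ring
  rw [← h3]
  push_cast
  rfl

open Classical in
theorem sm_count (M : Type) [Field M] [NumberField M] [IsGalois ℚ M] (τ : M ≃ₐ[ℚ] M) :
    ∃ c : ℝ, 0 < c ∧ ∀ᶠ Y : ℝ in Filter.atTop,
      c * (Y / Real.log Y) ≤ (((prLe Y).filter (fun p => FrobP M τ p)).card : ℝ) := by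
  have hd : 0 < orderOf τ := orderOf_pos τ
  choose h β Δ hc using fun e : ℕ => cyc_exists M (τ ^ e)
  have hdeg : ∀ e, 1 ≤ (h e).natDegree := by
    intro e
    have h1 := (hc e).deg
    have h2 : 0 < Module.finrank ℚ M := Module.finrank_pos
    by_contra hcon
    have h3 : (h e).natDegree = 0 := by omega
    rw [h3, zero_mul] at h1
    omega
  choose C hC using fun e => mf (h e) (hc e).monic (hc e).irr (hdeg e)
  choose! P φ hPp hpP hφ using fun (p : ℕ) (hp : p.Prime) => frob_exists M p hp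
  obtain ⟨D, hD⟩ : ∃ D, D = (orderOf τ).divisors := ⟨_, rfl⟩
  obtain ⟨w, hwdef⟩ : ∃ w : ℕ → ℝ, w = fun p => if p.Prime then
    (((Finset.univ : Finset (M ≃ₐ[ℚ] M)).filter
      (fun s => Subgroup.zpowers (s⁻¹ * φ p * s) = Subgroup.zpowers τ)).card : ℝ) else 0 := ⟨_, rfl⟩
  obtain ⟨w0, hw0def⟩ : ∃ w0 : ℕ → ℝ, w0 = fun p => ∑ e ∈ D,
    ((ArithmeticFunction.moebius e : ℤ) : ℝ) * ((orderOf τ / e : ℕ) : ℝ) * rhoR (h e) p := ⟨_, rfl⟩
  have hid : ∀ p, p.Prime → (∀ e ∈ D, ¬ p ∣ Δ e) → w p = w0 p := by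
    intro p hp hb
    rw [hwdef, hw0def]
    simp only [if_pos hp]
    rw [hD] at hb ⊢
    exact Sm_id M τ h β Δ hc p hp hb (P p) (hPp p hp) (hpP p hp) (φ p) (hφ p hp)
  have hprod : (∏ e ∈ D, Δ e) ≠ 0 := by
    rw [Finset.prod_ne_zero_iff]
    intro e _
    have := (hc e).pos
    omega
  obtain ⟨B, hB⟩ : ∃ B, B = (∏ e ∈ D, Δ e).divisors := ⟨_, rfl⟩
  have hnB : ∀ p, p ∉ B → ∀ e ∈ D, ¬ p ∣ Δ e := by
    intro p hpB e he hdvd
    apply hpB
    rw [hB, Nat.mem_divisors]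
    exact ⟨hdvd.trans (Finset.dvd_prod_of_mem Δ he), hprod⟩
  -- the weight w0
  have hM0 : ∀ Y : ℝ, 1 ≤ Y → |∑ p ∈ prLe Y, w0 p * Real.log p / p - (Nat.totient (orderOf τ) : ℝ) * Real.log Y| ≤
      ∑ e ∈ D, |((ArithmeticFunction.moebius e : ℤ) : ℝ) * ((orderOf τ / e : ℕ) : ℝ)| * C e := by
    intro Y hY
    have h1 : ∑ p ∈ prLe Y, w0 p * Real.log p / p =
        ∑ e ∈ D, ((ArithmeticFunction.moebius e : ℤ) : ℝ) * ((orderOf τ / e : ℕ) : ℝ) *
          Msum (rhoR (h e)) Y := by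
      unfold Msum
      simp only [hw0def, Finset.mul_sum, Finset.sum_mul, Finset.sum_div]
      rw [Finset.sum_comm]
      refine Finset.sum_congr rfl fun e _ => Finset.sum_congr rfl fun p _ => ?_
      ring
    have h2 : (Nat.totient (orderOf τ) : ℝ) * Real.log Y =
        ∑ e ∈ D, ((ArithmeticFunction.moebius e : ℤ) : ℝ) * ((orderOf τ / e : ℕ) : ℝ) * Real.log Y := by
      rw [← Finset.sum_mul, hD]
      congr 1
      have := mo_tot (orderOf τ) hd
      have h3 : ((∑ e ∈ (orderOf τ).divisors, (ArithmeticFunction.moebius e : ℤ) *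
          ((orderOf τ / e : ℕ) : ℤ) : ℤ) : ℝ) = (((orderOf τ).totient : ℤ) : ℝ) := by rw [this]
      rw [Int.cast_sum] at h3
      rw [show ((Nat.totient (orderOf τ) : ℕ) : ℝ) = (((orderOf τ).totient : ℤ) : ℝ) by push_cast; rfl, ← h3]
      refine Finset.sum_congr rfl fun e _ => ?_
      push_cast
      rfl
    rw [h1, h2, ← Finset.sum_sub_distrib]
    refine (Finset.abs_sum_le_sum_abs _ _).trans (Finset.sum_le_sum fun e _ => ?_)
    rw [← mul_sub, abs_mul]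
    exact mul_le_mul_of_nonneg_left (hC e Y hY) (abs_nonneg _)
  have hdiff : ∀ Y : ℝ, |∑ p ∈ prLe Y, w p * Real.log p / p - ∑ p ∈ prLe Y, w0 p * Real.log p / p| ≤
      ∑ p ∈ B, |(w p - w0 p) * Real.log p / p| := by
    intro Y
    rw [← Finset.sum_sub_distrib]
    refine (Finset.abs_sum_le_sum_abs _ _).trans ?_
    have h1 : ∀ p ∈ prLe Y, |w p * Real.log p / p - w0 p * Real.log p / p| ≠ 0 → p ∈ B := by
      intro p hp hne
      by_contra hpB
      apply hne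
      have hpp : p.Prime := by
        unfold prLe at hp
        exact (Finset.mem_filter.1 hp).2
      rw [hid p hpp (hnB p hpB)]
      simp
    rw [← Finset.sum_filter_of_ne h1]
    refine (Finset.sum_le_sum_of_subset_of_nonneg (t := B) ?_ fun _ _ _ => abs_nonneg _).trans ?_
    · intro p hp
      exact (Finset.mem_filter.1 hp).2
    · refine le_of_eq (Finset.sum_congr rfl fun p _ => ?_)
      congr 1
      ring
  have htot : (0 : ℝ) < (Nat.totient (orderOf τ) : ℝ) := by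
    exact_mod_cast Nat.totient_pos.2 hd
  have hwn : ∀ p, 0 ≤ w p := by
    intro p
    rw [hwdef]
    dsimp only
    split_ifs
    · positivity
    · exact le_rfl
  have hwW : ∀ p, w p ≤ (Fintype.card (M ≃ₐ[ℚ] M) : ℝ) := by
    intro p
    rw [hwdef]
    dsimp only
    split_ifs
    · exact_mod_cast Finset.card_le_univ _
    · positivity
  obtain ⟨c, hc0, hcY⟩ := wi_count w _ (∑ e ∈ D, |((ArithmeticFunction.moebius e : ℤ) : ℝ) *
      ((orderOf τ / e : ℕ) : ℝ)| * C e + ∑ p ∈ B, |(w p - w0 p) * Real.log p / p|)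
      (Nat.totient (orderOf τ) : ℝ) hwn hwW htot (by
    intro Y hY
    have h1 := hM0 Y hY
    have h2 := hdiff Y
    rw [abs_le] at h1 h2 ⊢
    constructor <;> linarith [h1.1, h1.2, h2.1, h2.2])
  refine ⟨c, hc0, ?_⟩
  filter_upwards [hcY] with Y hY
  refine hY.trans ?_
  refine Nat.cast_le.2 (Finset.card_le_card fun p hp => ?_)
  rw [Finset.mem_filter] at hp ⊢
  refine ⟨hp.1, ?_⟩
  have hpp : p.Prime := by
    have := hp.1
    unfold prLe at this
    exact (Finset.mem_filter.1 this).2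
  have hne := hp.2
  rw [hwdef] at hne
  simp only [if_pos hpp] at hne
  have hne' : ((Finset.univ : Finset (M ≃ₐ[ℚ] M)).filter
      (fun s => Subgroup.zpowers (s⁻¹ * φ p * s) = Subgroup.zpowers τ)).card ≠ 0 := by
    intro h0
    apply hne
    rw [h0]
    simp
  obtain ⟨s, hs⟩ := Finset.card_ne_zero.1 hne'
  exact Sm_conj M τ p hpp (P p) (hPp p hpp) (hpP p hpp) (φ p) s (hφ p hpp) (Finset.mem_filter.1 hs).2

end Pool.Agent.H7.OR
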